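import Pool.Agent.H691.MM.Grid

/-! MM b2 (helper249, for helper691): completeness -/

set_option autoImplicit false

namespace Pool.Agent.H691.MM

open Pool.Agent.W982.TA Pool.Agent.H691.Geo Pool.Agent.NPC

/-- `LocOK` only depends on the values at the cells -/
theorem b2_congr {t s : ℕ} {g g' : ℕ → ℕ → Bool → Pt} (h : LocOK t s g)
    (hg : ∀ c ∈ cells t, ∀ up, g' c.1 c.2 up = g c.1 c.2 up) : LocOK t s g' where
  size := h.size
  prim := by
    intro c hc up
    rw [hg c hc up]
    exact h.prim c hc up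
  up := by
    intro c hc
    rw [hg c hc true]
    exact h.up c hc
  down := by
    intro c hc
    rw [hg c hc false]
    exact h.down c hc
  left0 := by
    intro h0 c hc up
    rw [hg c hc up]
    exact h.left0 h0 c hc up
  left1 := by
    intro h0 c hc hx
    refine ⟨(h.left1 h0 c hc hx).1, fun up => ?_⟩
    rw [hg c hc up]
    exact (h.left1 h0 c hc hx).2 up
  left2 := by
    intro h0 c hc hx up
    rw [hg c hc up]
    exact h.left2 h0 c hc hx up
  right1 := by
    intro c hc hx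
    refine ⟨(h.right1 c hc hx).1, fun up => ?_⟩
    rw [hg c hc up]
    exact (h.right1 c hc hx).2 up
  right2 := by
    intro c hc hx up
    rw [hg c hc up]
    exact h.right2 c hc hx up
  bot1 := by
    intro c hc hx
    refine ⟨(h.bot1 c hc hx).1, fun up => ?_⟩
    rw [hg c hc up]
    exact (h.bot1 c hc hx).2 up
  bot2 := by
    intro c hc hx up
    rw [hg c hc up]
    exact h.bot2 c hc hx up
  top1 := by
    intro c hc hx
    refine ⟨(h.top1 c hc hx).1, fun up => ?_⟩
    rw [hg c hc up]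
    exact (h.top1 c hc hx).2 up
  top2 := by
    intro c hc hx up
    rw [hg c hc up]
    exact h.top2 c hc hx up
  disjO := by
    intro c hc c' hc' up up'
    rw [hg c hc up, hg c' hc' up']
    exact h.disjO c hc c' hc' up up'
  disjG := by
    intro c hc q hq up up'
    rw [hg c hc up]
    exact h.disjG c hc q hq up up'
  nspO := by
    intro c hc up c' hc'
    rw [hg c hc up]
    exact h.nspO c hc up c' hc'
  nspG := by
    intro c hc up q hq
    rw [hg c hc up]
    exact h.nspG c hc up q hq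

/-- the values of the family of the instance -/
theorem b2_val (φ : List Cl) (τ : ℕ → Bool) (i j x y : ℕ) (hx : x < 21) (hy : y < 39)
    (up : Bool) : fAll φ τ (21 * (j : ℤ) + x, 39 * (i : ℤ) + y) up =
      look (fam (ty φ i j) (st φ τ i j)) x y up := by
  have e1 : ((39 * (i : ℤ) + (y : ℤ)) / 39).toNat = i := by omega
  have e2 : ((21 * (j : ℤ) + (x : ℤ)) / 21).toNat = j := by omega
  have e3 : ((21 * (j : ℤ) + (x : ℤ)) % 21).toNat = x := by omega
  have e4 : ((39 * (i : ℤ) + (y : ℤ)) % 39).toNat = y := by omega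
  unfold fAll
  simp only [e1, e2, e3, e4]

theorem b2_grid (hF : FamsOK) (f1 : TaskF1) (i1 : TaskI1) (m1 : TaskM1) (m2 : TaskM2)
    (m3 : TaskM3) (φ : List Cl) (hb : Bounded3 φ) (τ : ℕ → Bool) (hτ : SatBy φ τ) :
    GridOK (nR φ) (nC φ) (ty φ) (st φ τ) (Wset φ) (fAll φ τ) where
  pos := ⟨by unfold nR; omega, by unfold nC; omega⟩
  loc := by
    intro i hi j hj
    obtain ⟨h1, h2, h3, h4, -, -, -⟩ := m3 φ τ i hi j hj
    have hL := f1 _ _ (hF _ h1 _ h2 h3 h4)
    refine b2_congr hL ?_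
    intro c hc up
    obtain ⟨hx, hy⟩ := hL.size c hc
    exact b2_val φ τ i j c.1 c.2 hx hy up
  mem := i1 φ
  hc := m1 φ τ
  vc := m2 φ τ hb hτ
  l0 := by
    intro i hi
    have hC : 0 < nC φ := by unfold nC; omega
    exact (m3 φ τ i hi 0 hC).2.2.2.2.1.2 rfl
  b0 := by
    intro j hj
    have hR : 0 < nR φ := by unfold nR; omega
    by_contra hne
    have := (m3 φ τ 0 hR j hj).2.2.2.2.2.1 hne
    omega
  t0 := by
    intro j hj
    have hR : 0 < nR φ := by unfold nR; omega
    by_contra hne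
    have := (m3 φ τ (nR φ - 1) (by omega) j hj).2.2.2.2.2.2 hne
    omega

/-- B2: completeness -/
theorem b2 (f1 : TaskF1) (i1 : TaskI1) (m1 : TaskM1) (m2 : TaskM2) (m3 : TaskM3)
    (b1 : TaskB1) : TaskB2 := by
  intro hF φ _ hb hs
  obtain ⟨τ, hτ⟩ := hs
  have hG := b2_grid hF f1 i1 m1 m2 m3 φ hb τ hτ
  obtain ⟨h1, h2⟩ := b1 _ _ _ _ _ _ hG
  refine ⟨fAll φ τ, ?_, h2⟩
  have eX : ((bX φ : ℕ) : ℤ) = 21 * ((nC φ : ℕ) : ℤ) + 2 := by
    unfold bX
    push_cast
    rfl
  have eY : ((bY φ : ℕ) : ℤ) = 39 * ((nR φ : ℕ) : ℤ) := by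
    unfold bY
    push_cast
    rfl
  rw [eX, eY]
  exact h1

end Pool.Agent.H691.MM
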