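import Pool.Agent.H691.MM.Cert

/-!
# Max-min area triangulations, C2: every primitive vector has one of 38 types
-/

set_option autoImplicit false

namespace Pool.Agent.H694.MM

open Pool.Agent.W982.TA Pool.Agent.H691.Geo Pool.Agent.H691.MM

theorem gcd_aux {α x y : ℤ} (h0 : 0 ≤ α) (h : Int.gcd (α * x) (α * y) = 1) : α = 1 := by
  rw [Int.gcd_mul_left] at h
  have h1 := Nat.eq_one_of_mul_eq_one_right h
  omega

/-- splitting of a cone -/
theorem split3 {u v a : Pt} (hg : Int.gcd a.1 a.2 = 1)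
    (h : (⟨(u.1 + v.1, u.2 + v.2), u, v⟩ : Sector).Mem a) :
    (⟨(2 * u.1 + v.1, 2 * u.2 + v.2), u, (u.1 + v.1, u.2 + v.2)⟩ : Sector).Mem a ∨
    (⟨(u.1 + v.1, u.2 + v.2), (0, 0), (0, 0)⟩ : Sector).Mem a ∨
    (⟨(u.1 + 2 * v.1, u.2 + 2 * v.2), (u.1 + v.1, u.2 + v.2), v⟩ : Sector).Mem a := by
  obtain ⟨s, t, hs, ht, rfl⟩ := h
  rcases lt_trichotomy s t with hst | hst | hst
  · right; right
    refine ⟨s, t - s - 1, hs, by omega, ?_⟩
    apply Prod.ext <;> (simp only []; ring)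
  · right; left
    subst hst
    have h1 : Int.gcd ((1 + s) * (u.1 + v.1)) ((1 + s) * (u.2 + v.2)) = 1 := by
      rw [← hg]
      simp only []
      congr 1 <;> ring
    have h2 := gcd_aux (by omega) h1
    have h3 : s = 0 := by omega
    subst h3
    refine ⟨0, 0, le_refl _, le_refl _, ?_⟩
    apply Prod.ext <;> (simp only []; ring)
  · left
    refine ⟨s - t - 1, t, by omega, ht, ?_⟩
    apply Prod.ext <;> (simp only []; ring)

/-- splitting of a root cone -/
theorem split2 {u v a : Pt} (hg : Int.gcd a.1 a.2 = 1)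
    (h : (⟨(2 * u.1 + v.1, 2 * u.2 + v.2), u, v⟩ : Sector).Mem a) :
    (⟨(2 * u.1 + v.1, 2 * u.2 + v.2), u, (u.1 + v.1, u.2 + v.2)⟩ : Sector).Mem a ∨
    (⟨(2 * u.1 + 3 * v.1, 2 * u.2 + 3 * v.2), (u.1 + v.1, u.2 + v.2), v⟩ : Sector).Mem a := by
  obtain ⟨s, t, hs, ht, rfl⟩ := h
  rcases lt_trichotomy (s + 1) t with hst | hst | hst
  · right
    refine ⟨s, t - s - 2, hs, by omega, ?_⟩
    apply Prod.ext <;> (simp only []; ring)
  · exfalso
    subst hst
    have h1 : Int.gcd ((2 + s) * (u.1 + v.1)) ((2 + s) * (u.2 + v.2)) = 1 := by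
      rw [← hg]
      simp only []
      congr 1 <;> ring
    have h2 := gcd_aux (by omega) h1
    omega
  · left
    refine ⟨s - t, t, by omega, ht, ?_⟩
    apply Prod.ext <;> (simp only []; ring)

/-- the tree of the sectors -/
inductive Tr : Type
  | leaf (k : ℕ) : Tr
  | c3 (k : ℕ) (a b c : Tr) : Tr
  | r2 (k : ℕ) (a b : Tr) : Tr

/-- the node of a tree -/
def Tr.root : Tr → ℕ
  | .leaf k => k
  | .c3 k _ _ _ => k
  | .r2 k _ _ => k

/-- equality of sectors -/
def eqS (S : Sector) (m u v : Pt) : Bool := decide (S.m = m) && decide (S.u = u) && decide (S.v = v)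

theorem eqS_iff {S : Sector} {m u v : Pt} (h : eqS S m u v = true) : S = ⟨m, u, v⟩ := by
  unfold eqS at h
  simp only [Bool.and_eq_true, decide_eq_true_eq] at h
  obtain ⟨⟨h1, h2⟩, h3⟩ := h
  cases S
  simp only at h1 h2 h3
  rw [h1, h2, h3]

/-- the check of a splitting of a cone -/
def ck3 (S A B C : Sector) : Bool :=
  eqS S (S.u.1 + S.v.1, S.u.2 + S.v.2) S.u S.v &&
  eqS A (2 * S.u.1 + S.v.1, 2 * S.u.2 + S.v.2) S.u (S.u.1 + S.v.1, S.u.2 + S.v.2) &&
  eqS B (S.u.1 + S.v.1, S.u.2 + S.v.2) (0, 0) (0, 0) &&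
  eqS C (S.u.1 + 2 * S.v.1, S.u.2 + 2 * S.v.2) (S.u.1 + S.v.1, S.u.2 + S.v.2) S.v

/-- the check of a splitting of a root cone -/
def ck2 (S A B : Sector) : Bool :=
  eqS S (2 * S.u.1 + S.v.1, 2 * S.u.2 + S.v.2) S.u S.v &&
  eqS A (2 * S.u.1 + S.v.1, 2 * S.u.2 + S.v.2) S.u (S.u.1 + S.v.1, S.u.2 + S.v.2) &&
  eqS B (2 * S.u.1 + 3 * S.v.1, 2 * S.u.2 + 3 * S.v.2) (S.u.1 + S.v.1, S.u.2 + S.v.2) S.v

/-- the check of a tree -/
def chk (r : ℕ) : Tr → List ℕ → Bool
  | .leaf k, p => decide (Nat.log2 (nmask k) < 38) && (nmask r).testBit (Nat.log2 (nmask k)) &&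
      (List.range 60).all (fun j => !((nmask j).testBit (Nat.log2 (nmask k))) || (k :: p).contains j)
  | .c3 k a b c, p => ck3 (nsec k true) (nsec a.root true) (nsec b.root true) (nsec c.root true) &&
      chk r a (k :: p) && chk r b (k :: p) && chk r c (k :: p)
  | .r2 k a b, p => ck2 (nsec k true) (nsec a.root true) (nsec b.root true) &&
      chk r a (k :: p) && chk r b (k :: p)

theorem chk_sound (r : ℕ) (T : Tr) : ∀ (p : List ℕ) (a : Pt), chk r T p = true →
    Int.gcd a.1 a.2 = 1 → (nsec T.root true).Mem a → (∀ j ∈ p, (nsec j true).Mem a) →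
    ∃ l, HasType true a l ∧ (nmask r).testBit l = true := by
  induction T with
  | leaf k =>
    intro p a h hg hm hp
    unfold chk at h
    simp only [Bool.and_eq_true, decide_eq_true_eq, List.all_eq_true, List.mem_range,
      Bool.or_eq_true, Bool.not_eq_true', List.contains_iff_mem] at h
    obtain ⟨⟨h1, h2⟩, h3⟩ := h
    refine ⟨Nat.log2 (nmask k), ⟨h1, ?_⟩, h2⟩
    intro j hj hb
    rcases h3 j hj with h4 | h4
    · rw [hb] at h4
      exact absurd h4 (by decide)
    · rcases List.mem_cons.1 h4 with rfl | h5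
      · exact hm
      · exact hp j h5
  | c3 k a b c iha ihb ihc =>
    intro p x h hg hm hp
    unfold chk at h
    simp only [Bool.and_eq_true] at h
    obtain ⟨⟨⟨h1, h2⟩, h3⟩, h4⟩ := h
    unfold ck3 at h1
    simp only [Bool.and_eq_true] at h1
    obtain ⟨⟨⟨h5, h6⟩, h7⟩, h8⟩ := h1
    have hp' : ∀ j ∈ k :: p, (nsec j true).Mem x := by
      intro j hj
      rcases List.mem_cons.1 hj with rfl | h9
      · exact hm
      · exact hp j h9
    change (nsec k true).Mem x at hm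
    rw [eqS_iff h5] at hm
    rcases split3 hg hm with h9 | h9 | h9
    · rw [← eqS_iff h6] at h9
      exact iha _ x h2 hg h9 hp'
    · rw [← eqS_iff h7] at h9
      exact ihb _ x h3 hg h9 hp'
    · rw [← eqS_iff h8] at h9
      exact ihc _ x h4 hg h9 hp'
  | r2 k a b iha ihb =>
    intro p x h hg hm hp
    unfold chk at h
    simp only [Bool.and_eq_true] at h
    obtain ⟨⟨h1, h2⟩, h3⟩ := h
    unfold ck2 at h1
    simp only [Bool.and_eq_true] at h1
    obtain ⟨⟨h5, h6⟩, h7⟩ := h1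
    have hp' : ∀ j ∈ k :: p, (nsec j true).Mem x := by
      intro j hj
      rcases List.mem_cons.1 hj with rfl | h9
      · exact hm
      · exact hp j h9
    change (nsec k true).Mem x at hm
    rw [eqS_iff h5] at hm
    rcases split2 hg hm with h9 | h9
    · rw [← eqS_iff h6] at h9
      exact iha _ x h2 hg h9 hp'
    · rw [← eqS_iff h7] at h9
      exact ihb _ x h3 hg h9 hp'

/-- the tree with the first node `d` -/
def tree (d : ℕ) : Tr :=
  .r2 d
    (.c3 (d + 1)
      (.c3 (d + 2) (.c3 (d + 3) (.leaf (d + 4)) (.leaf (d + 5)) (.leaf (d + 6))) (.leaf (d + 7))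
        (.leaf (d + 8)))
      (.leaf (d + 9))
      (.c3 (d + 10) (.leaf (d + 11)) (.leaf (d + 12))
        (.c3 (d + 13) (.leaf (d + 14)) (.leaf (d + 15)) (.leaf (d + 16)))))
    (.r2 (d + 17)
      (.c3 (d + 18) (.c3 (d + 19) (.leaf (d + 20)) (.leaf (d + 21)) (.leaf (d + 22)))
        (.leaf (d + 23)) (.leaf (d + 24)))
      (.r2 (d + 25) (.leaf (d + 26)) (.r2 (d + 27) (.leaf (d + 28)) (.leaf (d + 29)))))

theorem chk0 : chk 0 (tree 0) [] = true := by decide +kernel

theorem chk30 : chk 30 (tree 30) [] = true := by decide +kernel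

theorem up (a : Pt) (hg : Int.gcd a.1 a.2 = 1) (h2 : 2 ≤ a.2) :
    ∃ l, HasType true a l ∧ (0 < a.1 → (nmask 0).testBit l = true) ∧
      (a.1 < 0 → (nmask 30).testBit l = true) := by
  rcases lt_trichotomy a.1 0 with h | h | h
  · obtain ⟨l, h3, h4⟩ := chk_sound 30 (tree 30) [] a chk30 hg
      ⟨a.2 - 2, -a.1 - 1, by omega, by omega, by
        change a = (-1 + (a.2 - 2) * 0 + (-a.1 - 1) * (-1), 2 + (a.2 - 2) * 1 + (-a.1 - 1) * 0)
        apply Prod.ext <;> (simp only []; ring)⟩ (by simp)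
    exact ⟨l, h3, fun h' => absurd h' (by omega), fun _ => h4⟩
  · exfalso
    rw [h, Int.gcd_zero_left] at hg
    omega
  · obtain ⟨l, h3, h4⟩ := chk_sound 0 (tree 0) [] a chk0 hg
      ⟨a.2 - 2, a.1 - 1, by omega, by omega, by
        change a = (1 + (a.2 - 2) * 0 + (a.1 - 1) * 1, 2 + (a.2 - 2) * 1 + (a.1 - 1) * 0)
        apply Prod.ext <;> (simp only []; ring)⟩ (by simp)
    exact ⟨l, h3, fun _ => h4, fun h' => absurd h' (by omega)⟩

theorem down_type {a : Pt} {l : ℕ} (h : HasType true (ng a) l) : HasType false a l := by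
  refine ⟨h.1, fun k hk hb => ?_⟩
  obtain ⟨s, t, hs, ht, he⟩ := h.2 k hk hb
  have e1 : -a.1 = (nsec k true).m.1 + s * (nsec k true).u.1 + t * (nsec k true).v.1 :=
    congrArg Prod.fst he
  have e2 : -a.2 = (nsec k true).m.2 + s * (nsec k true).u.2 + t * (nsec k true).v.2 :=
    congrArg Prod.snd he
  refine ⟨s, t, hs, ht, ?_⟩
  change a = (-(nsec k true).m.1 + s * -(nsec k true).u.1 + t * -(nsec k true).v.1,
    -(nsec k true).m.2 + s * -(nsec k true).u.2 + t * -(nsec k true).v.2)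
  apply Prod.ext
  · simp only []
    linarith
  · simp only []
    linarith

theorem c2 : TaskC2 := by
  refine ⟨up, ?_⟩
  intro a hg h2
  obtain ⟨l, h3, h4, h5⟩ := up (ng a) (by
    change Int.gcd (-a.1) (-a.2) = 1
    rw [Int.gcd_neg, Int.neg_gcd]; exact hg) (by change 2 ≤ -a.2; omega)
  refine ⟨l, down_type h3, fun h => h4 ?_, fun h => h5 ?_⟩
  · change 0 < -a.1
    omega
  · change -a.1 < 0
    omega

end Pool.Agent.H694.MM
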