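import Pool.Agent.H691.MM.Cert

/-!
# Max-min area triangulations, C3: certificates are sound
-/

set_option autoImplicit false

namespace Pool.Agent.H694.MM

open Pool.Agent.W982.TA Pool.Agent.H691.Geo Pool.Agent.H691.MM

theorem getD_set' (D : List ℕ) (i j v : ℕ) (hi : i < D.length) :
    (D.set i v).getD j 0 = if i = j then v else D.getD j 0 := by
  rw [List.getD_eq_getElem?_getD, List.getD_eq_getElem?_getD, List.getElem?_set]
  by_cases h : i = j
  · subst h
    rw [if_pos rfl, if_pos hi, if_pos rfl]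
    rfl
  · rw [if_neg h, if_neg h]

theorem testBit_ldiff' (n m k : ℕ) :
    (Nat.ldiff n m).testBit k = (n.testBit k && !(m.testBit k)) := Nat.testBit_ldiff n m k

theorem orM_aux (bs : List ℕ) (m0 l : ℕ)
    (h : (bs.foldl (fun m b => Nat.lor m (nmask b)) m0).testBit l = true) :
    m0.testBit l = true ∨ ∃ b ∈ bs, (nmask b).testBit l = true := by
  induction bs generalizing m0 with
  | nil => exact Or.inl h
  | cons b bs ih =>
    rw [List.foldl_cons] at h
    rcases ih _ h with h1 | ⟨b', hb', h1⟩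
    · have h2 : (m0 ||| nmask b).testBit l = true := h1
      rw [Nat.testBit_or, Bool.or_eq_true] at h2
      rcases h2 with h2 | h2
      · exact Or.inl h2
      · exact Or.inr ⟨b, List.mem_cons_self, h2⟩
    · exact Or.inr ⟨b', List.mem_cons_of_mem _ hb', h1⟩

section

variable {V : List (Pt × Bool)} {x : ℕ → Pt} {t : ℕ → ℕ}

theorem step_inv (h1 : TaskC1) (hT : ∀ i < V.length, HasType (vdir V i) (x i) (t i))
    (hN : ∀ i < V.length, ∀ j < V.length,
      ¬ PCross (vpos V i) (vpos V i + x i) (vpos V j) (vpos V j + x j))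
    {D : List ℕ} (hD : D.length = V.length) (hb : ∀ i < V.length, (D.getD i 0).testBit (t i) = true)
    {s : Step} (hs : stepOK V D s = true) :
    (stepD D s).length = V.length ∧ ∀ i < V.length, ((stepD D s).getD i 0).testBit (t i) = true := by
  unfold stepOK at hs
  simp only [Bool.and_eq_true, decide_eq_true_eq, List.all_eq_true] at hs
  obtain ⟨⟨⟨⟨⟨hi, hj⟩, hk⟩, hbs⟩, hld⟩, hxs⟩ := hs
  have hld' : Nat.ldiff (D.getD s.j 0) (orM s.bs) = 0 := Nat.eq_of_beq_eq_true hld
  have hno : (nmask s.k).testBit (t s.i) = false := by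
    by_contra hcon
    rw [Bool.not_eq_false] at hcon
    have h2 : (nsec s.k (vdir V s.i)).Mem (x s.i) := (hT s.i (hD ▸ hi)).2 s.k hk hcon
    have h3 : (orM s.bs).testBit (t s.j) = true := by
      have h4 := congrArg (fun n => n.testBit (t s.j)) hld'
      simp only [testBit_ldiff', Nat.zero_testBit] at h4
      rw [hb s.j (hD ▸ hj), Bool.true_and, Bool.not_eq_false'] at h4
      exact h4
    rcases orM_aux s.bs 0 (t s.j) h3 with h4 | ⟨b, hbm, h4⟩
    · rw [Nat.zero_testBit] at h4
      exact absurd h4 (by decide)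
    · have h5 : (nsec b (vdir V s.j)).Mem (x s.j) := (hT s.j (hD ▸ hj)).2 b (hbs b hbm) h4
      exact hN s.i (hD ▸ hi) s.j (hD ▸ hj) (h1 _ _ _ _ _ _ (hxs b hbm) h2 h5)
  refine ⟨by unfold stepD; rw [List.length_set]; exact hD, ?_⟩
  intro i hiV
  unfold stepD
  rw [getD_set' _ _ _ _ hi]
  by_cases h : s.i = i
  · subst h
    rw [if_pos rfl, testBit_ldiff', hb _ hiV, hno]
    rfl
  · rw [if_neg h]
    exact hb _ hiV

theorem run_inv (h1 : TaskC1) (hT : ∀ i < V.length, HasType (vdir V i) (x i) (t i))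
    (hN : ∀ i < V.length, ∀ j < V.length,
      ¬ PCross (vpos V i) (vpos V i + x i) (vpos V j) (vpos V j + x j))
    (ss : List Step) : ∀ (D : List ℕ) (κ : List ℕ → Bool), D.length = V.length →
    (∀ i < V.length, (D.getD i 0).testBit (t i) = true) → runS V ss D κ = true →
    ∃ D' : List ℕ, D'.length = V.length ∧ (∀ i < V.length, (D'.getD i 0).testBit (t i) = true) ∧
      κ D' = true := by
  induction ss with
  | nil =>
    intro D κ hD hb hr
    exact ⟨D, hD, hb, hr⟩
  | cons s ss ih =>
    intro D κ hD hb hr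
    have hr' : (stepOK V D s && runS V ss (stepD D s) κ) = true := hr
    rw [Bool.and_eq_true] at hr'
    obtain ⟨h2, h3⟩ := step_inv h1 hT hN hD hb hr'.1
    exact ih _ κ h2 h3 hr'.2

theorem set_inv {D : List ℕ} (hD : D.length = V.length)
    (hb : ∀ i < V.length, (D.getD i 0).testBit (t i) = true) {i m : ℕ} (hi : i < D.length)
    (hm : m.testBit (t i) = true) :
    (D.set i m).length = V.length ∧ ∀ j < V.length, ((D.set i m).getD j 0).testBit (t j) = true := by
  refine ⟨by rw [List.length_set]; exact hD, ?_⟩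
  intro j hj
  rw [getD_set' _ _ _ _ hi]
  by_cases h : i = j
  · subst h
    rw [if_pos rfl]
    exact hm
  · rw [if_neg h]
    exact hb _ hj

theorem check_inv (h1 : TaskC1) (hT : ∀ i < V.length, HasType (vdir V i) (x i) (t i))
    (hN : ∀ i < V.length, ∀ j < V.length,
      ¬ PCross (vpos V i) (vpos V i + x i) (vpos V j) (vpos V j + x j))
    (c : Cert) : ∀ D : List ℕ, D.length = V.length →
    (∀ i < V.length, (D.getD i 0).testBit (t i) = true) → check V c D = true → False := by
  induction c with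
  | stop i =>
    intro D hD hb hc
    have hc' : (decide (i < D.length) && Nat.beq (D.getD i 1) 0) = true := hc
    rw [Bool.and_eq_true, decide_eq_true_eq] at hc'
    obtain ⟨hi, h2⟩ := hc'
    have h3 : D.getD i 1 = 0 := Nat.eq_of_beq_eq_true h2
    have h4 : D.getD i 1 = D.getD i 0 := by
      rw [List.getD_eq_getElem _ _ hi, List.getD_eq_getElem _ _ hi]
    have h5 := hb i (hD ▸ hi)
    rw [← h4, h3, Nat.zero_testBit] at h5
    exact absurd h5 (by decide)
  | run ss c ih =>
    intro D hD hb hc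
    have hc' : runS V ss D (fun D' => check V c D') = true := hc
    obtain ⟨D', h2, h3, h4⟩ := run_inv h1 hT hN ss D _ hD hb hc'
    exact ih D' h2 h3 h4
  | br i m c₁ c₂ ih₁ ih₂ =>
    intro D hD hb hc
    have hc' : (decide (i < D.length) && check V c₁ (D.set i (Nat.land (D.getD i 0) m)) &&
      check V c₂ (D.set i (Nat.ldiff (D.getD i 0) m))) = true := hc
    rw [Bool.and_eq_true, Bool.and_eq_true, decide_eq_true_eq] at hc'
    obtain ⟨⟨hi, h2⟩, h3⟩ := hc'
    by_cases hm : m.testBit (t i) = true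
    · obtain ⟨h4, h5⟩ := set_inv (t := t) hD hb hi (m := Nat.land (D.getD i 0) m) (by
        have : (D.getD i 0 &&& m).testBit (t i) = true := by
          rw [Nat.testBit_and, hb i (hD ▸ hi), hm]; rfl
        exact this)
      exact ih₁ _ h4 h5 h2
    · rw [Bool.not_eq_true] at hm
      obtain ⟨h4, h5⟩ := set_inv (t := t) hD hb hi (m := Nat.ldiff (D.getD i 0) m) (by
        rw [testBit_ldiff', hb i (hD ▸ hi), hm]; rfl)
      exact ih₂ _ h4 h5 h3

end

theorem c3 (h1 : TaskC1) : TaskC3 := by
  intro V c D x t hD hT hb hN hc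
  exact check_inv h1 hT hN c D hD hb hc

end Pool.Agent.H694.MM
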