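import Pool.Agent.H691.MM.Cert

/-! C4 for helper691: claims are sound. -/

set_option autoImplicit false

namespace Pool.Agent.H747.MM

open Pool.Agent.W982.TA Pool.Agent.H691.Geo Pool.Agent.H691.MM

theorem dt_add (o a b c : Pt) : dt (o + a) (o + b) (o + c) = dt a b c := by
  simp only [dt, Prod.fst_add, Prod.snd_add]
  ring

theorem pcross_add {o a b c d : Pt} (h : PCross a b c d) : PCross (o + a) (o + b) (o + c) (o + d) := by
  unfold PCross at h ⊢
  rw [dt_add, dt_add, dt_add, dt_add]
  exact h

theorem ne_zero_of_gcd {a : Pt} (h : Int.gcd a.1 a.2 = 1) (h2 : 2 ≤ a.2 ∨ a.2 ≤ -2) : a.1 ≠ 0 := by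
  intro h0
  rw [h0, Int.gcd_zero_left] at h
  omega

theorem nm0 : nmask 0 = 524287 := rfl

theorem nm30 : nmask 30 = 274877382656 := rfl

theorem full {l : ℕ} (h : l < 38) : Nat.testBit 274877906943 l = true := by
  have h1 : 274877906943 = 2 ^ 38 - 1 := by norm_num
  rw [h1, Nat.testBit_two_pow_sub_one]
  exact decide_eq_true h

theorem c4 (h2 : TaskC2) (h3 : TaskC3) : TaskC4 := by
  intro X Y W f hS c hc o hbd hW hasm
  have hget : ∀ i, i < c.vars.length → (vpos c.vars i, vdir c.vars i) ∈ c.vars := by
    intro i hi
    unfold vpos vdir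
    rw [List.getD_eq_getElem _ _ hi]
    exact List.getElem_mem hi
  have hD : ∀ i, i < c.vars.length → (c.vars.map (initM c.bd c.asm)).getD i 0 =
      initM c.bd c.asm (vpos c.vars i, vdir c.vars i) := by
    intro i hi
    unfold vpos vdir
    rw [List.getD_eq_getElem _ _ hi, List.getD_eq_getElem _ _ (by rw [List.length_map]; exact hi),
      List.getElem_map]
  have key : ∀ i, ∃ l, i < c.vars.length →
      HasType (vdir c.vars i) (f (o + vpos c.vars i) (vdir c.vars i)) l ∧
        ((c.vars.map (initM c.bd c.asm)).getD i 0).testBit l = true := by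
    intro i
    by_cases hi : i < c.vars.length
    swap
    · exact ⟨0, fun h => absurd h hi⟩
    have hmem := hget i hi
    rw [hD i hi]
    generalize vpos c.vars i = p at hmem ⊢
    generalize vdir c.vars i = s at hmem ⊢
    have hw : o + p ∈ W := hW _ hmem
    have hprim := hS.prim _ hw s
    have hbox := hS.mem _ hw s
    have hne : (f (o + p) s).1 ≠ 0 := by
      refine ne_zero_of_gcd hprim ?_
      cases s
      · exact Or.inr (hS.down _ hw)
      · exact Or.inl (hS.up _ hw)
    have hpos : c.bd = true → p.1 = 0 → 0 < (f (o + p) s).1 := by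
      intro hb hp
      have h4 : 0 ≤ (o + p + f (o + p) s).1 := by
        have h5 := (Finset.mem_product.1 hbox).1
        exact (Finset.mem_Icc.1 h5).1
      rw [Prod.fst_add, Prod.fst_add, hbd hb, hp] at h4
      omega
    obtain ⟨l, hl, hl0, hl30⟩ : ∃ l, HasType s (f (o + p) s) l ∧
        ((if s = true then 0 < (f (o + p) s).1 else (f (o + p) s).1 < 0) →
          (nmask 0).testBit l = true) ∧
        ((if s = true then (f (o + p) s).1 < 0 else 0 < (f (o + p) s).1) →
          (nmask 30).testBit l = true) := by
      cases s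
      · exact h2.2 _ hprim (hS.down _ hw)
      · exact h2.1 _ hprim (hS.up _ hw)
    refine ⟨l, fun _ => ⟨hl, ?_⟩⟩
    unfold initM
    rw [nm0] at hl0
    rw [nm30] at hl30
    split_ifs with g1 g2 g3 g4
    · rw [Bool.and_eq_true] at g1
      have g5 := hasm _ (List.contains_iff_mem.1 g1.2)
      have g6 : s = true := g1.1
      subst g6
      apply hl0
      rw [if_pos rfl]
      exact of_decide_eq_true g5
    · rw [Bool.and_eq_true] at g2
      have g5 := hasm _ (List.contains_iff_mem.1 g2.2)
      have g6 : s = true := g2.1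
      subst g6
      apply hl30
      rw [if_pos rfl]
      have g7 : ¬ 0 < (f (o + p) true).1 := of_decide_eq_false g5
      omega
    · rw [Bool.and_eq_true, decide_eq_true_eq] at g3
      have g6 : s = true := g4
      subst g6
      apply hl0
      rw [if_pos rfl]
      exact hpos g3.1 g3.2
    · rw [Bool.and_eq_true, decide_eq_true_eq] at g3
      have g6 : s = false := by simpa using g4
      subst g6
      apply hl30
      rw [if_neg (by decide)]
      exact hpos g3.1 g3.2
    · exact full hl.1
  choose t ht using key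
  refine h3 c.vars c.cert (c.vars.map (initM c.bd c.asm))
    (fun i => f (o + vpos c.vars i) (vdir c.vars i)) t (List.length_map _)
    (fun i hi => (ht i hi).1) (fun i hi => (ht i hi).2) ?_ hc
  intro i hi j hj hcr
  have hwi : o + vpos c.vars i ∈ W := hW _ (hget i hi)
  have hwj : o + vpos c.vars j ∈ W := hW _ (hget j hj)
  refine hS.disj _ hwi (vdir c.vars i) _ hwj (vdir c.vars j) ?_
  have h5 := pcross_add (o := o) hcr
  rw [← add_assoc, ← add_assoc] at h5
  exact h5

end Pool.Agent.H747.MM
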