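import Pool.Agent.H691.MM.Dat

/-!
# Max-min area triangulations: the checks of the claims
-/

set_option autoImplicit false

namespace Pool.Agent.H691.MM

theorem ok_cl0_rb : claimOK cl0_rb = true := by decide +kernel

theorem ok_cl0_al : claimOK cl0_al = true := by decide +kernel

theorem ok_cl0_P1 : claimOK cl0_P1 = true := by decide +kernel

theorem ok_cl0_Q1 : claimOK cl0_Q1 = true := by decide +kernel

theorem ok_cl0_P2 : claimOK cl0_P2 = true := by decide +kernel

theorem ok_cl0_Q2 : claimOK cl0_Q2 = true := by decide +kernel

theorem ok_cl1_rb : claimOK cl1_rb = true := by decide +kernel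

theorem ok_cl1_al : claimOK cl1_al = true := by decide +kernel

theorem ok_cl1_P1 : claimOK cl1_P1 = true := by decide +kernel

theorem ok_cl1_Q1 : claimOK cl1_Q1 = true := by decide +kernel

theorem ok_cl1_P2 : claimOK cl1_P2 = true := by decide +kernel

theorem ok_cl1_Q2 : claimOK cl1_Q2 = true := by decide +kernel

theorem ok_cl1_O : claimOK cl1_O = true := by decide +kernel

theorem ok_cl2_c : claimOK cl2_c = true := by decide +kernel

theorem ok_cl3_n : claimOK cl3_n = true := by decide +kernel

theorem ok_cl4_r : claimOK cl4_r = true := by decide +kernel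

theorem ok_cl4_v : claimOK cl4_v = true := by decide +kernel

theorem ok_cl5_g : claimOK cl5_g = true := by decide +kernel

theorem ok_cl6_r : claimOK cl6_r = true := by decide +kernel

theorem ok_cl6_v : claimOK cl6_v = true := by decide +kernel

theorem ok_cl7_g : claimOK cl7_g = true := by decide +kernel

end Pool.Agent.H691.MM
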