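import Pool.Agent.H691.MM.Grid
import Pool.Agent.H691.MM.CkC

/-!
# Max-min area triangulations: the claims are correct
-/

set_option autoImplicit false
set_option maxRecDepth 100000

namespace Pool.Agent.H691.MM

theorem claimIn_of {t : ℕ} {c : Claim} (h : claimOK c = true)
    (h2 : (c.vars.all (fun e => cellIn t e.1) && (!c.bd || !hasL t)) = true) :
    claimIn t c = true := by
  unfold claimIn
  rw [h, Bool.true_and]
  exact h2

/-- **the claims are correct** -/
theorem claimsOK : ClaimsOK := by
  refine ⟨?_, ?_, ?_, ?_, ?_, ?_, ?_, ?_⟩
  · intro c hc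
    simp only [claims0, List.mem_cons, List.not_mem_nil, or_false] at hc
    rcases hc with rfl | rfl | rfl | rfl | rfl | rfl
    · exact claimIn_of ok_cl0_rb (by decide +kernel)
    · exact claimIn_of ok_cl0_al (by decide +kernel)
    · exact claimIn_of ok_cl0_P1 (by decide +kernel)
    · exact claimIn_of ok_cl0_Q1 (by decide +kernel)
    · exact claimIn_of ok_cl0_P2 (by decide +kernel)
    · exact claimIn_of ok_cl0_Q2 (by decide +kernel)
  · intro c hc
    simp only [claims1, List.mem_cons, List.not_mem_nil, or_false] at hc
    rcases hc with rfl | rfl | rfl | rfl | rfl | rfl | rfl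
    · exact claimIn_of ok_cl1_rb (by decide +kernel)
    · exact claimIn_of ok_cl1_al (by decide +kernel)
    · exact claimIn_of ok_cl1_P1 (by decide +kernel)
    · exact claimIn_of ok_cl1_Q1 (by decide +kernel)
    · exact claimIn_of ok_cl1_P2 (by decide +kernel)
    · exact claimIn_of ok_cl1_Q2 (by decide +kernel)
    · exact claimIn_of ok_cl1_O (by decide +kernel)
  · intro c hc
    simp only [claims2, List.mem_cons, List.not_mem_nil, or_false] at hc
    subst hc
    exact claimIn_of ok_cl2_c (by decide +kernel)
  · intro c hc
    simp only [claims3, List.mem_cons, List.not_mem_nil, or_false] at hc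
    subst hc
    exact claimIn_of ok_cl3_n (by decide +kernel)
  · intro c hc
    simp only [claims4, List.mem_cons, List.not_mem_nil, or_false] at hc
    rcases hc with rfl | rfl
    · exact claimIn_of ok_cl4_r (by decide +kernel)
    · exact claimIn_of ok_cl4_v (by decide +kernel)
  · intro c hc
    simp only [claims5, List.mem_cons, List.not_mem_nil, or_false] at hc
    subst hc
    exact claimIn_of ok_cl5_g (by decide +kernel)
  · intro c hc
    simp only [claims6, List.mem_cons, List.not_mem_nil, or_false] at hc
    rcases hc with rfl | rfl
    · exact claimIn_of ok_cl6_r (by decide +kernel)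
    · exact claimIn_of ok_cl6_v (by decide +kernel)
  · intro c hc
    simp only [claims7, List.mem_cons, List.not_mem_nil, or_false] at hc
    subst hc
    exact claimIn_of ok_cl7_g (by decide +kernel)

end Pool.Agent.H691.MM
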