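import Pool.Agent.H691.MM.Grid

/-!
# Max-min area triangulations: the families are correct (kernel computation)
-/

set_option autoImplicit false
set_option maxRecDepth 100000

namespace Pool.Agent.H691.MM

theorem fk00 : famOK 0 0 = true := by decide +kernel
theorem fk01 : famOK 0 1 = true := by decide +kernel
theorem fk02 : famOK 0 2 = true := by decide +kernel
theorem fk03 : famOK 0 3 = true := by decide +kernel
theorem fk10 : famOK 1 0 = true := by decide +kernel
theorem fk11 : famOK 1 1 = true := by decide +kernel
theorem fk12 : famOK 1 2 = true := by decide +kernel
theorem fk13 : famOK 1 3 = true := by decide +kernel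
theorem fk20 : famOK 2 0 = true := by decide +kernel
theorem fk21 : famOK 2 1 = true := by decide +kernel
theorem fk30 : famOK 3 0 = true := by decide +kernel
theorem fk31 : famOK 3 1 = true := by decide +kernel
theorem fk40 : famOK 4 0 = true := by decide +kernel
theorem fk50 : famOK 5 0 = true := by decide +kernel
theorem fk60 : famOK 6 0 = true := by decide +kernel
theorem fk70 : famOK 7 0 = true := by decide +kernel

/-- **the families are correct** -/
theorem famsOK : FamsOK := by
  intro t ht s hs h2 h4
  interval_cases t
  · interval_cases s
    exacts [fk00, fk01, fk02, fk03]
  · interval_cases s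
    exacts [fk10, fk11, fk12, fk13]
  · have := h2 (by norm_num)
    interval_cases s
    exacts [fk20, fk21]
  · have := h2 (by norm_num)
    interval_cases s
    exacts [fk30, fk31]
  · have := h4 (by norm_num)
    subst this
    exact fk40
  · have := h4 (by norm_num)
    subst this
    exact fk50
  · have := h4 (by norm_num)
    subst this
    exact fk60
  · have := h4 (by norm_num)
    subst this
    exact fk70

end Pool.Agent.H691.MM
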