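import Pool.Agent.H691.MM.Grid
import Pool.Graph.R_seed8.W60.TA_R1

/-! Part R of helper691's project MM (MP_f9630a_lc): the instance is computable in polynomial time. -/

set_option autoImplicit false

namespace Pool.Agent.H691.MM

open Pool.Agent.W982.TA Pool.Agent.H691.Geo Pool.Agent.NPC

section
variable {α : Type} [TEnc α]

theorem r_zq {x : α → ℤ} (hx : Poly x) : Poly (fun a => ((x a : ℤ) : ℚ)) := by
  have h : Poly (fun a => (x a, (1 : ℕ))) := NPC.Poly.pair hx (NPC.Poly.const 1)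
  have h2 : Poly (fun a => (((x a : ℤ) : ℚ).num, ((x a : ℤ) : ℚ).den)) :=
    h.congr fun a => by simp
  exact h2

theorem r_nq {x : α → ℕ} (hx : Poly x) : Poly (fun a => ((x a : ℕ) : ℚ)) := by
  have h0 : Poly (fun a => ((x a : ℕ) : ℤ)) := by fun_prop
  have h : Poly (fun a => (((x a : ℕ) : ℤ), (1 : ℕ))) := NPC.Poly.pair h0 (NPC.Poly.const 1)
  have h2 : Poly (fun a => (((x a : ℕ) : ℚ).num, ((x a : ℕ) : ℚ).den)) :=
    h.congr fun a => by simp
  exact h2

theorem r_bN_poly {φ : α → List Cl} (h : Poly φ) : Poly (fun x => bN (φ x)) := by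
  unfold bN nR
  fun_prop

end

/-- the special points, with explicit case distinction and natural coordinates -/
def r_WL (c : ℕ → List (ℕ × ℕ)) (φ : List Cl) : List (ℕ × ℕ) :=
  (List.range (nR φ)).flatMap fun i => (List.range (nC φ)).flatMap fun j =>
    (R1aux.cE c (ty φ i j)).map fun c => (21 * j + c.1, 39 * i + c.2)

theorem r_WL_poly (c : ℕ → List (ℕ × ℕ)) : Poly (r_WL c) := by
  unfold r_WL
  refine NPC.Poly.flatMap (l := fun φ => List.range (nR φ))
    (F := fun φ i => (List.range (nC φ)).flatMap fun j =>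
      (R1aux.cE c (ty φ i j)).map fun c => (21 * j + c.1, 39 * i + c.2))
    (R1aux.nR_upoly NPC.Poly.id).range ?_
  refine NPC.Poly.flatMap (l := fun x : List Cl × ℕ => List.range (nC x.1))
    (F := fun x j => (R1aux.cE c (ty x.1 x.2 j)).map fun c => (21 * j + c.1, 39 * x.2 + c.2))
    (R1aux.nC_upoly (NPC.Poly.fst NPC.Poly.id)).range ?_
  refine NPC.Poly.map (l := fun x : (List Cl × ℕ) × ℕ => R1aux.cE c (ty x.1.1 x.1.2 x.2))
    (F := fun x c => (21 * x.2 + c.1, 39 * x.1.2 + c.2))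
    (R1aux.cE_poly c (R1aux.ty_poly ?_ ?_ ?_)) ?_
  · fun_prop
  · fun_prop
  · fun_prop
  · fun_prop

theorem r_WL_eq (φ : List Cl) : (Wlist φ).map (fun w => ((bN φ : ℤ) * w.1 + 1, (bN φ : ℤ) * w.2))
    = (r_WL cells φ).map fun w => (((bN φ * w.1 + 1 : ℕ) : ℤ), ((bN φ * w.2 : ℕ) : ℤ)) := by
  unfold r_WL Wlist
  simp only [R1aux.cE_eq _ (R1aux.ty_lt _ _ _), List.map_flatMap, List.map_map]
  congr 1

theorem r_box_poly : Poly (fun φ : List Cl => (List.range (bX φ + 1)).flatMap fun x =>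
    (List.range (bY φ + 1)).map fun y =>
      (((bN φ * x : ℕ) : ℤ), ((bN φ * y : ℕ) : ℤ))) := by
  refine NPC.Poly.flatMap (l := fun φ : List Cl => List.range (bX φ + 1))
    (F := fun φ x => (List.range (bY φ + 1)).map fun y =>
      (((bN φ * x : ℕ) : ℤ), ((bN φ * y : ℕ) : ℤ))) ?_ ?_
  · unfold bX
    exact (UPoly.add (UPoly.add (UPoly.mul (UPoly.const 21) (R1aux.nC_upoly NPC.Poly.id))
      (UPoly.const 2)) (UPoly.const 1)).range
  refine NPC.Poly.map (l := fun x : List Cl × ℕ => List.range (bY x.1 + 1))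
    (F := fun x y => (((bN x.1 * x.2 : ℕ) : ℤ), ((bN x.1 * y : ℕ) : ℤ))) ?_ ?_
  · unfold bY
    exact (UPoly.add (UPoly.mul (UPoly.const 39) (R1aux.nR_upoly (NPC.Poly.fst NPC.Poly.id)))
      (UPoly.const 1)).range
  · have h1 : Poly (fun x : (List Cl × ℕ) × ℕ => bN x.1.1) :=
      r_bN_poly (NPC.Poly.fst (NPC.Poly.fst NPC.Poly.id))
    have h2 : Poly (fun x : (List Cl × ℕ) × ℕ => x.1.2) := by fun_prop
    have h3 : Poly (fun x : (List Cl × ℕ) × ℕ => x.2) := by fun_prop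
    generalize hg : (fun x : (List Cl × ℕ) × ℕ => bN x.1.1) = g at h1
    have hg' : ∀ x : (List Cl × ℕ) × ℕ, bN x.1.1 = g x := fun x => congrFun hg x
    simp only [hg']
    fun_prop

theorem r_P_poly : Poly Plist := by
  unfold Plist
  refine NPC.Poly.append r_box_poly ?_
  have h1 : Poly (fun x : List Cl × (ℕ × ℕ) => bN x.1) := r_bN_poly (NPC.Poly.fst NPC.Poly.id)
  have h2 : Poly (fun φ : List Cl =>
      (r_WL cells φ).map fun w => (((bN φ * w.1 + 1 : ℕ) : ℤ), ((bN φ * w.2 : ℕ) : ℤ))) := by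
    refine NPC.Poly.map (F := fun φ w => (((bN φ * w.1 + 1 : ℕ) : ℤ), ((bN φ * w.2 : ℕ) : ℤ)))
      (r_WL_poly cells) ?_
    generalize hg : (fun x : List Cl × (ℕ × ℕ) => bN x.1) = g at h1
    have hg' : ∀ x : List Cl × (ℕ × ℕ), bN x.1 = g x := fun x => congrFun hg x
    simp only [hg']
    fun_prop
  exact h2.congr fun φ => (r_WL_eq φ).symm

theorem rP : TaskR := by
  have h2 : Poly (fun φ : List Cl => (Plist φ).map Q.qt) := by
    refine NPC.Poly.map (F := fun _ p => Q.qt p) r_P_poly ?_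
    have e : Poly (fun x : List Cl × Pt => x.2) := NPC.Poly.snd NPC.Poly.id
    exact NPC.Poly.pair (r_zq (NPC.Poly.fst e)) (r_zq (NPC.Poly.snd e))
  exact NPC.Poly.pair h2 (r_nq (r_bN_poly NPC.Poly.id))

end Pool.Agent.H691.MM
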