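import Pool.Agent.H691.MM.Fin
import Pool.Agent.H691.MM.CkF
import Pool.Agent.H691.MM.CkD
import Pool.Agent.H665.MMC1
import Pool.Agent.H691.MM.C2
import Pool.Agent.H691.MM.C3
import Pool.Agent.H691.MM.C4
import Pool.Agent.H691.MM.R
import Pool.Agent.H691.MM.M
import Pool.Agent.H691.MM.B2
import Pool.Agent.H996.MMv
import Pool.Agent.H233.MMF1
import Pool.Agent.H695.MM.I
import Pool.Agent.H784.MMb1

/-!
# Max-min area triangulations: the computation is NP-hard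
-/

set_option autoImplicit false

namespace Pool.Agent.H691.MM

open Pool.Agent.W982.TA Pool.Agent.H691.Geo Pool.Agent.NPC

theorem c4all : TaskC4 := Pool.Agent.H747.MM.c4 Pool.Agent.H694.MM.c2
  (Pool.Agent.H694.MM.c3 Pool.Agent.H665.MM.taskC1)

/-- the hardness theorem -/
theorem all : ∀ L : Set (List Bool), InNP L → ∃ f : List Bool → List (ℚ × ℚ) × ℚ,
    PolyTime (fun w => bits (f w)) ∧ ∀ w,
      (f w).1.Nodup ∧ ¬ Collinear ℝ {x | ∃ p ∈ (f w).1, x = Pool.Agent.W982.TA.Q.pt p} ∧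
      (∀ p ∈ (f w).1, ∃ a b : ℕ, a < 100 * (f w).1.length ∧ b < 100 * (f w).1.length ∧
        p = ((a : ℚ), (b : ℚ))) ∧
      (∃ A : ℕ, 0 < A ∧ A < 100 * (f w).1.length ∧ (f w).2 = (A : ℚ)) ∧
      ∀ B : ℚ, (f w).2 / 2 < B → B ≤ (f w).2 → (w ∈ L ↔ Q.MaxMinArea (f w).1.toFinset B) :=
  hard i2 i3 (b2 f1 i1 m1 m2 m3 b1) (v3 (v2 c4all)) famsOK claimsOK rP

end Pool.Agent.H691.MM
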