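import Pool.Agent.H691.Geo.Base

/-!
# Max-min area triangulations: sectors and certificates

A primitive vector `a` with `2 ≤ a.2` has one of 38 types; types are leaves of two trees of
sectors (nodes 0 .. 59 of the table, node 0: positive slope, node 30: negative slope).  A
certificate eliminates types by crossings that hold for all vectors of two sectors.
-/

set_option autoImplicit false

namespace Pool.Agent.H691.MM

open Pool.Agent.W982.TA Pool.Agent.H691.Geo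

/-- a sector: the vectors `m + s u + t v` with integers `s, t ≥ 0` -/
structure Sector where
  m : Pt
  u : Pt
  v : Pt

/-- membership in a sector -/
def Sector.Mem (S : Sector) (a : Pt) : Prop :=
  ∃ s t : ℤ, 0 ≤ s ∧ 0 ≤ t ∧ a = (S.m.1 + s * S.u.1 + t * S.v.1, S.m.2 + s * S.u.2 + t * S.v.2)

/-- cross product -/
def cr (a b : Pt) : ℤ := a.1 * b.2 - a.2 * b.1

/-- all segments from `0` with a vector in `A` cross properly all segments from `d` with a vector
in `B`, with orientation `g` -/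
def xg (g : ℤ) (d : Pt) (A B : Sector) : Bool :=
  decide (0 < g * cr A.m d) && decide (0 < g * cr B.m d) &&
  decide (g * cr A.m (B.m.1 + d.1, B.m.2 + d.2) < 0) &&
  decide (g * cr (A.m.1 - d.1, A.m.2 - d.2) B.m < 0) &&
  decide (0 ≤ g * cr A.u d) && decide (0 ≤ g * cr A.v d) &&
  decide (0 ≤ g * cr B.u d) && decide (0 ≤ g * cr B.v d) &&
  decide (g * cr A.u (B.m.1 + d.1, B.m.2 + d.2) ≤ 0) &&
  decide (g * cr A.v (B.m.1 + d.1, B.m.2 + d.2) ≤ 0) &&
  decide (g * cr A.m B.u ≤ 0) && decide (g * cr A.m B.v ≤ 0) &&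
  decide (g * cr (A.m.1 - d.1, A.m.2 - d.2) B.u ≤ 0) &&
  decide (g * cr (A.m.1 - d.1, A.m.2 - d.2) B.v ≤ 0) &&
  decide (g * cr A.u B.m ≤ 0) && decide (g * cr A.v B.m ≤ 0) &&
  decide (g * cr A.u B.u ≤ 0) && decide (g * cr A.u B.v ≤ 0) &&
  decide (g * cr A.v B.u ≤ 0) && decide (g * cr A.v B.v ≤ 0)

/-- all segments from `0` with a vector in `A` cross properly all segments from `d` with a vector
in `B` -/
def xs (d : Pt) (A B : Sector) : Bool := xg 1 d A B || xg (-1) d A B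

/-- C1: soundness of the crossing test -/
def TaskC1 : Prop := ∀ (p q : Pt) (A B : Sector) (a b : Pt), xs (q.1 - p.1, q.2 - p.2) A B = true →
  A.Mem a → B.Mem b → PCross p (p + a) q (q + b)

/-- the table of the nodes: mask of the types, sector -/
def nodes : List (ℕ × Sector) :=
  [(524287, ⟨(1, 2), (0, 1), (1, 0)⟩), (2047, ⟨(1, 2), (0, 1), (1, 1)⟩),
   (31, ⟨(1, 3), (0, 1), (1, 2)⟩), (7, ⟨(1, 4), (0, 1), (1, 3)⟩), (1, ⟨(1, 5), (0, 1), (1, 4)⟩),
   (2, ⟨(1, 4), (0, 0), (0, 0)⟩), (4, ⟨(2, 7), (1, 4), (1, 3)⟩), (8, ⟨(1, 3), (0, 0), (0, 0)⟩),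
   (16, ⟨(2, 5), (1, 3), (1, 2)⟩), (32, ⟨(1, 2), (0, 0), (0, 0)⟩), (1984, ⟨(2, 3), (1, 2), (1, 1)⟩),
   (64, ⟨(3, 5), (1, 2), (2, 3)⟩), (128, ⟨(2, 3), (0, 0), (0, 0)⟩), (1792, ⟨(3, 4), (2, 3), (1, 1)⟩),
   (256, ⟨(5, 7), (2, 3), (3, 4)⟩), (512, ⟨(3, 4), (0, 0), (0, 0)⟩),
   (1024, ⟨(4, 5), (3, 4), (1, 1)⟩), (522240, ⟨(3, 2), (1, 1), (1, 0)⟩),
   (63488, ⟨(3, 2), (1, 1), (2, 1)⟩), (14336, ⟨(4, 3), (1, 1), (3, 2)⟩),
   (2048, ⟨(5, 4), (1, 1), (4, 3)⟩), (4096, ⟨(4, 3), (0, 0), (0, 0)⟩),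
   (8192, ⟨(7, 5), (4, 3), (3, 2)⟩), (16384, ⟨(3, 2), (0, 0), (0, 0)⟩),
   (32768, ⟨(5, 3), (3, 2), (2, 1)⟩), (458752, ⟨(5, 2), (2, 1), (1, 0)⟩),
   (65536, ⟨(5, 2), (2, 1), (3, 1)⟩), (393216, ⟨(7, 2), (3, 1), (1, 0)⟩),
   (131072, ⟨(7, 2), (3, 1), (4, 1)⟩), (262144, ⟨(9, 2), (4, 1), (1, 0)⟩),
   (274877382656, ⟨(-1, 2), (0, 1), (-1, 0)⟩), (1073217536, ⟨(-1, 2), (0, 1), (-1, 1)⟩),
   (16252928, ⟨(-1, 3), (0, 1), (-1, 2)⟩), (3670016, ⟨(-1, 4), (0, 1), (-1, 3)⟩),
   (524288, ⟨(-1, 5), (0, 1), (-1, 4)⟩), (1048576, ⟨(-1, 4), (0, 0), (0, 0)⟩),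
   (2097152, ⟨(-2, 7), (-1, 4), (-1, 3)⟩), (4194304, ⟨(-1, 3), (0, 0), (0, 0)⟩),
   (8388608, ⟨(-2, 5), (-1, 3), (-1, 2)⟩), (16777216, ⟨(-1, 2), (0, 0), (0, 0)⟩),
   (1040187392, ⟨(-2, 3), (-1, 2), (-1, 1)⟩), (33554432, ⟨(-3, 5), (-1, 2), (-2, 3)⟩),
   (67108864, ⟨(-2, 3), (0, 0), (0, 0)⟩), (939524096, ⟨(-3, 4), (-2, 3), (-1, 1)⟩),
   (134217728, ⟨(-5, 7), (-2, 3), (-3, 4)⟩), (268435456, ⟨(-3, 4), (0, 0), (0, 0)⟩),
   (536870912, ⟨(-4, 5), (-3, 4), (-1, 1)⟩), (273804165120, ⟨(-3, 2), (-1, 1), (-1, 0)⟩),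
   (33285996544, ⟨(-3, 2), (-1, 1), (-2, 1)⟩), (7516192768, ⟨(-4, 3), (-1, 1), (-3, 2)⟩),
   (1073741824, ⟨(-5, 4), (-1, 1), (-4, 3)⟩), (2147483648, ⟨(-4, 3), (0, 0), (0, 0)⟩),
   (4294967296, ⟨(-7, 5), (-4, 3), (-3, 2)⟩), (8589934592, ⟨(-3, 2), (0, 0), (0, 0)⟩),
   (17179869184, ⟨(-5, 3), (-3, 2), (-2, 1)⟩), (240518168576, ⟨(-5, 2), (-2, 1), (-1, 0)⟩),
   (34359738368, ⟨(-5, 2), (-2, 1), (-3, 1)⟩), (206158430208, ⟨(-7, 2), (-3, 1), (-1, 0)⟩),
   (68719476736, ⟨(-7, 2), (-3, 1), (-4, 1)⟩), (137438953472, ⟨(-9, 2), (-4, 1), (-1, 0)⟩)]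

/-- the mask of a node -/
def nmask (k : ℕ) : ℕ := (nodes.getD k (0, ⟨(0, 0), (0, 0), (0, 0)⟩)).1

/-- the opposite vector -/
def ng (a : Pt) : Pt := (-a.1, -a.2)

/-- the sector of a node, for vectors going up (`up = true`) or down -/
def nsec (k : ℕ) (up : Bool) : Sector :=
  let S := (nodes.getD k (0, ⟨(0, 0), (0, 0), (0, 0)⟩)).2
  if up then S else ⟨ng S.m, ng S.u, ng S.v⟩

/-- the vector `a` (going up or down) has type `l` -/
def HasType (up : Bool) (a : Pt) (l : ℕ) : Prop :=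
  l < 38 ∧ ∀ k < 60, (nmask k).testBit l = true → (nsec k up).Mem a

/-- C2: every vector has a type; the type gives the sign of the slope -/
def TaskC2 : Prop :=
  (∀ a : Pt, Int.gcd a.1 a.2 = 1 → 2 ≤ a.2 →
    ∃ l, HasType true a l ∧ (0 < a.1 → (nmask 0).testBit l = true) ∧
      (a.1 < 0 → (nmask 30).testBit l = true)) ∧
  (∀ a : Pt, Int.gcd a.1 a.2 = 1 → a.2 ≤ -2 →
    ∃ l, HasType false a l ∧ (a.1 < 0 → (nmask 0).testBit l = true) ∧
      (0 < a.1 → (nmask 30).testBit l = true))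

/-- a step: the types of the variable `i` in the node `k` are impossible, since all vectors of the
node cross all vectors of the nodes `bs`, and these nodes contain all remaining types of the
variable `j` -/
structure Step where
  i : ℕ
  j : ℕ
  k : ℕ
  bs : List ℕ

/-- certificates -/
inductive Cert : Type
  | stop (i : ℕ) : Cert
  | run (ss : List Step) (c : Cert) : Cert
  | br (i m : ℕ) (c₁ c₂ : Cert) : Cert

/-- union of the masks -/
def orM (bs : List ℕ) : ℕ := bs.foldl (fun m b => Nat.lor m (nmask b)) 0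

/-- position of a variable -/
def vpos (V : List (Pt × Bool)) (i : ℕ) : Pt := (V.getD i ((0, 0), true)).1
/-- direction of a variable -/
def vdir (V : List (Pt × Bool)) (i : ℕ) : Bool := (V.getD i ((0, 0), true)).2

/-- the check of a step -/
def stepOK (V : List (Pt × Bool)) (D : List ℕ) (s : Step) : Bool :=
  decide (s.i < D.length) && decide (s.j < D.length) && decide (s.k < 60) &&
    s.bs.all (fun b => decide (b < 60)) &&
    Nat.beq (Nat.ldiff (D.getD s.j 0) (orM s.bs)) 0 &&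
    s.bs.all (fun b => xs ((vpos V s.j).1 - (vpos V s.i).1, (vpos V s.j).2 - (vpos V s.i).2)
      (nsec s.k (vdir V s.i)) (nsec b (vdir V s.j)))

/-- the list of masks after a step -/
def stepD (D : List ℕ) (s : Step) : List ℕ := D.set s.i (Nat.ldiff (D.getD s.i 0) (nmask s.k))

/-- the check of a list of steps, followed by `κ` -/
def runS (V : List (Pt × Bool)) : List Step → List ℕ → (List ℕ → Bool) → Bool
  | [], D, κ => κ D
  | s :: ss, D, κ => stepOK V D s && runS V ss (stepD D s) κ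

/-- the check of a certificate; `D` is the list of the masks of the remaining types -/
def check (V : List (Pt × Bool)) : Cert → List ℕ → Bool
  | .stop i, D => decide (i < D.length) && Nat.beq (D.getD i 1) 0
  | .run ss c, D => runS V ss D (fun D' => check V c D')
  | .br i m c₁ c₂, D => decide (i < D.length) &&
      check V c₁ (D.set i (Nat.land (D.getD i 0) m)) &&
      check V c₂ (D.set i (Nat.ldiff (D.getD i 0) m))

/-- C3: soundness of certificates -/
def TaskC3 : Prop := ∀ (V : List (Pt × Bool)) (c : Cert) (D : List ℕ) (x : ℕ → Pt) (t : ℕ → ℕ),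
  D.length = V.length → (∀ i < V.length, HasType (vdir V i) (x i) (t i)) →
  (∀ i < V.length, (D.getD i 0).testBit (t i) = true) →
  (∀ i < V.length, ∀ j < V.length,
    ¬ PCross (vpos V i) (vpos V i + x i) (vpos V j) (vpos V j + x j)) →
  check V c D = true → False

/-- a claim: the assumptions on the slopes of the vectors going up at the cells of `asm` cannot
hold; `bd`: the cells with `x = 0` are on the left side of the box -/
structure Claim where
  bd : Bool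
  asm : List (Pt × Bool)
  vars : List (Pt × Bool)
  cert : Cert

/-- the initial mask of a variable -/
def initM (bd : Bool) (asm : List (Pt × Bool)) (e : Pt × Bool) : ℕ :=
  if e.2 && asm.contains (e.1, true) then 524287
  else if e.2 && asm.contains (e.1, false) then 274877382656
  else if bd && decide (e.1.1 = 0) then (if e.2 then 524287 else 274877382656)
  else 274877906943

/-- the check of a claim -/
def claimOK (c : Claim) : Bool := check c.vars c.cert (c.vars.map (initM c.bd c.asm))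

/-- the slope of the vector going up is positive -/
def sgU (f : Pt → Bool → Pt) (w : Pt) : Bool := decide (0 < (f w true).1)

/-- C4: soundness of claims -/
def TaskC4 : Prop := ∀ (X Y : ℤ) (W : Finset Pt) (f : Pt → Bool → Pt), Sel X Y W f →
  ∀ c : Claim, claimOK c = true → ∀ o : Pt, (c.bd = true → o.1 = 0) →
  (∀ e ∈ c.vars, o + e.1 ∈ W) → (∀ a ∈ c.asm, sgU f (o + a.1) = a.2) → False

end Pool.Agent.H691.MM
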