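import Pool.Agent.H691.MM.Cert

/-!
# Max-min area triangulations: the data of the tiles (generated)
-/

set_option autoImplicit false

namespace Pool.Agent.H691.MM

open Pool.Agent.W982.TA Pool.Agent.H691.Geo

/-- an entry of a family: the vectors `(ux - 8, uy)` and `(dx - 8, -dy)` of the cell `(x, y)` -/
structure Ent where
  x : ℕ
  y : ℕ
  ux : ℕ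
  uy : ℕ
  dx : ℕ
  dy : ℕ

/-- cells of the tile of type 0 -/
def cells0 : List (ℕ × ℕ) :=
  [(10, 0), (10, 1), (10, 2), (10, 3), (5, 4), (10, 4), (15, 4), (5, 5), (10, 5), (15, 5), (5, 6),
   (9, 6), (10, 6), (13, 6), (15, 6), (5, 7), (8, 7), (10, 7), (12, 7), (15, 7), (5, 8), (10, 8),
   (11, 8), (13, 8), (15, 8), (5, 9), (13, 9), (15, 9), (5, 10), (15, 10), (5, 11), (10, 11),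
   (11, 11), (13, 11), (15, 11), (5, 12), (7, 12), (8, 12), (10, 12), (11, 12), (14, 12), (15, 12),
   (5, 13), (6, 13), (10, 13), (15, 13), (5, 14), (10, 14), (15, 14), (5, 15), (10, 15), (15, 15),
   (5, 16), (7, 16), (10, 16), (15, 16), (5, 17), (8, 17), (10, 17), (15, 17), (5, 18), (7, 18),
   (9, 18), (10, 18), (15, 18), (5, 19), (7, 19), (15, 19), (0, 20), (1, 20), (2, 20), (3, 20),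
   (4, 20), (5, 20), (14, 20), (15, 20), (16, 20), (17, 20), (18, 20), (19, 20), (20, 20), (0, 21),
   (1, 21), (2, 21), (3, 21), (4, 21), (5, 21), (7, 21), (9, 21), (10, 21), (11, 21), (15, 21),
   (16, 21), (17, 21), (18, 21), (19, 21), (20, 21), (5, 22), (6, 22), (10, 22), (15, 22), (5, 23),
   (10, 23), (15, 23), (5, 24), (10, 24), (15, 24), (5, 25), (10, 25), (15, 25), (5, 26), (10, 26),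
   (15, 26), (5, 27), (10, 27), (15, 27), (5, 28), (10, 28), (15, 28), (5, 29), (10, 29), (15, 29),
   (5, 30), (10, 30), (15, 30), (5, 31), (10, 31), (15, 31), (5, 32), (10, 32), (15, 32), (5, 33),
   (10, 33), (15, 33), (5, 34), (10, 34), (15, 34), (10, 35), (10, 36), (10, 37), (10, 38)]

/-- cells of the tile of type 1 -/
def cells1 : List (ℕ × ℕ) :=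
  [(10, 0), (10, 1), (10, 2), (10, 3), (5, 4), (10, 4), (15, 4), (5, 5), (10, 5), (15, 5), (5, 6),
   (9, 6), (10, 6), (13, 6), (15, 6), (5, 7), (8, 7), (10, 7), (12, 7), (15, 7), (5, 8), (10, 8),
   (11, 8), (13, 8), (15, 8), (5, 9), (13, 9), (15, 9), (5, 10), (15, 10), (5, 11), (10, 11),
   (11, 11), (13, 11), (15, 11), (5, 12), (7, 12), (8, 12), (10, 12), (11, 12), (14, 12), (15, 12),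
   (5, 13), (6, 13), (10, 13), (15, 13), (5, 14), (10, 14), (15, 14), (5, 15), (10, 15), (15, 15),
   (5, 16), (7, 16), (10, 16), (15, 16), (5, 17), (8, 17), (10, 17), (15, 17), (5, 18), (7, 18),
   (9, 18), (10, 18), (15, 18), (5, 19), (7, 19), (15, 19), (0, 20), (1, 20), (2, 20), (3, 20),
   (4, 20), (5, 20), (14, 20), (15, 20), (16, 20), (17, 20), (18, 20), (19, 20), (20, 20), (0, 21),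
   (1, 21), (2, 21), (3, 21), (4, 21), (5, 21), (7, 21), (9, 21), (10, 21), (11, 21), (15, 21),
   (16, 21), (17, 21), (18, 21), (19, 21), (20, 21), (5, 22), (6, 22), (10, 22), (15, 22), (5, 23),
   (10, 23), (15, 23), (5, 24), (10, 24), (15, 24), (5, 25), (10, 25), (11, 25), (15, 25), (5, 26),
   (9, 26), (10, 26), (15, 26), (5, 27), (15, 27), (5, 28), (15, 28), (5, 29), (6, 29), (9, 29),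
   (10, 29), (15, 29), (5, 30), (7, 30), (10, 30), (15, 30), (5, 31), (10, 31), (15, 31), (5, 32),
   (10, 32), (15, 32), (5, 33), (10, 33), (15, 33), (5, 34), (10, 34), (15, 34), (10, 35),
   (10, 36), (10, 37), (10, 38)]

/-- cells of the tile of type 2 -/
def cells2 : List (ℕ × ℕ) :=
  [(9, 16), (9, 17), (9, 18), (9, 19), (9, 20), (10, 20), (11, 20), (12, 20), (13, 20), (14, 20),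
   (15, 20), (16, 20), (17, 20), (18, 20), (19, 20), (20, 20), (9, 21), (10, 21), (11, 21),
   (12, 21), (13, 21), (14, 21), (15, 21), (16, 21), (17, 21), (18, 21), (19, 21), (20, 21),
   (9, 22), (9, 23), (9, 24), (9, 25), (9, 26), (9, 27), (9, 28), (9, 29), (9, 30), (9, 31),
   (9, 32), (9, 33), (9, 34), (9, 35), (9, 36), (9, 37), (9, 38)]

/-- cells of the tile of type 3 -/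
def cells3 : List (ℕ × ℕ) :=
  [(9, 0), (9, 1), (9, 2), (9, 3), (4, 4), (9, 4), (4, 5), (9, 5), (4, 6), (9, 6), (4, 7), (9, 7),
   (4, 8), (9, 8), (4, 9), (6, 9), (7, 9), (8, 9), (4, 10), (6, 10), (4, 11), (6, 11), (4, 12),
   (9, 12), (4, 13), (6, 13), (9, 13), (4, 14), (5, 14), (9, 14), (0, 15), (4, 15), (9, 15),
   (4, 16), (9, 16), (4, 17), (9, 17), (0, 18), (3, 18), (9, 18), (9, 19), (9, 20), (10, 20),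
   (11, 20), (12, 20), (13, 20), (14, 20), (15, 20), (16, 20), (17, 20), (18, 20), (19, 20),
   (20, 20), (9, 21), (10, 21), (11, 21), (12, 21), (13, 21), (14, 21), (15, 21), (16, 21),
   (17, 21), (18, 21), (19, 21), (20, 21), (9, 22), (9, 23), (9, 24), (9, 25)]

/-- cells of the tile of type 4 -/
def cells4 : List (ℕ × ℕ) :=
  [(0, 20), (1, 20), (2, 20), (3, 20), (4, 20), (5, 20), (6, 20), (7, 20), (8, 20), (9, 20),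
   (10, 20), (11, 20), (12, 20), (13, 20), (14, 20), (15, 20), (16, 20), (17, 20), (18, 20),
   (19, 20), (20, 20), (0, 21), (1, 21), (2, 21), (3, 21), (4, 21), (5, 21), (6, 21), (7, 21),
   (8, 21), (9, 21), (10, 21), (11, 21), (12, 21), (13, 21), (14, 21), (15, 21), (16, 21),
   (17, 21), (18, 21), (19, 21), (20, 21), (10, 22), (10, 23), (10, 24), (10, 25), (10, 26),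
   (10, 27), (10, 28), (10, 29), (10, 30), (10, 31), (10, 32), (10, 33), (10, 34), (10, 35),
   (10, 36), (10, 37), (10, 38)]

/-- cells of the tile of type 5 -/
def cells5 : List (ℕ × ℕ) :=
  [(4, 17), (4, 18), (4, 19), (4, 20), (5, 20), (6, 20), (7, 20), (8, 20), (9, 20), (10, 20),
   (11, 20), (12, 20), (13, 20), (14, 20), (15, 20), (16, 20), (17, 20), (18, 20), (19, 20),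
   (20, 20), (4, 21), (5, 21), (6, 21), (7, 21), (8, 21), (9, 21), (10, 21), (11, 21), (12, 21),
   (13, 21), (14, 21), (15, 21), (16, 21), (17, 21), (18, 21), (19, 21), (20, 21), (4, 22),
   (4, 23), (0, 24), (4, 24), (4, 25), (4, 26), (0, 27), (3, 27)]

/-- cells of the tile of type 6 -/
def cells6 : List (ℕ × ℕ) :=
  [(10, 0), (10, 1), (10, 2), (10, 3), (10, 4), (10, 5), (10, 6), (10, 7), (10, 8), (10, 9),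
   (10, 10), (10, 11), (10, 12), (10, 13), (10, 14), (10, 15), (10, 16), (10, 17), (10, 18),
   (10, 19), (0, 20), (1, 20), (2, 20), (3, 20), (4, 20), (5, 20), (6, 20), (7, 20), (8, 20),
   (9, 20), (10, 20), (11, 20), (12, 20), (13, 20), (14, 20), (15, 20), (16, 20), (17, 20),
   (18, 20), (19, 20), (20, 20), (0, 21), (1, 21), (2, 21), (3, 21), (4, 21), (5, 21), (6, 21),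
   (7, 21), (8, 21), (9, 21), (10, 21), (11, 21), (12, 21), (13, 21), (14, 21), (15, 21), (16, 21),
   (17, 21), (18, 21), (19, 21), (20, 21)]

/-- cells of the tile of type 7 -/
def cells7 : List (ℕ × ℕ) :=
  [(4, 12), (4, 13), (0, 14), (3, 14), (4, 14), (4, 15), (4, 16), (0, 17), (4, 17), (4, 18),
   (4, 19), (4, 20), (5, 20), (6, 20), (7, 20), (8, 20), (9, 20), (10, 20), (11, 20), (12, 20),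
   (13, 20), (14, 20), (15, 20), (16, 20), (17, 20), (18, 20), (19, 20), (20, 20), (4, 21),
   (5, 21), (6, 21), (7, 21), (8, 21), (9, 21), (10, 21), (11, 21), (12, 21), (13, 21), (14, 21),
   (15, 21), (16, 21), (17, 21), (18, 21), (19, 21), (20, 21), (4, 22), (4, 23)]

/-- cells of the tiles -/
def cells (t : ℕ) : List (ℕ × ℕ) :=
  if t = 0 then cells0 else if t = 1 then cells1 else if t = 2 then cells2 else if t = 3 then cells3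
  else if t = 4 then cells4 else if t = 5 then cells5 else if t = 6 then cells6 else cells7

/-- family of the tile of type 0 in state 0 -/
def fam00 : List Ent :=
  [⟨10, 0, 7, 2, 9, 2⟩, ⟨10, 1, 7, 2, 9, 2⟩, ⟨10, 2, 7, 2, 9, 2⟩, ⟨10, 3, 7, 2, 9, 2⟩,
   ⟨5, 4, 7, 2, 7, 2⟩, ⟨10, 4, 7, 3, 9, 2⟩, ⟨15, 4, 7, 2, 7, 2⟩, ⟨5, 5, 7, 2, 9, 2⟩,
   ⟨10, 5, 7, 2, 9, 2⟩, ⟨15, 5, 7, 2, 9, 2⟩, ⟨5, 6, 7, 2, 9, 2⟩, ⟨9, 6, 7, 2, 7, 2⟩,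
   ⟨10, 6, 7, 2, 9, 2⟩, ⟨13, 6, 7, 2, 9, 2⟩, ⟨15, 6, 7, 2, 9, 2⟩, ⟨5, 7, 7, 2, 9, 2⟩,
   ⟨8, 7, 7, 2, 7, 2⟩, ⟨10, 7, 7, 2, 9, 2⟩, ⟨12, 7, 7, 2, 9, 2⟩, ⟨15, 7, 7, 2, 9, 2⟩,
   ⟨5, 8, 7, 2, 9, 2⟩, ⟨10, 8, 7, 2, 9, 2⟩, ⟨11, 8, 7, 2, 9, 2⟩, ⟨13, 8, 7, 2, 9, 2⟩,
   ⟨15, 8, 7, 2, 9, 2⟩, ⟨5, 9, 7, 2, 9, 2⟩, ⟨13, 9, 7, 2, 9, 2⟩, ⟨15, 9, 7, 2, 9, 2⟩,
   ⟨5, 10, 7, 2, 9, 2⟩, ⟨15, 10, 6, 3, 9, 2⟩, ⟨5, 11, 7, 2, 9, 2⟩, ⟨10, 11, 7, 2, 9, 2⟩,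
   ⟨11, 11, 6, 3, 9, 2⟩, ⟨13, 11, 7, 2, 9, 2⟩, ⟨15, 11, 7, 2, 9, 2⟩, ⟨5, 12, 7, 2, 9, 2⟩,
   ⟨7, 12, 9, 2, 9, 2⟩, ⟨8, 12, 9, 2, 9, 2⟩, ⟨10, 12, 7, 2, 9, 2⟩, ⟨11, 12, 6, 3, 9, 2⟩,
   ⟨14, 12, 7, 2, 10, 3⟩, ⟨15, 12, 7, 2, 9, 2⟩, ⟨5, 13, 7, 2, 9, 2⟩, ⟨6, 13, 9, 2, 9, 2⟩,
   ⟨10, 13, 7, 2, 10, 3⟩, ⟨15, 13, 7, 2, 9, 2⟩, ⟨5, 14, 7, 2, 9, 2⟩, ⟨10, 14, 7, 2, 10, 3⟩,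
   ⟨15, 14, 7, 2, 9, 2⟩, ⟨5, 15, 7, 2, 9, 3⟩, ⟨10, 15, 7, 2, 9, 2⟩, ⟨15, 15, 7, 2, 9, 2⟩,
   ⟨5, 16, 7, 2, 9, 2⟩, ⟨7, 16, 7, 2, 7, 2⟩, ⟨10, 16, 6, 3, 9, 2⟩, ⟨15, 16, 7, 2, 9, 2⟩,
   ⟨5, 17, 7, 2, 9, 2⟩, ⟨8, 17, 7, 3, 9, 2⟩, ⟨10, 17, 7, 2, 9, 2⟩, ⟨15, 17, 7, 2, 9, 2⟩,
   ⟨5, 18, 5, 4, 9, 2⟩, ⟨7, 18, 7, 2, 9, 2⟩, ⟨9, 18, 7, 2, 10, 3⟩, ⟨10, 18, 7, 2, 9, 2⟩,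
   ⟨15, 18, 7, 3, 9, 2⟩, ⟨5, 19, 6, 3, 9, 2⟩, ⟨7, 19, 7, 2, 9, 3⟩, ⟨15, 19, 7, 2, 9, 2⟩,
   ⟨0, 20, 7, 2, 9, 2⟩, ⟨1, 20, 7, 2, 9, 2⟩, ⟨2, 20, 7, 2, 9, 2⟩, ⟨3, 20, 7, 2, 9, 2⟩,
   ⟨4, 20, 7, 2, 10, 3⟩, ⟨5, 20, 7, 2, 9, 2⟩, ⟨14, 20, 7, 2, 7, 2⟩, ⟨15, 20, 7, 2, 9, 2⟩,
   ⟨16, 20, 6, 3, 9, 2⟩, ⟨17, 20, 5, 4, 9, 2⟩, ⟨18, 20, 7, 2, 9, 2⟩, ⟨19, 20, 7, 2, 9, 2⟩,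
   ⟨20, 20, 7, 2, 9, 2⟩, ⟨0, 21, 7, 2, 9, 2⟩, ⟨1, 21, 7, 2, 9, 2⟩, ⟨2, 21, 7, 2, 9, 2⟩,
   ⟨3, 21, 7, 2, 11, 4⟩, ⟨4, 21, 7, 2, 10, 3⟩, ⟨5, 21, 7, 2, 9, 2⟩, ⟨7, 21, 9, 2, 9, 2⟩,
   ⟨9, 21, 7, 2, 9, 2⟩, ⟨10, 21, 7, 2, 9, 2⟩, ⟨11, 21, 9, 2, 9, 2⟩, ⟨15, 21, 7, 2, 9, 2⟩,
   ⟨16, 21, 6, 3, 9, 2⟩, ⟨17, 21, 7, 2, 9, 2⟩, ⟨18, 21, 7, 2, 9, 2⟩, ⟨19, 21, 7, 2, 9, 2⟩,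
   ⟨20, 21, 7, 2, 9, 2⟩, ⟨5, 22, 7, 2, 9, 2⟩, ⟨6, 22, 9, 2, 9, 2⟩, ⟨10, 22, 7, 2, 9, 2⟩,
   ⟨15, 22, 7, 2, 10, 3⟩, ⟨5, 23, 7, 2, 9, 2⟩, ⟨10, 23, 7, 2, 9, 3⟩, ⟨15, 23, 7, 2, 11, 4⟩,
   ⟨5, 24, 7, 2, 9, 3⟩, ⟨10, 24, 7, 2, 9, 2⟩, ⟨15, 24, 7, 2, 9, 2⟩, ⟨5, 25, 7, 2, 9, 2⟩,
   ⟨10, 25, 7, 2, 9, 2⟩, ⟨15, 25, 7, 2, 9, 2⟩, ⟨5, 26, 7, 2, 9, 2⟩, ⟨10, 26, 7, 2, 9, 2⟩,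
   ⟨15, 26, 7, 2, 9, 2⟩, ⟨5, 27, 7, 2, 9, 2⟩, ⟨10, 27, 7, 2, 9, 2⟩, ⟨15, 27, 7, 2, 9, 2⟩,
   ⟨5, 28, 7, 2, 9, 2⟩, ⟨10, 28, 7, 2, 9, 2⟩, ⟨15, 28, 7, 2, 9, 2⟩, ⟨5, 29, 7, 2, 9, 2⟩,
   ⟨10, 29, 7, 2, 9, 2⟩, ⟨15, 29, 7, 2, 9, 2⟩, ⟨5, 30, 7, 2, 9, 2⟩, ⟨10, 30, 7, 2, 9, 2⟩,
   ⟨15, 30, 7, 2, 9, 2⟩, ⟨5, 31, 7, 2, 9, 2⟩, ⟨10, 31, 7, 2, 9, 2⟩, ⟨15, 31, 7, 2, 9, 2⟩,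
   ⟨5, 32, 7, 2, 9, 2⟩, ⟨10, 32, 7, 2, 9, 2⟩, ⟨15, 32, 7, 2, 9, 2⟩, ⟨5, 33, 7, 2, 9, 2⟩,
   ⟨10, 33, 7, 2, 9, 2⟩, ⟨15, 33, 7, 2, 9, 2⟩, ⟨5, 34, 9, 2, 9, 2⟩, ⟨10, 34, 7, 2, 9, 2⟩,
   ⟨15, 34, 9, 2, 9, 2⟩, ⟨10, 35, 7, 2, 9, 2⟩, ⟨10, 36, 7, 2, 9, 2⟩, ⟨10, 37, 7, 2, 9, 2⟩,
   ⟨10, 38, 7, 2, 9, 2⟩]

/-- family of the tile of type 0 in state 1 -/
def fam01 : List Ent :=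
  [⟨10, 0, 7, 2, 9, 2⟩, ⟨10, 1, 7, 2, 9, 2⟩, ⟨10, 2, 7, 2, 9, 2⟩, ⟨10, 3, 7, 2, 9, 2⟩,
   ⟨5, 4, 9, 2, 7, 2⟩, ⟨10, 4, 7, 3, 9, 2⟩, ⟨15, 4, 9, 2, 9, 2⟩, ⟨5, 5, 9, 2, 7, 2⟩,
   ⟨10, 5, 7, 2, 9, 2⟩, ⟨15, 5, 9, 2, 7, 2⟩, ⟨5, 6, 9, 2, 7, 2⟩, ⟨9, 6, 7, 2, 7, 2⟩,
   ⟨10, 6, 7, 2, 9, 2⟩, ⟨13, 6, 7, 2, 9, 2⟩, ⟨15, 6, 9, 2, 7, 2⟩, ⟨5, 7, 9, 2, 7, 2⟩,
   ⟨8, 7, 7, 2, 7, 2⟩, ⟨10, 7, 7, 2, 9, 2⟩, ⟨12, 7, 7, 2, 9, 2⟩, ⟨15, 7, 9, 2, 7, 2⟩,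
   ⟨5, 8, 9, 2, 7, 2⟩, ⟨10, 8, 7, 2, 9, 2⟩, ⟨11, 8, 7, 2, 9, 2⟩, ⟨13, 8, 5, 2, 9, 2⟩,
   ⟨15, 8, 9, 2, 7, 2⟩, ⟨5, 9, 9, 2, 7, 2⟩, ⟨13, 9, 9, 2, 9, 2⟩, ⟨15, 9, 9, 2, 7, 2⟩,
   ⟨5, 10, 9, 2, 7, 2⟩, ⟨15, 10, 9, 2, 7, 2⟩, ⟨5, 11, 10, 3, 7, 2⟩, ⟨10, 11, 7, 2, 5, 2⟩,
   ⟨11, 11, 6, 3, 9, 2⟩, ⟨13, 11, 7, 2, 7, 2⟩, ⟨15, 11, 9, 2, 7, 2⟩, ⟨5, 12, 9, 2, 7, 2⟩,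
   ⟨7, 12, 9, 2, 7, 2⟩, ⟨8, 12, 9, 2, 7, 2⟩, ⟨10, 12, 7, 2, 9, 2⟩, ⟨11, 12, 6, 3, 9, 2⟩,
   ⟨14, 12, 7, 2, 7, 2⟩, ⟨15, 12, 9, 2, 7, 2⟩, ⟨5, 13, 9, 2, 7, 2⟩, ⟨6, 13, 9, 2, 6, 3⟩,
   ⟨10, 13, 7, 2, 10, 3⟩, ⟨15, 13, 9, 2, 7, 2⟩, ⟨5, 14, 9, 2, 7, 2⟩, ⟨10, 14, 7, 2, 10, 3⟩,
   ⟨15, 14, 9, 2, 7, 3⟩, ⟨5, 15, 9, 2, 7, 2⟩, ⟨10, 15, 7, 2, 9, 2⟩, ⟨15, 15, 9, 2, 7, 2⟩,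
   ⟨5, 16, 9, 2, 7, 2⟩, ⟨7, 16, 7, 2, 9, 2⟩, ⟨10, 16, 6, 3, 9, 2⟩, ⟨15, 16, 9, 2, 7, 2⟩,
   ⟨5, 17, 9, 2, 7, 2⟩, ⟨8, 17, 7, 3, 9, 2⟩, ⟨10, 17, 7, 2, 9, 2⟩, ⟨15, 17, 9, 2, 7, 2⟩,
   ⟨5, 18, 9, 2, 7, 2⟩, ⟨7, 18, 7, 2, 9, 2⟩, ⟨9, 18, 7, 2, 10, 3⟩, ⟨10, 18, 7, 2, 9, 2⟩,
   ⟨15, 18, 11, 4, 7, 2⟩, ⟨5, 19, 9, 2, 7, 2⟩, ⟨7, 19, 7, 2, 9, 3⟩, ⟨15, 19, 10, 3, 7, 2⟩,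
   ⟨0, 20, 9, 2, 7, 2⟩, ⟨1, 20, 9, 2, 7, 2⟩, ⟨2, 20, 9, 2, 7, 2⟩, ⟨3, 20, 11, 4, 7, 2⟩,
   ⟨4, 20, 10, 3, 7, 2⟩, ⟨5, 20, 9, 3, 7, 2⟩, ⟨14, 20, 7, 2, 7, 2⟩, ⟨15, 20, 9, 2, 7, 2⟩,
   ⟨16, 20, 9, 2, 6, 3⟩, ⟨17, 20, 9, 2, 7, 2⟩, ⟨18, 20, 9, 2, 7, 2⟩, ⟨19, 20, 9, 2, 7, 2⟩,
   ⟨20, 20, 9, 2, 7, 2⟩, ⟨0, 21, 9, 2, 7, 2⟩, ⟨1, 21, 9, 2, 7, 2⟩, ⟨2, 21, 9, 2, 7, 2⟩,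
   ⟨3, 21, 9, 2, 7, 2⟩, ⟨4, 21, 10, 3, 7, 2⟩, ⟨5, 21, 9, 2, 7, 2⟩, ⟨7, 21, 9, 2, 9, 2⟩,
   ⟨9, 21, 7, 2, 9, 2⟩, ⟨10, 21, 7, 2, 9, 2⟩, ⟨11, 21, 9, 2, 9, 2⟩, ⟨15, 21, 9, 2, 7, 2⟩,
   ⟨16, 21, 9, 2, 6, 3⟩, ⟨17, 21, 9, 2, 5, 4⟩, ⟨18, 21, 9, 2, 7, 2⟩, ⟨19, 21, 9, 2, 7, 2⟩,
   ⟨20, 21, 9, 2, 7, 2⟩, ⟨5, 22, 9, 2, 6, 3⟩, ⟨6, 22, 9, 2, 9, 2⟩, ⟨10, 22, 7, 2, 9, 2⟩,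
   ⟨15, 22, 9, 2, 7, 3⟩, ⟨5, 23, 9, 2, 5, 4⟩, ⟨10, 23, 7, 2, 9, 3⟩, ⟨15, 23, 9, 2, 7, 2⟩,
   ⟨5, 24, 9, 2, 7, 2⟩, ⟨10, 24, 7, 2, 9, 2⟩, ⟨15, 24, 9, 2, 7, 2⟩, ⟨5, 25, 9, 2, 7, 2⟩,
   ⟨10, 25, 7, 2, 9, 2⟩, ⟨15, 25, 9, 2, 7, 2⟩, ⟨5, 26, 9, 2, 7, 2⟩, ⟨10, 26, 7, 2, 9, 2⟩,
   ⟨15, 26, 9, 2, 7, 2⟩, ⟨5, 27, 9, 2, 7, 2⟩, ⟨10, 27, 7, 2, 9, 2⟩, ⟨15, 27, 9, 2, 7, 2⟩,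
   ⟨5, 28, 9, 2, 7, 2⟩, ⟨10, 28, 7, 2, 9, 2⟩, ⟨15, 28, 9, 2, 7, 2⟩, ⟨5, 29, 9, 2, 7, 2⟩,
   ⟨10, 29, 7, 2, 9, 2⟩, ⟨15, 29, 9, 2, 7, 2⟩, ⟨5, 30, 9, 2, 7, 2⟩, ⟨10, 30, 7, 2, 9, 2⟩,
   ⟨15, 30, 9, 2, 7, 2⟩, ⟨5, 31, 9, 2, 7, 2⟩, ⟨10, 31, 7, 2, 9, 2⟩, ⟨15, 31, 9, 2, 7, 2⟩,
   ⟨5, 32, 9, 2, 7, 2⟩, ⟨10, 32, 7, 2, 9, 2⟩, ⟨15, 32, 9, 2, 7, 2⟩, ⟨5, 33, 9, 2, 7, 2⟩,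
   ⟨10, 33, 7, 2, 9, 2⟩, ⟨15, 33, 9, 2, 7, 2⟩, ⟨5, 34, 9, 2, 7, 2⟩, ⟨10, 34, 7, 2, 9, 2⟩,
   ⟨15, 34, 7, 2, 7, 2⟩, ⟨10, 35, 7, 2, 9, 2⟩, ⟨10, 36, 7, 2, 9, 2⟩, ⟨10, 37, 7, 2, 9, 2⟩,
   ⟨10, 38, 7, 2, 9, 2⟩]

/-- family of the tile of type 0 in state 2 -/
def fam02 : List Ent :=
  [⟨10, 0, 9, 2, 7, 2⟩, ⟨10, 1, 9, 2, 7, 2⟩, ⟨10, 2, 9, 2, 7, 2⟩, ⟨10, 3, 9, 2, 7, 2⟩,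
   ⟨5, 4, 7, 2, 9, 2⟩, ⟨10, 4, 9, 2, 7, 2⟩, ⟨15, 4, 7, 2, 7, 2⟩, ⟨5, 5, 7, 2, 9, 2⟩,
   ⟨10, 5, 9, 2, 7, 2⟩, ⟨15, 5, 7, 2, 9, 2⟩, ⟨5, 6, 7, 2, 9, 2⟩, ⟨9, 6, 7, 2, 7, 2⟩,
   ⟨10, 6, 10, 3, 7, 2⟩, ⟨13, 6, 9, 2, 9, 2⟩, ⟨15, 6, 7, 2, 9, 2⟩, ⟨5, 7, 7, 2, 9, 2⟩,
   ⟨8, 7, 7, 2, 7, 2⟩, ⟨10, 7, 9, 2, 7, 2⟩, ⟨12, 7, 9, 3, 7, 2⟩, ⟨15, 7, 7, 2, 9, 2⟩,
   ⟨5, 8, 7, 2, 9, 2⟩, ⟨10, 8, 9, 2, 7, 3⟩, ⟨11, 8, 9, 2, 6, 3⟩, ⟨13, 8, 9, 2, 7, 2⟩,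
   ⟨15, 8, 7, 2, 9, 2⟩, ⟨5, 9, 7, 2, 9, 2⟩, ⟨13, 9, 9, 2, 7, 3⟩, ⟨15, 9, 7, 2, 9, 2⟩,
   ⟨5, 10, 7, 2, 9, 2⟩, ⟨15, 10, 7, 3, 9, 2⟩, ⟨5, 11, 7, 2, 9, 2⟩, ⟨10, 11, 9, 2, 7, 2⟩,
   ⟨11, 11, 9, 2, 7, 2⟩, ⟨13, 11, 7, 2, 7, 2⟩, ⟨15, 11, 7, 2, 9, 2⟩, ⟨5, 12, 7, 2, 9, 2⟩,
   ⟨7, 12, 9, 2, 9, 2⟩, ⟨8, 12, 9, 2, 9, 2⟩, ⟨10, 12, 9, 2, 7, 2⟩, ⟨11, 12, 9, 2, 7, 2⟩,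
   ⟨14, 12, 7, 2, 7, 2⟩, ⟨15, 12, 7, 2, 9, 2⟩, ⟨5, 13, 7, 2, 9, 2⟩, ⟨6, 13, 9, 2, 9, 2⟩,
   ⟨10, 13, 9, 2, 7, 2⟩, ⟨15, 13, 7, 2, 9, 2⟩, ⟨5, 14, 7, 2, 9, 2⟩, ⟨10, 14, 9, 2, 7, 2⟩,
   ⟨15, 14, 7, 2, 9, 2⟩, ⟨5, 15, 7, 2, 9, 3⟩, ⟨10, 15, 9, 2, 7, 2⟩, ⟨15, 15, 7, 2, 9, 2⟩,
   ⟨5, 16, 7, 2, 9, 2⟩, ⟨7, 16, 9, 2, 7, 2⟩, ⟨10, 16, 9, 2, 7, 2⟩, ⟨15, 16, 7, 2, 9, 2⟩,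
   ⟨5, 17, 7, 2, 9, 2⟩, ⟨8, 17, 9, 2, 7, 2⟩, ⟨10, 17, 9, 2, 7, 2⟩, ⟨15, 17, 7, 2, 9, 2⟩,
   ⟨5, 18, 5, 4, 9, 2⟩, ⟨7, 18, 11, 2, 7, 2⟩, ⟨9, 18, 9, 2, 7, 2⟩, ⟨10, 18, 9, 2, 7, 2⟩,
   ⟨15, 18, 6, 3, 9, 2⟩, ⟨5, 19, 6, 3, 9, 2⟩, ⟨7, 19, 7, 2, 7, 2⟩, ⟨15, 19, 7, 2, 9, 2⟩,
   ⟨0, 20, 7, 2, 9, 2⟩, ⟨1, 20, 7, 2, 9, 2⟩, ⟨2, 20, 7, 2, 9, 2⟩, ⟨3, 20, 7, 2, 9, 2⟩,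
   ⟨4, 20, 7, 2, 10, 3⟩, ⟨5, 20, 7, 2, 9, 2⟩, ⟨14, 20, 7, 2, 10, 3⟩, ⟨15, 20, 7, 2, 9, 2⟩,
   ⟨16, 20, 6, 3, 9, 2⟩, ⟨17, 20, 5, 4, 9, 2⟩, ⟨18, 20, 7, 2, 9, 2⟩, ⟨19, 20, 7, 2, 9, 2⟩,
   ⟨20, 20, 7, 2, 9, 2⟩, ⟨0, 21, 7, 2, 9, 2⟩, ⟨1, 21, 7, 2, 9, 2⟩, ⟨2, 21, 7, 2, 9, 2⟩,
   ⟨3, 21, 7, 2, 11, 4⟩, ⟨4, 21, 7, 2, 10, 3⟩, ⟨5, 21, 7, 2, 9, 2⟩, ⟨7, 21, 9, 2, 9, 2⟩,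
   ⟨9, 21, 7, 2, 7, 2⟩, ⟨10, 21, 9, 2, 11, 2⟩, ⟨11, 21, 9, 2, 11, 2⟩, ⟨15, 21, 7, 2, 9, 2⟩,
   ⟨16, 21, 6, 3, 9, 2⟩, ⟨17, 21, 7, 2, 9, 2⟩, ⟨18, 21, 7, 2, 9, 2⟩, ⟨19, 21, 7, 2, 9, 2⟩,
   ⟨20, 21, 7, 2, 9, 2⟩, ⟨5, 22, 7, 2, 9, 2⟩, ⟨6, 22, 9, 2, 9, 2⟩, ⟨10, 22, 9, 2, 7, 2⟩,
   ⟨15, 22, 7, 2, 10, 3⟩, ⟨5, 23, 7, 2, 9, 2⟩, ⟨10, 23, 9, 2, 7, 3⟩, ⟨15, 23, 7, 2, 11, 4⟩,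
   ⟨5, 24, 7, 2, 9, 3⟩, ⟨10, 24, 9, 2, 7, 2⟩, ⟨15, 24, 7, 2, 9, 2⟩, ⟨5, 25, 7, 2, 9, 2⟩,
   ⟨10, 25, 9, 2, 7, 2⟩, ⟨15, 25, 7, 2, 9, 2⟩, ⟨5, 26, 7, 2, 9, 2⟩, ⟨10, 26, 9, 2, 7, 2⟩,
   ⟨15, 26, 7, 2, 9, 2⟩, ⟨5, 27, 7, 2, 9, 2⟩, ⟨10, 27, 9, 2, 7, 2⟩, ⟨15, 27, 7, 2, 9, 2⟩,
   ⟨5, 28, 7, 2, 9, 2⟩, ⟨10, 28, 9, 2, 7, 2⟩, ⟨15, 28, 7, 2, 9, 2⟩, ⟨5, 29, 7, 2, 9, 2⟩,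
   ⟨10, 29, 9, 2, 7, 2⟩, ⟨15, 29, 7, 2, 9, 2⟩, ⟨5, 30, 7, 2, 9, 2⟩, ⟨10, 30, 9, 2, 7, 2⟩,
   ⟨15, 30, 7, 2, 9, 2⟩, ⟨5, 31, 7, 2, 9, 2⟩, ⟨10, 31, 9, 2, 7, 2⟩, ⟨15, 31, 7, 2, 9, 2⟩,
   ⟨5, 32, 7, 2, 9, 2⟩, ⟨10, 32, 9, 2, 7, 2⟩, ⟨15, 32, 7, 2, 9, 2⟩, ⟨5, 33, 7, 2, 9, 2⟩,
   ⟨10, 33, 9, 2, 7, 2⟩, ⟨15, 33, 7, 2, 9, 2⟩, ⟨5, 34, 9, 2, 9, 2⟩, ⟨10, 34, 9, 2, 7, 2⟩,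
   ⟨15, 34, 9, 2, 9, 2⟩, ⟨10, 35, 9, 2, 7, 2⟩, ⟨10, 36, 9, 2, 7, 2⟩, ⟨10, 37, 9, 2, 7, 2⟩,
   ⟨10, 38, 9, 2, 7, 2⟩]

/-- family of the tile of type 0 in state 3 -/
def fam03 : List Ent :=
  [⟨10, 0, 9, 2, 7, 2⟩, ⟨10, 1, 9, 2, 7, 2⟩, ⟨10, 2, 9, 2, 7, 2⟩, ⟨10, 3, 9, 2, 7, 2⟩,
   ⟨5, 4, 9, 2, 9, 2⟩, ⟨10, 4, 9, 2, 7, 2⟩, ⟨15, 4, 9, 2, 7, 2⟩, ⟨5, 5, 9, 2, 7, 2⟩,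
   ⟨10, 5, 9, 2, 7, 2⟩, ⟨15, 5, 9, 2, 7, 2⟩, ⟨5, 6, 9, 2, 7, 2⟩, ⟨9, 6, 7, 2, 7, 2⟩,
   ⟨10, 6, 10, 3, 7, 2⟩, ⟨13, 6, 9, 2, 9, 2⟩, ⟨15, 6, 9, 2, 7, 2⟩, ⟨5, 7, 9, 2, 7, 2⟩,
   ⟨8, 7, 7, 2, 7, 2⟩, ⟨10, 7, 9, 2, 7, 2⟩, ⟨12, 7, 9, 3, 7, 2⟩, ⟨15, 7, 9, 2, 7, 2⟩,
   ⟨5, 8, 9, 2, 7, 2⟩, ⟨10, 8, 9, 2, 7, 3⟩, ⟨11, 8, 9, 2, 6, 3⟩, ⟨13, 8, 9, 2, 7, 2⟩,
   ⟨15, 8, 9, 2, 7, 2⟩, ⟨5, 9, 9, 2, 7, 2⟩, ⟨13, 9, 9, 2, 7, 3⟩, ⟨15, 9, 9, 2, 7, 2⟩,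
   ⟨5, 10, 9, 2, 7, 2⟩, ⟨15, 10, 9, 2, 7, 2⟩, ⟨5, 11, 9, 3, 7, 2⟩, ⟨10, 11, 9, 2, 7, 2⟩,
   ⟨11, 11, 9, 2, 7, 2⟩, ⟨13, 11, 7, 2, 7, 2⟩, ⟨15, 11, 9, 2, 7, 2⟩, ⟨5, 12, 9, 2, 7, 2⟩,
   ⟨7, 12, 9, 2, 9, 2⟩, ⟨8, 12, 9, 2, 9, 2⟩, ⟨10, 12, 9, 2, 7, 2⟩, ⟨11, 12, 9, 2, 7, 2⟩,
   ⟨14, 12, 7, 2, 7, 2⟩, ⟨15, 12, 9, 2, 7, 2⟩, ⟨5, 13, 9, 2, 7, 2⟩, ⟨6, 13, 9, 2, 9, 2⟩,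
   ⟨10, 13, 9, 2, 7, 2⟩, ⟨15, 13, 9, 2, 7, 2⟩, ⟨5, 14, 9, 2, 7, 2⟩, ⟨10, 14, 9, 2, 7, 2⟩,
   ⟨15, 14, 9, 2, 7, 3⟩, ⟨5, 15, 9, 2, 7, 2⟩, ⟨10, 15, 9, 2, 7, 2⟩, ⟨15, 15, 9, 2, 7, 2⟩,
   ⟨5, 16, 9, 2, 7, 2⟩, ⟨7, 16, 9, 2, 7, 2⟩, ⟨10, 16, 9, 2, 7, 2⟩, ⟨15, 16, 9, 2, 7, 2⟩,
   ⟨5, 17, 9, 2, 7, 2⟩, ⟨8, 17, 9, 2, 7, 2⟩, ⟨10, 17, 9, 2, 7, 2⟩, ⟨15, 17, 9, 2, 7, 2⟩,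
   ⟨5, 18, 9, 2, 7, 2⟩, ⟨7, 18, 9, 2, 7, 2⟩, ⟨9, 18, 9, 2, 7, 2⟩, ⟨10, 18, 9, 2, 7, 2⟩,
   ⟨15, 18, 11, 4, 7, 2⟩, ⟨5, 19, 9, 2, 7, 2⟩, ⟨7, 19, 9, 2, 7, 2⟩, ⟨15, 19, 10, 3, 7, 2⟩,
   ⟨0, 20, 9, 2, 7, 2⟩, ⟨1, 20, 9, 2, 7, 2⟩, ⟨2, 20, 9, 2, 7, 2⟩, ⟨3, 20, 11, 4, 7, 2⟩,
   ⟨4, 20, 10, 3, 7, 2⟩, ⟨5, 20, 10, 3, 7, 2⟩, ⟨14, 20, 7, 2, 7, 2⟩, ⟨15, 20, 9, 2, 7, 2⟩,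
   ⟨16, 20, 9, 2, 6, 3⟩, ⟨17, 20, 9, 2, 7, 2⟩, ⟨18, 20, 9, 2, 7, 2⟩, ⟨19, 20, 9, 2, 7, 2⟩,
   ⟨20, 20, 9, 2, 7, 2⟩, ⟨0, 21, 9, 2, 7, 2⟩, ⟨1, 21, 9, 2, 7, 2⟩, ⟨2, 21, 9, 2, 7, 2⟩,
   ⟨3, 21, 9, 2, 7, 2⟩, ⟨4, 21, 10, 3, 7, 2⟩, ⟨5, 21, 9, 2, 7, 2⟩, ⟨7, 21, 9, 2, 7, 2⟩,
   ⟨9, 21, 7, 2, 7, 2⟩, ⟨10, 21, 9, 2, 7, 2⟩, ⟨11, 21, 9, 2, 9, 2⟩, ⟨15, 21, 9, 2, 7, 2⟩,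
   ⟨16, 21, 9, 2, 6, 3⟩, ⟨17, 21, 9, 2, 5, 4⟩, ⟨18, 21, 9, 2, 7, 2⟩, ⟨19, 21, 9, 2, 7, 2⟩,
   ⟨20, 21, 9, 2, 7, 2⟩, ⟨5, 22, 9, 2, 6, 3⟩, ⟨6, 22, 9, 2, 6, 3⟩, ⟨10, 22, 9, 2, 7, 2⟩,
   ⟨15, 22, 9, 2, 7, 3⟩, ⟨5, 23, 9, 2, 5, 4⟩, ⟨10, 23, 9, 2, 7, 3⟩, ⟨15, 23, 9, 2, 7, 2⟩,
   ⟨5, 24, 9, 2, 7, 2⟩, ⟨10, 24, 9, 2, 7, 2⟩, ⟨15, 24, 9, 2, 7, 2⟩, ⟨5, 25, 9, 2, 7, 2⟩,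
   ⟨10, 25, 9, 2, 7, 2⟩, ⟨15, 25, 9, 2, 7, 2⟩, ⟨5, 26, 9, 2, 7, 2⟩, ⟨10, 26, 9, 2, 7, 2⟩,
   ⟨15, 26, 9, 2, 7, 2⟩, ⟨5, 27, 9, 2, 7, 2⟩, ⟨10, 27, 9, 2, 7, 2⟩, ⟨15, 27, 9, 2, 7, 2⟩,
   ⟨5, 28, 9, 2, 7, 2⟩, ⟨10, 28, 9, 2, 7, 2⟩, ⟨15, 28, 9, 2, 7, 2⟩, ⟨5, 29, 9, 2, 7, 2⟩,
   ⟨10, 29, 9, 2, 7, 2⟩, ⟨15, 29, 9, 2, 7, 2⟩, ⟨5, 30, 9, 2, 7, 2⟩, ⟨10, 30, 9, 2, 7, 2⟩,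
   ⟨15, 30, 9, 2, 7, 2⟩, ⟨5, 31, 9, 2, 7, 2⟩, ⟨10, 31, 9, 2, 7, 2⟩, ⟨15, 31, 9, 2, 7, 2⟩,
   ⟨5, 32, 9, 2, 7, 2⟩, ⟨10, 32, 9, 2, 7, 2⟩, ⟨15, 32, 9, 2, 7, 2⟩, ⟨5, 33, 9, 2, 7, 2⟩,
   ⟨10, 33, 9, 2, 7, 2⟩, ⟨15, 33, 9, 2, 7, 2⟩, ⟨5, 34, 9, 2, 7, 2⟩, ⟨10, 34, 9, 2, 7, 2⟩,
   ⟨15, 34, 9, 2, 7, 2⟩, ⟨10, 35, 9, 2, 7, 2⟩, ⟨10, 36, 9, 2, 7, 2⟩, ⟨10, 37, 9, 2, 7, 2⟩,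
   ⟨10, 38, 9, 2, 7, 2⟩]

/-- family of the tile of type 1 in state 0 -/
def fam10 : List Ent :=
  [⟨10, 0, 7, 2, 9, 2⟩, ⟨10, 1, 7, 2, 9, 2⟩, ⟨10, 2, 7, 2, 9, 2⟩, ⟨10, 3, 7, 2, 9, 2⟩,
   ⟨5, 4, 7, 2, 7, 2⟩, ⟨10, 4, 7, 3, 9, 2⟩, ⟨15, 4, 7, 2, 9, 2⟩, ⟨5, 5, 7, 2, 9, 2⟩,
   ⟨10, 5, 7, 2, 9, 2⟩, ⟨15, 5, 7, 2, 9, 2⟩, ⟨5, 6, 7, 2, 9, 2⟩, ⟨9, 6, 7, 2, 7, 2⟩,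
   ⟨10, 6, 7, 2, 9, 2⟩, ⟨13, 6, 7, 2, 9, 2⟩, ⟨15, 6, 7, 2, 9, 2⟩, ⟨5, 7, 7, 2, 9, 2⟩,
   ⟨8, 7, 7, 2, 7, 2⟩, ⟨10, 7, 7, 2, 9, 2⟩, ⟨12, 7, 7, 2, 9, 2⟩, ⟨15, 7, 7, 2, 9, 2⟩,
   ⟨5, 8, 7, 2, 9, 2⟩, ⟨10, 8, 7, 2, 9, 2⟩, ⟨11, 8, 7, 2, 9, 2⟩, ⟨13, 8, 7, 2, 9, 2⟩,
   ⟨15, 8, 7, 2, 9, 2⟩, ⟨5, 9, 7, 2, 9, 2⟩, ⟨13, 9, 7, 2, 9, 2⟩, ⟨15, 9, 7, 2, 9, 2⟩,
   ⟨5, 10, 7, 2, 9, 2⟩, ⟨15, 10, 6, 3, 9, 2⟩, ⟨5, 11, 7, 2, 9, 2⟩, ⟨10, 11, 7, 2, 9, 2⟩,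
   ⟨11, 11, 6, 3, 9, 2⟩, ⟨13, 11, 7, 2, 9, 2⟩, ⟨15, 11, 7, 2, 9, 2⟩, ⟨5, 12, 7, 2, 9, 2⟩,
   ⟨7, 12, 9, 2, 9, 2⟩, ⟨8, 12, 9, 2, 9, 2⟩, ⟨10, 12, 7, 2, 9, 2⟩, ⟨11, 12, 6, 3, 9, 2⟩,
   ⟨14, 12, 7, 2, 10, 3⟩, ⟨15, 12, 7, 2, 9, 2⟩, ⟨5, 13, 7, 2, 9, 2⟩, ⟨6, 13, 9, 2, 9, 2⟩,
   ⟨10, 13, 7, 2, 10, 3⟩, ⟨15, 13, 7, 2, 9, 2⟩, ⟨5, 14, 7, 2, 9, 2⟩, ⟨10, 14, 7, 2, 10, 3⟩,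
   ⟨15, 14, 7, 2, 9, 2⟩, ⟨5, 15, 7, 2, 9, 3⟩, ⟨10, 15, 7, 2, 9, 2⟩, ⟨15, 15, 7, 2, 9, 2⟩,
   ⟨5, 16, 7, 2, 9, 2⟩, ⟨7, 16, 7, 2, 9, 2⟩, ⟨10, 16, 6, 3, 9, 2⟩, ⟨15, 16, 7, 2, 9, 2⟩,
   ⟨5, 17, 7, 2, 9, 2⟩, ⟨8, 17, 7, 3, 9, 2⟩, ⟨10, 17, 7, 2, 9, 2⟩, ⟨15, 17, 7, 2, 9, 2⟩,
   ⟨5, 18, 5, 4, 9, 2⟩, ⟨7, 18, 7, 2, 9, 2⟩, ⟨9, 18, 7, 2, 10, 3⟩, ⟨10, 18, 7, 2, 9, 2⟩,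
   ⟨15, 18, 7, 3, 9, 2⟩, ⟨5, 19, 6, 3, 9, 2⟩, ⟨7, 19, 7, 2, 9, 3⟩, ⟨15, 19, 7, 2, 9, 2⟩,
   ⟨0, 20, 7, 2, 9, 2⟩, ⟨1, 20, 7, 2, 9, 2⟩, ⟨2, 20, 7, 2, 9, 2⟩, ⟨3, 20, 7, 2, 9, 2⟩,
   ⟨4, 20, 7, 2, 10, 3⟩, ⟨5, 20, 7, 2, 9, 2⟩, ⟨14, 20, 7, 2, 7, 2⟩, ⟨15, 20, 7, 2, 9, 2⟩,
   ⟨16, 20, 6, 3, 9, 2⟩, ⟨17, 20, 5, 4, 9, 2⟩, ⟨18, 20, 7, 2, 9, 2⟩, ⟨19, 20, 7, 2, 9, 2⟩,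
   ⟨20, 20, 7, 2, 9, 2⟩, ⟨0, 21, 7, 2, 9, 2⟩, ⟨1, 21, 7, 2, 9, 2⟩, ⟨2, 21, 7, 2, 9, 2⟩,
   ⟨3, 21, 7, 2, 11, 4⟩, ⟨4, 21, 7, 2, 10, 3⟩, ⟨5, 21, 7, 2, 9, 2⟩, ⟨7, 21, 9, 2, 9, 2⟩,
   ⟨9, 21, 7, 2, 9, 2⟩, ⟨10, 21, 7, 2, 9, 2⟩, ⟨11, 21, 9, 2, 9, 2⟩, ⟨15, 21, 7, 2, 9, 2⟩,
   ⟨16, 21, 6, 3, 9, 2⟩, ⟨17, 21, 7, 2, 9, 2⟩, ⟨18, 21, 7, 2, 9, 2⟩, ⟨19, 21, 7, 2, 9, 2⟩,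
   ⟨20, 21, 7, 2, 9, 2⟩, ⟨5, 22, 7, 2, 9, 2⟩, ⟨6, 22, 9, 2, 9, 2⟩, ⟨10, 22, 7, 2, 9, 2⟩,
   ⟨15, 22, 7, 2, 10, 3⟩, ⟨5, 23, 7, 2, 9, 2⟩, ⟨10, 23, 7, 2, 9, 3⟩, ⟨15, 23, 7, 2, 11, 4⟩,
   ⟨5, 24, 7, 2, 9, 3⟩, ⟨10, 24, 7, 3, 9, 2⟩, ⟨15, 24, 7, 2, 9, 2⟩, ⟨5, 25, 7, 2, 9, 2⟩,
   ⟨10, 25, 7, 2, 9, 2⟩, ⟨11, 25, 7, 2, 9, 2⟩, ⟨15, 25, 7, 2, 9, 2⟩, ⟨5, 26, 7, 2, 9, 2⟩,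
   ⟨9, 26, 7, 2, 7, 2⟩, ⟨10, 26, 7, 2, 9, 2⟩, ⟨15, 26, 7, 2, 9, 2⟩, ⟨5, 27, 7, 2, 9, 2⟩,
   ⟨15, 27, 7, 2, 9, 2⟩, ⟨5, 28, 7, 2, 9, 2⟩, ⟨15, 28, 7, 2, 9, 2⟩, ⟨5, 29, 7, 2, 9, 2⟩,
   ⟨6, 29, 9, 2, 9, 2⟩, ⟨9, 29, 7, 2, 9, 2⟩, ⟨10, 29, 7, 2, 9, 2⟩, ⟨15, 29, 7, 2, 9, 2⟩,
   ⟨5, 30, 7, 2, 9, 2⟩, ⟨7, 30, 9, 2, 9, 2⟩, ⟨10, 30, 7, 2, 9, 2⟩, ⟨15, 30, 7, 2, 9, 2⟩,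
   ⟨5, 31, 7, 2, 9, 3⟩, ⟨10, 31, 7, 2, 9, 2⟩, ⟨15, 31, 7, 2, 9, 2⟩, ⟨5, 32, 7, 2, 9, 2⟩,
   ⟨10, 32, 7, 2, 9, 2⟩, ⟨15, 32, 7, 2, 9, 2⟩, ⟨5, 33, 7, 2, 9, 2⟩, ⟨10, 33, 7, 2, 9, 2⟩,
   ⟨15, 33, 7, 2, 9, 2⟩, ⟨5, 34, 7, 2, 9, 2⟩, ⟨10, 34, 7, 2, 9, 2⟩, ⟨15, 34, 9, 2, 9, 2⟩,
   ⟨10, 35, 7, 2, 9, 2⟩, ⟨10, 36, 7, 2, 9, 2⟩, ⟨10, 37, 7, 2, 9, 2⟩, ⟨10, 38, 7, 2, 9, 2⟩]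

/-- family of the tile of type 1 in state 1 -/
def fam11 : List Ent :=
  [⟨10, 0, 7, 2, 9, 2⟩, ⟨10, 1, 7, 2, 9, 2⟩, ⟨10, 2, 7, 2, 9, 2⟩, ⟨10, 3, 7, 2, 9, 2⟩,
   ⟨5, 4, 9, 2, 7, 2⟩, ⟨10, 4, 7, 3, 9, 2⟩, ⟨15, 4, 9, 2, 7, 2⟩, ⟨5, 5, 9, 2, 7, 2⟩,
   ⟨10, 5, 7, 2, 9, 2⟩, ⟨15, 5, 9, 2, 7, 2⟩, ⟨5, 6, 9, 2, 7, 2⟩, ⟨9, 6, 7, 2, 7, 2⟩,
   ⟨10, 6, 7, 2, 9, 2⟩, ⟨13, 6, 7, 2, 9, 2⟩, ⟨15, 6, 9, 2, 7, 2⟩, ⟨5, 7, 9, 2, 7, 2⟩,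
   ⟨8, 7, 7, 2, 7, 2⟩, ⟨10, 7, 7, 2, 9, 2⟩, ⟨12, 7, 7, 2, 9, 2⟩, ⟨15, 7, 9, 2, 7, 2⟩,
   ⟨5, 8, 9, 2, 7, 2⟩, ⟨10, 8, 7, 2, 9, 2⟩, ⟨11, 8, 7, 2, 9, 2⟩, ⟨13, 8, 5, 2, 9, 2⟩,
   ⟨15, 8, 9, 2, 7, 2⟩, ⟨5, 9, 9, 2, 7, 2⟩, ⟨13, 9, 9, 2, 9, 2⟩, ⟨15, 9, 9, 2, 7, 2⟩,
   ⟨5, 10, 9, 2, 7, 2⟩, ⟨15, 10, 9, 2, 7, 2⟩, ⟨5, 11, 10, 3, 7, 2⟩, ⟨10, 11, 7, 2, 5, 2⟩,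
   ⟨11, 11, 6, 3, 9, 2⟩, ⟨13, 11, 7, 2, 7, 2⟩, ⟨15, 11, 9, 2, 7, 2⟩, ⟨5, 12, 9, 2, 7, 2⟩,
   ⟨7, 12, 9, 2, 7, 2⟩, ⟨8, 12, 9, 2, 7, 2⟩, ⟨10, 12, 7, 2, 9, 2⟩, ⟨11, 12, 6, 3, 9, 2⟩,
   ⟨14, 12, 7, 2, 7, 2⟩, ⟨15, 12, 9, 2, 7, 2⟩, ⟨5, 13, 9, 2, 7, 2⟩, ⟨6, 13, 9, 2, 6, 3⟩,
   ⟨10, 13, 7, 2, 10, 3⟩, ⟨15, 13, 9, 2, 7, 2⟩, ⟨5, 14, 9, 2, 7, 2⟩, ⟨10, 14, 7, 2, 10, 3⟩,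
   ⟨15, 14, 9, 2, 7, 3⟩, ⟨5, 15, 9, 2, 7, 2⟩, ⟨10, 15, 7, 2, 9, 2⟩, ⟨15, 15, 9, 2, 7, 2⟩,
   ⟨5, 16, 9, 2, 7, 2⟩, ⟨7, 16, 7, 2, 9, 2⟩, ⟨10, 16, 6, 3, 9, 2⟩, ⟨15, 16, 9, 2, 7, 2⟩,
   ⟨5, 17, 9, 2, 7, 2⟩, ⟨8, 17, 7, 3, 9, 2⟩, ⟨10, 17, 7, 2, 9, 2⟩, ⟨15, 17, 9, 2, 7, 2⟩,
   ⟨5, 18, 9, 2, 7, 2⟩, ⟨7, 18, 7, 2, 9, 2⟩, ⟨9, 18, 7, 2, 10, 3⟩, ⟨10, 18, 7, 2, 9, 2⟩,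
   ⟨15, 18, 11, 4, 7, 2⟩, ⟨5, 19, 9, 2, 7, 2⟩, ⟨7, 19, 7, 2, 9, 3⟩, ⟨15, 19, 10, 3, 7, 2⟩,
   ⟨0, 20, 9, 2, 7, 2⟩, ⟨1, 20, 9, 2, 7, 2⟩, ⟨2, 20, 9, 2, 7, 2⟩, ⟨3, 20, 11, 4, 7, 2⟩,
   ⟨4, 20, 10, 3, 7, 2⟩, ⟨5, 20, 9, 3, 7, 2⟩, ⟨14, 20, 7, 2, 7, 2⟩, ⟨15, 20, 9, 2, 7, 2⟩,
   ⟨16, 20, 9, 2, 6, 3⟩, ⟨17, 20, 9, 2, 7, 2⟩, ⟨18, 20, 9, 2, 7, 2⟩, ⟨19, 20, 9, 2, 7, 2⟩,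
   ⟨20, 20, 9, 2, 7, 2⟩, ⟨0, 21, 9, 2, 7, 2⟩, ⟨1, 21, 9, 2, 7, 2⟩, ⟨2, 21, 9, 2, 7, 2⟩,
   ⟨3, 21, 9, 2, 7, 2⟩, ⟨4, 21, 10, 3, 7, 2⟩, ⟨5, 21, 9, 2, 7, 2⟩, ⟨7, 21, 9, 2, 9, 2⟩,
   ⟨9, 21, 7, 2, 9, 2⟩, ⟨10, 21, 7, 2, 9, 2⟩, ⟨11, 21, 9, 2, 9, 2⟩, ⟨15, 21, 9, 2, 7, 2⟩,
   ⟨16, 21, 9, 2, 6, 3⟩, ⟨17, 21, 9, 2, 5, 4⟩, ⟨18, 21, 9, 2, 7, 2⟩, ⟨19, 21, 9, 2, 7, 2⟩,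
   ⟨20, 21, 9, 2, 7, 2⟩, ⟨5, 22, 9, 2, 6, 3⟩, ⟨6, 22, 9, 2, 9, 2⟩, ⟨10, 22, 7, 2, 9, 2⟩,
   ⟨15, 22, 9, 2, 7, 3⟩, ⟨5, 23, 9, 2, 5, 4⟩, ⟨10, 23, 7, 2, 9, 3⟩, ⟨15, 23, 9, 2, 7, 2⟩,
   ⟨5, 24, 9, 2, 7, 2⟩, ⟨10, 24, 7, 3, 9, 2⟩, ⟨15, 24, 9, 2, 7, 2⟩, ⟨5, 25, 9, 2, 7, 2⟩,
   ⟨10, 25, 7, 2, 9, 2⟩, ⟨11, 25, 7, 2, 9, 2⟩, ⟨15, 25, 9, 2, 7, 2⟩, ⟨5, 26, 9, 2, 7, 2⟩,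
   ⟨9, 26, 7, 2, 7, 2⟩, ⟨10, 26, 7, 2, 9, 2⟩, ⟨15, 26, 9, 2, 7, 2⟩, ⟨5, 27, 11, 4, 7, 2⟩,
   ⟨15, 27, 9, 2, 7, 2⟩, ⟨5, 28, 9, 2, 7, 2⟩, ⟨15, 28, 9, 2, 7, 2⟩, ⟨5, 29, 9, 2, 7, 2⟩,
   ⟨6, 29, 9, 2, 6, 3⟩, ⟨9, 29, 7, 2, 5, 2⟩, ⟨10, 29, 9, 2, 9, 2⟩, ⟨15, 29, 9, 2, 7, 2⟩,
   ⟨5, 30, 9, 2, 7, 2⟩, ⟨7, 30, 9, 2, 5, 4⟩, ⟨10, 30, 9, 2, 7, 2⟩, ⟨15, 30, 9, 2, 7, 2⟩,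
   ⟨5, 31, 9, 2, 7, 2⟩, ⟨10, 31, 9, 2, 7, 3⟩, ⟨15, 31, 9, 2, 7, 2⟩, ⟨5, 32, 9, 2, 7, 2⟩,
   ⟨10, 32, 9, 2, 7, 2⟩, ⟨15, 32, 9, 2, 7, 2⟩, ⟨5, 33, 9, 2, 7, 2⟩, ⟨10, 33, 9, 2, 7, 2⟩,
   ⟨15, 33, 9, 2, 7, 2⟩, ⟨5, 34, 9, 2, 7, 2⟩, ⟨10, 34, 9, 2, 7, 2⟩, ⟨15, 34, 7, 2, 7, 2⟩,
   ⟨10, 35, 9, 2, 7, 2⟩, ⟨10, 36, 9, 2, 7, 2⟩, ⟨10, 37, 9, 2, 7, 2⟩, ⟨10, 38, 9, 2, 7, 2⟩]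

/-- family of the tile of type 1 in state 2 -/
def fam12 : List Ent :=
  [⟨10, 0, 9, 2, 7, 2⟩, ⟨10, 1, 9, 2, 7, 2⟩, ⟨10, 2, 9, 2, 7, 2⟩, ⟨10, 3, 9, 2, 7, 2⟩,
   ⟨5, 4, 7, 2, 7, 2⟩, ⟨10, 4, 9, 2, 7, 2⟩, ⟨15, 4, 7, 2, 9, 2⟩, ⟨5, 5, 7, 2, 9, 2⟩,
   ⟨10, 5, 9, 2, 7, 2⟩, ⟨15, 5, 7, 2, 9, 2⟩, ⟨5, 6, 7, 2, 9, 2⟩, ⟨9, 6, 7, 2, 7, 2⟩,
   ⟨10, 6, 10, 3, 7, 2⟩, ⟨13, 6, 9, 2, 7, 2⟩, ⟨15, 6, 7, 2, 9, 2⟩, ⟨5, 7, 7, 2, 9, 2⟩,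
   ⟨8, 7, 7, 2, 7, 2⟩, ⟨10, 7, 9, 2, 7, 2⟩, ⟨12, 7, 9, 3, 7, 2⟩, ⟨15, 7, 7, 2, 9, 2⟩,
   ⟨5, 8, 7, 2, 9, 2⟩, ⟨10, 8, 9, 2, 7, 3⟩, ⟨11, 8, 9, 2, 6, 3⟩, ⟨13, 8, 9, 2, 7, 2⟩,
   ⟨15, 8, 7, 2, 9, 2⟩, ⟨5, 9, 7, 2, 9, 2⟩, ⟨13, 9, 9, 2, 7, 3⟩, ⟨15, 9, 7, 2, 9, 2⟩,
   ⟨5, 10, 7, 2, 9, 2⟩, ⟨15, 10, 7, 3, 9, 2⟩, ⟨5, 11, 7, 2, 9, 2⟩, ⟨10, 11, 9, 2, 7, 2⟩,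
   ⟨11, 11, 9, 2, 7, 2⟩, ⟨13, 11, 7, 2, 7, 2⟩, ⟨15, 11, 7, 2, 9, 2⟩, ⟨5, 12, 7, 2, 9, 2⟩,
   ⟨7, 12, 9, 2, 9, 2⟩, ⟨8, 12, 9, 2, 9, 2⟩, ⟨10, 12, 9, 2, 7, 2⟩, ⟨11, 12, 9, 2, 7, 2⟩,
   ⟨14, 12, 7, 2, 7, 2⟩, ⟨15, 12, 7, 2, 9, 2⟩, ⟨5, 13, 7, 2, 9, 2⟩, ⟨6, 13, 9, 2, 9, 2⟩,
   ⟨10, 13, 9, 2, 7, 2⟩, ⟨15, 13, 7, 2, 9, 2⟩, ⟨5, 14, 7, 2, 9, 2⟩, ⟨10, 14, 9, 2, 7, 2⟩,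
   ⟨15, 14, 7, 2, 9, 2⟩, ⟨5, 15, 7, 2, 9, 3⟩, ⟨10, 15, 9, 2, 7, 2⟩, ⟨15, 15, 7, 2, 9, 2⟩,
   ⟨5, 16, 7, 2, 9, 2⟩, ⟨7, 16, 9, 2, 7, 2⟩, ⟨10, 16, 9, 2, 7, 2⟩, ⟨15, 16, 7, 2, 9, 2⟩,
   ⟨5, 17, 7, 2, 9, 2⟩, ⟨8, 17, 9, 2, 7, 2⟩, ⟨10, 17, 9, 2, 7, 2⟩, ⟨15, 17, 7, 2, 9, 2⟩,
   ⟨5, 18, 5, 4, 9, 2⟩, ⟨7, 18, 11, 2, 7, 2⟩, ⟨9, 18, 9, 2, 7, 2⟩, ⟨10, 18, 9, 2, 7, 2⟩,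
   ⟨15, 18, 6, 3, 9, 2⟩, ⟨5, 19, 6, 3, 9, 2⟩, ⟨7, 19, 7, 2, 7, 2⟩, ⟨15, 19, 7, 2, 9, 2⟩,
   ⟨0, 20, 7, 2, 9, 2⟩, ⟨1, 20, 7, 2, 9, 2⟩, ⟨2, 20, 7, 2, 9, 2⟩, ⟨3, 20, 7, 2, 9, 2⟩,
   ⟨4, 20, 7, 2, 10, 3⟩, ⟨5, 20, 7, 2, 9, 2⟩, ⟨14, 20, 7, 2, 10, 3⟩, ⟨15, 20, 7, 2, 9, 2⟩,
   ⟨16, 20, 6, 3, 9, 2⟩, ⟨17, 20, 5, 4, 9, 2⟩, ⟨18, 20, 7, 2, 9, 2⟩, ⟨19, 20, 7, 2, 9, 2⟩,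
   ⟨20, 20, 7, 2, 9, 2⟩, ⟨0, 21, 7, 2, 9, 2⟩, ⟨1, 21, 7, 2, 9, 2⟩, ⟨2, 21, 7, 2, 9, 2⟩,
   ⟨3, 21, 7, 2, 11, 4⟩, ⟨4, 21, 7, 2, 10, 3⟩, ⟨5, 21, 7, 2, 9, 2⟩, ⟨7, 21, 9, 2, 9, 2⟩,
   ⟨9, 21, 7, 2, 7, 2⟩, ⟨10, 21, 9, 2, 11, 2⟩, ⟨11, 21, 9, 2, 11, 2⟩, ⟨15, 21, 7, 2, 9, 2⟩,
   ⟨16, 21, 6, 3, 9, 2⟩, ⟨17, 21, 7, 2, 9, 2⟩, ⟨18, 21, 7, 2, 9, 2⟩, ⟨19, 21, 7, 2, 9, 2⟩,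
   ⟨20, 21, 7, 2, 9, 2⟩, ⟨5, 22, 7, 2, 9, 2⟩, ⟨6, 22, 9, 2, 9, 2⟩, ⟨10, 22, 9, 2, 7, 2⟩,
   ⟨15, 22, 7, 2, 10, 3⟩, ⟨5, 23, 7, 2, 9, 2⟩, ⟨10, 23, 9, 3, 7, 3⟩, ⟨15, 23, 7, 2, 11, 4⟩,
   ⟨5, 24, 7, 2, 9, 3⟩, ⟨10, 24, 9, 2, 7, 2⟩, ⟨15, 24, 7, 2, 9, 2⟩, ⟨5, 25, 7, 2, 9, 2⟩,
   ⟨10, 25, 9, 2, 7, 2⟩, ⟨11, 25, 9, 2, 9, 2⟩, ⟨15, 25, 7, 2, 9, 2⟩, ⟨5, 26, 7, 2, 9, 2⟩,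
   ⟨9, 26, 9, 2, 7, 2⟩, ⟨10, 26, 9, 2, 7, 2⟩, ⟨15, 26, 7, 2, 9, 2⟩, ⟨5, 27, 7, 2, 9, 2⟩,
   ⟨15, 27, 7, 2, 9, 2⟩, ⟨5, 28, 7, 2, 9, 2⟩, ⟨15, 28, 7, 2, 9, 2⟩, ⟨5, 29, 7, 2, 9, 2⟩,
   ⟨6, 29, 9, 2, 9, 2⟩, ⟨9, 29, 7, 2, 7, 2⟩, ⟨10, 29, 9, 2, 7, 2⟩, ⟨15, 29, 7, 2, 9, 2⟩,
   ⟨5, 30, 7, 2, 9, 2⟩, ⟨7, 30, 9, 2, 9, 2⟩, ⟨10, 30, 9, 2, 7, 2⟩, ⟨15, 30, 7, 2, 9, 2⟩,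
   ⟨5, 31, 7, 2, 9, 3⟩, ⟨10, 31, 9, 2, 7, 3⟩, ⟨15, 31, 7, 2, 9, 2⟩, ⟨5, 32, 7, 2, 9, 2⟩,
   ⟨10, 32, 9, 2, 7, 2⟩, ⟨15, 32, 7, 2, 9, 2⟩, ⟨5, 33, 7, 2, 9, 2⟩, ⟨10, 33, 9, 2, 7, 2⟩,
   ⟨15, 33, 7, 2, 9, 2⟩, ⟨5, 34, 7, 2, 9, 2⟩, ⟨10, 34, 9, 2, 7, 2⟩, ⟨15, 34, 7, 2, 9, 2⟩,
   ⟨10, 35, 9, 2, 7, 2⟩, ⟨10, 36, 9, 2, 7, 2⟩, ⟨10, 37, 9, 2, 7, 2⟩, ⟨10, 38, 9, 2, 7, 2⟩]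

/-- family of the tile of type 1 in state 3 -/
def fam13 : List Ent :=
  [⟨10, 0, 9, 2, 7, 2⟩, ⟨10, 1, 9, 2, 7, 2⟩, ⟨10, 2, 9, 2, 7, 2⟩, ⟨10, 3, 9, 2, 7, 2⟩,
   ⟨5, 4, 9, 2, 9, 2⟩, ⟨10, 4, 9, 2, 7, 2⟩, ⟨15, 4, 9, 2, 9, 2⟩, ⟨5, 5, 9, 2, 7, 2⟩,
   ⟨10, 5, 9, 2, 7, 2⟩, ⟨15, 5, 9, 2, 7, 2⟩, ⟨5, 6, 9, 2, 7, 2⟩, ⟨9, 6, 9, 3, 7, 2⟩,
   ⟨10, 6, 10, 3, 7, 2⟩, ⟨13, 6, 9, 2, 7, 2⟩, ⟨15, 6, 9, 2, 7, 2⟩, ⟨5, 7, 9, 2, 7, 2⟩,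
   ⟨8, 7, 9, 2, 7, 2⟩, ⟨10, 7, 9, 2, 7, 2⟩, ⟨12, 7, 9, 3, 7, 2⟩, ⟨15, 7, 9, 2, 7, 2⟩,
   ⟨5, 8, 9, 2, 7, 2⟩, ⟨10, 8, 9, 2, 7, 3⟩, ⟨11, 8, 9, 2, 6, 3⟩, ⟨13, 8, 9, 2, 7, 2⟩,
   ⟨15, 8, 9, 2, 7, 2⟩, ⟨5, 9, 9, 2, 7, 2⟩, ⟨13, 9, 9, 2, 7, 3⟩, ⟨15, 9, 9, 2, 7, 2⟩,
   ⟨5, 10, 9, 2, 7, 2⟩, ⟨15, 10, 9, 2, 7, 2⟩, ⟨5, 11, 9, 3, 7, 2⟩, ⟨10, 11, 9, 2, 7, 2⟩,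
   ⟨11, 11, 9, 2, 7, 2⟩, ⟨13, 11, 7, 2, 7, 2⟩, ⟨15, 11, 9, 2, 7, 2⟩, ⟨5, 12, 9, 2, 7, 2⟩,
   ⟨7, 12, 9, 2, 9, 2⟩, ⟨8, 12, 9, 2, 9, 2⟩, ⟨10, 12, 9, 2, 7, 2⟩, ⟨11, 12, 9, 2, 7, 2⟩,
   ⟨14, 12, 7, 2, 7, 2⟩, ⟨15, 12, 9, 2, 7, 2⟩, ⟨5, 13, 9, 2, 7, 2⟩, ⟨6, 13, 9, 2, 9, 2⟩,
   ⟨10, 13, 9, 2, 7, 2⟩, ⟨15, 13, 9, 2, 7, 2⟩, ⟨5, 14, 9, 2, 7, 2⟩, ⟨10, 14, 9, 2, 7, 2⟩,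
   ⟨15, 14, 9, 2, 7, 3⟩, ⟨5, 15, 9, 2, 7, 2⟩, ⟨10, 15, 9, 2, 7, 2⟩, ⟨15, 15, 9, 2, 7, 2⟩,
   ⟨5, 16, 9, 2, 7, 2⟩, ⟨7, 16, 9, 2, 7, 2⟩, ⟨10, 16, 9, 2, 7, 2⟩, ⟨15, 16, 9, 2, 7, 2⟩,
   ⟨5, 17, 9, 2, 7, 2⟩, ⟨8, 17, 9, 2, 7, 2⟩, ⟨10, 17, 9, 2, 7, 2⟩, ⟨15, 17, 9, 2, 7, 2⟩,
   ⟨5, 18, 9, 2, 7, 2⟩, ⟨7, 18, 9, 2, 7, 2⟩, ⟨9, 18, 9, 2, 7, 2⟩, ⟨10, 18, 9, 2, 7, 2⟩,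
   ⟨15, 18, 11, 4, 7, 2⟩, ⟨5, 19, 9, 2, 7, 2⟩, ⟨7, 19, 9, 2, 7, 2⟩, ⟨15, 19, 10, 3, 7, 2⟩,
   ⟨0, 20, 9, 2, 7, 2⟩, ⟨1, 20, 9, 2, 7, 2⟩, ⟨2, 20, 9, 2, 7, 2⟩, ⟨3, 20, 11, 4, 7, 2⟩,
   ⟨4, 20, 10, 3, 7, 2⟩, ⟨5, 20, 10, 3, 7, 2⟩, ⟨14, 20, 7, 2, 7, 2⟩, ⟨15, 20, 9, 2, 7, 2⟩,
   ⟨16, 20, 9, 2, 6, 3⟩, ⟨17, 20, 9, 2, 7, 2⟩, ⟨18, 20, 9, 2, 7, 2⟩, ⟨19, 20, 9, 2, 7, 2⟩,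
   ⟨20, 20, 9, 2, 7, 2⟩, ⟨0, 21, 9, 2, 7, 2⟩, ⟨1, 21, 9, 2, 7, 2⟩, ⟨2, 21, 9, 2, 7, 2⟩,
   ⟨3, 21, 9, 2, 7, 2⟩, ⟨4, 21, 10, 3, 7, 2⟩, ⟨5, 21, 9, 2, 7, 2⟩, ⟨7, 21, 9, 2, 7, 2⟩,
   ⟨9, 21, 7, 2, 7, 2⟩, ⟨10, 21, 9, 2, 7, 2⟩, ⟨11, 21, 9, 2, 7, 2⟩, ⟨15, 21, 9, 2, 7, 2⟩,
   ⟨16, 21, 9, 2, 6, 3⟩, ⟨17, 21, 9, 2, 5, 4⟩, ⟨18, 21, 9, 2, 7, 2⟩, ⟨19, 21, 9, 2, 7, 2⟩,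
   ⟨20, 21, 9, 2, 7, 2⟩, ⟨5, 22, 9, 2, 6, 3⟩, ⟨6, 22, 9, 2, 6, 3⟩, ⟨10, 22, 9, 2, 7, 2⟩,
   ⟨15, 22, 9, 2, 7, 3⟩, ⟨5, 23, 9, 2, 5, 4⟩, ⟨10, 23, 9, 3, 7, 3⟩, ⟨15, 23, 9, 2, 7, 2⟩,
   ⟨5, 24, 9, 2, 7, 2⟩, ⟨10, 24, 9, 2, 7, 2⟩, ⟨15, 24, 9, 2, 7, 2⟩, ⟨5, 25, 9, 2, 7, 2⟩,
   ⟨10, 25, 9, 2, 7, 2⟩, ⟨11, 25, 9, 2, 9, 2⟩, ⟨15, 25, 9, 2, 7, 2⟩, ⟨5, 26, 9, 2, 7, 2⟩,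
   ⟨9, 26, 9, 2, 7, 2⟩, ⟨10, 26, 9, 2, 7, 2⟩, ⟨15, 26, 9, 2, 7, 2⟩, ⟨5, 27, 9, 3, 7, 2⟩,
   ⟨15, 27, 9, 2, 7, 2⟩, ⟨5, 28, 9, 2, 7, 2⟩, ⟨15, 28, 9, 2, 7, 2⟩, ⟨5, 29, 9, 2, 7, 2⟩,
   ⟨6, 29, 9, 2, 9, 2⟩, ⟨9, 29, 7, 2, 7, 2⟩, ⟨10, 29, 9, 2, 7, 2⟩, ⟨15, 29, 9, 2, 7, 2⟩,
   ⟨5, 30, 9, 2, 7, 2⟩, ⟨7, 30, 9, 2, 9, 2⟩, ⟨10, 30, 9, 2, 7, 2⟩, ⟨15, 30, 9, 2, 7, 2⟩,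
   ⟨5, 31, 9, 2, 7, 2⟩, ⟨10, 31, 9, 2, 7, 3⟩, ⟨15, 31, 9, 2, 7, 2⟩, ⟨5, 32, 9, 2, 7, 2⟩,
   ⟨10, 32, 9, 2, 7, 2⟩, ⟨15, 32, 9, 2, 7, 2⟩, ⟨5, 33, 9, 2, 7, 2⟩, ⟨10, 33, 9, 2, 7, 2⟩,
   ⟨15, 33, 9, 2, 7, 2⟩, ⟨5, 34, 9, 2, 7, 2⟩, ⟨10, 34, 9, 2, 7, 2⟩, ⟨15, 34, 7, 2, 7, 2⟩,
   ⟨10, 35, 9, 2, 7, 2⟩, ⟨10, 36, 9, 2, 7, 2⟩, ⟨10, 37, 9, 2, 7, 2⟩, ⟨10, 38, 9, 2, 7, 2⟩]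

/-- family of the tile of type 2 in state 0 -/
def fam20 : List Ent :=
  [⟨9, 16, 7, 2, 9, 2⟩, ⟨9, 17, 7, 2, 9, 2⟩, ⟨9, 18, 7, 2, 9, 2⟩, ⟨9, 19, 7, 2, 9, 2⟩,
   ⟨9, 20, 7, 2, 9, 2⟩, ⟨10, 20, 6, 3, 9, 2⟩, ⟨11, 20, 5, 4, 9, 2⟩, ⟨12, 20, 7, 2, 9, 2⟩,
   ⟨13, 20, 7, 2, 9, 2⟩, ⟨14, 20, 7, 2, 9, 2⟩, ⟨15, 20, 7, 2, 9, 2⟩, ⟨16, 20, 7, 2, 9, 2⟩,
   ⟨17, 20, 7, 2, 9, 2⟩, ⟨18, 20, 7, 2, 9, 2⟩, ⟨19, 20, 7, 2, 9, 2⟩, ⟨20, 20, 7, 2, 9, 2⟩,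
   ⟨9, 21, 7, 2, 9, 2⟩, ⟨10, 21, 6, 3, 9, 2⟩, ⟨11, 21, 7, 2, 9, 2⟩, ⟨12, 21, 7, 2, 9, 2⟩,
   ⟨13, 21, 7, 2, 9, 2⟩, ⟨14, 21, 7, 2, 9, 2⟩, ⟨15, 21, 7, 2, 9, 2⟩, ⟨16, 21, 7, 2, 9, 2⟩,
   ⟨17, 21, 7, 2, 9, 2⟩, ⟨18, 21, 7, 2, 9, 2⟩, ⟨19, 21, 7, 2, 9, 2⟩, ⟨20, 21, 7, 2, 9, 2⟩,
   ⟨9, 22, 7, 2, 10, 3⟩, ⟨9, 23, 7, 2, 11, 4⟩, ⟨9, 24, 7, 2, 9, 2⟩, ⟨9, 25, 7, 2, 9, 2⟩,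
   ⟨9, 26, 7, 2, 9, 2⟩, ⟨9, 27, 7, 2, 9, 2⟩, ⟨9, 28, 7, 2, 9, 2⟩, ⟨9, 29, 7, 2, 9, 2⟩,
   ⟨9, 30, 7, 2, 9, 2⟩, ⟨9, 31, 7, 2, 9, 2⟩, ⟨9, 32, 7, 2, 9, 2⟩, ⟨9, 33, 7, 2, 9, 2⟩,
   ⟨9, 34, 7, 2, 9, 2⟩, ⟨9, 35, 7, 2, 9, 2⟩, ⟨9, 36, 7, 2, 9, 2⟩, ⟨9, 37, 7, 2, 9, 2⟩,
   ⟨9, 38, 7, 2, 9, 2⟩]

/-- family of the tile of type 2 in state 1 -/
def fam21 : List Ent :=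
  [⟨9, 16, 9, 2, 9, 2⟩, ⟨9, 17, 9, 2, 7, 2⟩, ⟨9, 18, 11, 4, 7, 2⟩, ⟨9, 19, 10, 3, 7, 2⟩,
   ⟨9, 20, 9, 2, 7, 2⟩, ⟨10, 20, 9, 2, 6, 3⟩, ⟨11, 20, 9, 2, 7, 2⟩, ⟨12, 20, 9, 2, 7, 2⟩,
   ⟨13, 20, 9, 2, 7, 2⟩, ⟨14, 20, 9, 2, 7, 2⟩, ⟨15, 20, 9, 2, 7, 2⟩, ⟨16, 20, 9, 2, 7, 2⟩,
   ⟨17, 20, 9, 2, 7, 2⟩, ⟨18, 20, 9, 2, 7, 2⟩, ⟨19, 20, 9, 2, 7, 2⟩, ⟨20, 20, 9, 2, 7, 2⟩,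
   ⟨9, 21, 9, 2, 7, 2⟩, ⟨10, 21, 9, 2, 6, 3⟩, ⟨11, 21, 9, 2, 5, 4⟩, ⟨12, 21, 9, 2, 7, 2⟩,
   ⟨13, 21, 9, 2, 7, 2⟩, ⟨14, 21, 9, 2, 7, 2⟩, ⟨15, 21, 9, 2, 7, 2⟩, ⟨16, 21, 9, 2, 7, 2⟩,
   ⟨17, 21, 9, 2, 7, 2⟩, ⟨18, 21, 9, 2, 7, 2⟩, ⟨19, 21, 9, 2, 7, 2⟩, ⟨20, 21, 9, 2, 7, 2⟩,
   ⟨9, 22, 9, 2, 7, 2⟩, ⟨9, 23, 9, 2, 7, 2⟩, ⟨9, 24, 9, 2, 7, 2⟩, ⟨9, 25, 9, 2, 7, 2⟩,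
   ⟨9, 26, 9, 2, 7, 2⟩, ⟨9, 27, 9, 2, 7, 2⟩, ⟨9, 28, 9, 2, 7, 2⟩, ⟨9, 29, 9, 2, 7, 2⟩,
   ⟨9, 30, 9, 2, 7, 2⟩, ⟨9, 31, 9, 2, 7, 2⟩, ⟨9, 32, 9, 2, 7, 2⟩, ⟨9, 33, 9, 2, 7, 2⟩,
   ⟨9, 34, 9, 2, 7, 2⟩, ⟨9, 35, 9, 2, 7, 2⟩, ⟨9, 36, 9, 2, 7, 2⟩, ⟨9, 37, 9, 2, 7, 2⟩,
   ⟨9, 38, 9, 2, 7, 2⟩]

/-- family of the tile of type 3 in state 0 -/
def fam30 : List Ent :=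
  [⟨9, 0, 7, 2, 9, 2⟩, ⟨9, 1, 7, 2, 9, 2⟩, ⟨9, 2, 7, 2, 9, 2⟩, ⟨9, 3, 7, 2, 9, 2⟩,
   ⟨4, 4, 7, 2, 9, 2⟩, ⟨9, 4, 7, 2, 9, 2⟩, ⟨4, 5, 7, 2, 9, 2⟩, ⟨9, 5, 7, 2, 9, 2⟩,
   ⟨4, 6, 7, 2, 9, 2⟩, ⟨9, 6, 7, 2, 9, 2⟩, ⟨4, 7, 7, 2, 9, 2⟩, ⟨9, 7, 6, 3, 9, 2⟩,
   ⟨4, 8, 7, 2, 9, 2⟩, ⟨9, 8, 7, 2, 9, 2⟩, ⟨4, 9, 7, 2, 9, 2⟩, ⟨6, 9, 7, 2, 7, 2⟩,
   ⟨7, 9, 7, 3, 9, 2⟩, ⟨8, 9, 7, 2, 10, 3⟩, ⟨4, 10, 7, 2, 9, 2⟩, ⟨6, 10, 7, 2, 9, 2⟩,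
   ⟨4, 11, 7, 2, 9, 2⟩, ⟨6, 11, 7, 2, 9, 3⟩, ⟨4, 12, 7, 2, 9, 2⟩, ⟨9, 12, 9, 2, 7, 2⟩,
   ⟨4, 13, 7, 2, 9, 2⟩, ⟨6, 13, 9, 2, 9, 2⟩, ⟨9, 13, 9, 2, 7, 2⟩, ⟨4, 14, 7, 2, 9, 2⟩,
   ⟨5, 14, 9, 2, 9, 2⟩, ⟨9, 14, 9, 2, 7, 2⟩, ⟨0, 15, 9, 2, 9, 2⟩, ⟨4, 15, 7, 2, 9, 2⟩,
   ⟨9, 15, 9, 2, 7, 2⟩, ⟨4, 16, 6, 3, 9, 3⟩, ⟨9, 16, 9, 2, 7, 2⟩, ⟨4, 17, 7, 2, 9, 2⟩,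
   ⟨9, 17, 9, 2, 7, 2⟩, ⟨0, 18, 9, 2, 11, 2⟩, ⟨3, 18, 7, 2, 10, 3⟩, ⟨9, 18, 11, 4, 7, 2⟩,
   ⟨9, 19, 10, 3, 7, 2⟩, ⟨9, 20, 9, 2, 7, 2⟩, ⟨10, 20, 9, 2, 6, 3⟩, ⟨11, 20, 9, 2, 7, 2⟩,
   ⟨12, 20, 9, 2, 7, 2⟩, ⟨13, 20, 9, 2, 7, 2⟩, ⟨14, 20, 9, 2, 7, 2⟩, ⟨15, 20, 9, 2, 7, 2⟩,
   ⟨16, 20, 9, 2, 7, 2⟩, ⟨17, 20, 9, 2, 7, 2⟩, ⟨18, 20, 9, 2, 7, 2⟩, ⟨19, 20, 9, 2, 7, 2⟩,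
   ⟨20, 20, 9, 2, 7, 2⟩, ⟨9, 21, 9, 2, 7, 2⟩, ⟨10, 21, 9, 2, 6, 3⟩, ⟨11, 21, 9, 2, 5, 4⟩,
   ⟨12, 21, 9, 2, 7, 2⟩, ⟨13, 21, 9, 2, 7, 2⟩, ⟨14, 21, 9, 2, 7, 2⟩, ⟨15, 21, 9, 2, 7, 2⟩,
   ⟨16, 21, 9, 2, 7, 2⟩, ⟨17, 21, 9, 2, 7, 2⟩, ⟨18, 21, 9, 2, 7, 2⟩, ⟨19, 21, 9, 2, 7, 2⟩,
   ⟨20, 21, 9, 2, 7, 2⟩, ⟨9, 22, 9, 2, 7, 2⟩, ⟨9, 23, 9, 2, 7, 2⟩, ⟨9, 24, 9, 2, 7, 2⟩,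
   ⟨9, 25, 7, 2, 7, 2⟩]

/-- family of the tile of type 3 in state 1 -/
def fam31 : List Ent :=
  [⟨9, 0, 9, 2, 7, 2⟩, ⟨9, 1, 9, 2, 7, 2⟩, ⟨9, 2, 9, 2, 7, 2⟩, ⟨9, 3, 9, 2, 7, 2⟩,
   ⟨4, 4, 7, 2, 9, 2⟩, ⟨9, 4, 9, 2, 7, 2⟩, ⟨4, 5, 7, 2, 9, 2⟩, ⟨9, 5, 9, 2, 7, 2⟩,
   ⟨4, 6, 7, 2, 9, 2⟩, ⟨9, 6, 9, 2, 7, 2⟩, ⟨4, 7, 7, 2, 9, 2⟩, ⟨9, 7, 9, 2, 7, 2⟩,
   ⟨4, 8, 7, 2, 9, 2⟩, ⟨9, 8, 9, 2, 7, 2⟩, ⟨4, 9, 7, 2, 9, 2⟩, ⟨6, 9, 9, 2, 7, 2⟩,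
   ⟨7, 9, 9, 2, 7, 2⟩, ⟨8, 9, 9, 2, 7, 2⟩, ⟨4, 10, 7, 2, 9, 2⟩, ⟨6, 10, 9, 2, 7, 2⟩,
   ⟨4, 11, 7, 2, 9, 2⟩, ⟨6, 11, 7, 2, 7, 2⟩, ⟨4, 12, 7, 2, 9, 2⟩, ⟨9, 12, 7, 2, 9, 2⟩,
   ⟨4, 13, 7, 2, 9, 2⟩, ⟨6, 13, 9, 2, 11, 2⟩, ⟨9, 13, 7, 2, 9, 2⟩, ⟨4, 14, 7, 2, 9, 2⟩,
   ⟨5, 14, 9, 2, 9, 2⟩, ⟨9, 14, 7, 2, 9, 2⟩, ⟨0, 15, 9, 2, 9, 2⟩, ⟨4, 15, 7, 2, 9, 2⟩,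
   ⟨9, 15, 7, 2, 9, 2⟩, ⟨4, 16, 6, 3, 9, 3⟩, ⟨9, 16, 7, 2, 9, 2⟩, ⟨4, 17, 9, 2, 9, 2⟩,
   ⟨9, 17, 7, 2, 9, 2⟩, ⟨0, 18, 9, 2, 11, 2⟩, ⟨3, 18, 9, 2, 10, 3⟩, ⟨9, 18, 7, 2, 9, 2⟩,
   ⟨9, 19, 7, 2, 9, 2⟩, ⟨9, 20, 7, 2, 9, 2⟩, ⟨10, 20, 6, 3, 9, 2⟩, ⟨11, 20, 5, 4, 9, 2⟩,
   ⟨12, 20, 7, 2, 9, 2⟩, ⟨13, 20, 7, 2, 9, 2⟩, ⟨14, 20, 7, 2, 9, 2⟩, ⟨15, 20, 7, 2, 9, 2⟩,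
   ⟨16, 20, 7, 2, 9, 2⟩, ⟨17, 20, 7, 2, 9, 2⟩, ⟨18, 20, 7, 2, 9, 2⟩, ⟨19, 20, 7, 2, 9, 2⟩,
   ⟨20, 20, 7, 2, 9, 2⟩, ⟨9, 21, 7, 2, 9, 2⟩, ⟨10, 21, 6, 3, 9, 2⟩, ⟨11, 21, 7, 2, 9, 2⟩,
   ⟨12, 21, 7, 2, 9, 2⟩, ⟨13, 21, 7, 2, 9, 2⟩, ⟨14, 21, 7, 2, 9, 2⟩, ⟨15, 21, 7, 2, 9, 2⟩,
   ⟨16, 21, 7, 2, 9, 2⟩, ⟨17, 21, 7, 2, 9, 2⟩, ⟨18, 21, 7, 2, 9, 2⟩, ⟨19, 21, 7, 2, 9, 2⟩,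
   ⟨20, 21, 7, 2, 9, 2⟩, ⟨9, 22, 7, 2, 10, 3⟩, ⟨9, 23, 7, 2, 11, 4⟩, ⟨9, 24, 7, 2, 9, 2⟩,
   ⟨9, 25, 7, 2, 9, 2⟩]

/-- family of the tile of type 4 in state 0 -/
def fam40 : List Ent :=
  [⟨0, 20, 7, 2, 9, 2⟩, ⟨1, 20, 7, 2, 9, 2⟩, ⟨2, 20, 7, 2, 9, 2⟩, ⟨3, 20, 7, 2, 9, 2⟩,
   ⟨4, 20, 7, 2, 9, 2⟩, ⟨5, 20, 7, 2, 9, 2⟩, ⟨6, 20, 7, 2, 9, 2⟩, ⟨7, 20, 7, 2, 9, 2⟩,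
   ⟨8, 20, 7, 2, 9, 2⟩, ⟨9, 20, 7, 2, 9, 2⟩, ⟨10, 20, 7, 2, 9, 2⟩, ⟨11, 20, 6, 3, 9, 2⟩,
   ⟨12, 20, 5, 4, 9, 2⟩, ⟨13, 20, 7, 2, 9, 2⟩, ⟨14, 20, 7, 2, 9, 2⟩, ⟨15, 20, 7, 2, 9, 2⟩,
   ⟨16, 20, 7, 2, 9, 2⟩, ⟨17, 20, 7, 2, 9, 2⟩, ⟨18, 20, 7, 2, 9, 2⟩, ⟨19, 20, 7, 2, 9, 2⟩,
   ⟨20, 20, 7, 2, 9, 2⟩, ⟨0, 21, 7, 2, 9, 2⟩, ⟨1, 21, 7, 2, 9, 2⟩, ⟨2, 21, 7, 2, 9, 2⟩,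
   ⟨3, 21, 7, 2, 9, 2⟩, ⟨4, 21, 7, 2, 9, 2⟩, ⟨5, 21, 7, 2, 9, 2⟩, ⟨6, 21, 7, 2, 9, 2⟩,
   ⟨7, 21, 7, 2, 9, 2⟩, ⟨8, 21, 7, 2, 9, 2⟩, ⟨9, 21, 7, 2, 9, 2⟩, ⟨10, 21, 7, 2, 9, 2⟩,
   ⟨11, 21, 6, 3, 9, 2⟩, ⟨12, 21, 7, 2, 9, 2⟩, ⟨13, 21, 7, 2, 9, 2⟩, ⟨14, 21, 7, 2, 9, 2⟩,
   ⟨15, 21, 7, 2, 9, 2⟩, ⟨16, 21, 7, 2, 9, 2⟩, ⟨17, 21, 7, 2, 9, 2⟩, ⟨18, 21, 7, 2, 9, 2⟩,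
   ⟨19, 21, 7, 2, 9, 2⟩, ⟨20, 21, 7, 2, 9, 2⟩, ⟨10, 22, 7, 2, 10, 3⟩, ⟨10, 23, 7, 2, 11, 4⟩,
   ⟨10, 24, 7, 2, 9, 2⟩, ⟨10, 25, 7, 2, 9, 2⟩, ⟨10, 26, 7, 2, 9, 2⟩, ⟨10, 27, 7, 2, 9, 2⟩,
   ⟨10, 28, 7, 2, 9, 2⟩, ⟨10, 29, 7, 2, 9, 2⟩, ⟨10, 30, 7, 2, 9, 2⟩, ⟨10, 31, 7, 2, 9, 2⟩,
   ⟨10, 32, 7, 2, 9, 2⟩, ⟨10, 33, 7, 2, 9, 2⟩, ⟨10, 34, 7, 2, 9, 2⟩, ⟨10, 35, 7, 2, 9, 2⟩,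
   ⟨10, 36, 7, 2, 9, 2⟩, ⟨10, 37, 7, 2, 9, 2⟩, ⟨10, 38, 7, 2, 9, 2⟩]

/-- family of the tile of type 5 in state 0 -/
def fam50 : List Ent :=
  [⟨4, 17, 7, 2, 7, 2⟩, ⟨4, 18, 7, 2, 9, 2⟩, ⟨4, 19, 7, 2, 9, 2⟩, ⟨4, 20, 7, 2, 9, 2⟩,
   ⟨5, 20, 6, 3, 9, 2⟩, ⟨6, 20, 5, 4, 9, 2⟩, ⟨7, 20, 7, 2, 9, 2⟩, ⟨8, 20, 7, 2, 9, 2⟩,
   ⟨9, 20, 7, 2, 9, 2⟩, ⟨10, 20, 7, 2, 9, 2⟩, ⟨11, 20, 7, 2, 9, 2⟩, ⟨12, 20, 7, 2, 9, 2⟩,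
   ⟨13, 20, 7, 2, 9, 2⟩, ⟨14, 20, 7, 2, 9, 2⟩, ⟨15, 20, 7, 2, 9, 2⟩, ⟨16, 20, 7, 2, 9, 2⟩,
   ⟨17, 20, 7, 2, 9, 2⟩, ⟨18, 20, 7, 2, 9, 2⟩, ⟨19, 20, 7, 2, 9, 2⟩, ⟨20, 20, 7, 2, 9, 2⟩,
   ⟨4, 21, 7, 2, 9, 2⟩, ⟨5, 21, 6, 3, 9, 2⟩, ⟨6, 21, 7, 2, 9, 2⟩, ⟨7, 21, 7, 2, 9, 2⟩,
   ⟨8, 21, 7, 2, 9, 2⟩, ⟨9, 21, 7, 2, 9, 2⟩, ⟨10, 21, 7, 2, 9, 2⟩, ⟨11, 21, 7, 2, 9, 2⟩,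
   ⟨12, 21, 7, 2, 9, 2⟩, ⟨13, 21, 7, 2, 9, 2⟩, ⟨14, 21, 7, 2, 9, 2⟩, ⟨15, 21, 7, 2, 9, 2⟩,
   ⟨16, 21, 7, 2, 9, 2⟩, ⟨17, 21, 7, 2, 9, 2⟩, ⟨18, 21, 7, 2, 9, 2⟩, ⟨19, 21, 7, 2, 9, 2⟩,
   ⟨20, 21, 7, 2, 9, 2⟩, ⟨4, 22, 7, 2, 10, 3⟩, ⟨4, 23, 7, 2, 11, 4⟩, ⟨0, 24, 9, 2, 9, 2⟩,
   ⟨4, 24, 7, 2, 9, 2⟩, ⟨4, 25, 6, 3, 9, 2⟩, ⟨4, 26, 9, 2, 9, 2⟩, ⟨0, 27, 9, 2, 11, 2⟩,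
   ⟨3, 27, 9, 2, 10, 3⟩]

/-- family of the tile of type 6 in state 0 -/
def fam60 : List Ent :=
  [⟨10, 0, 9, 2, 7, 2⟩, ⟨10, 1, 9, 2, 7, 2⟩, ⟨10, 2, 9, 2, 7, 2⟩, ⟨10, 3, 9, 2, 7, 2⟩,
   ⟨10, 4, 9, 2, 7, 2⟩, ⟨10, 5, 9, 2, 7, 2⟩, ⟨10, 6, 9, 2, 7, 2⟩, ⟨10, 7, 9, 2, 7, 2⟩,
   ⟨10, 8, 9, 2, 7, 2⟩, ⟨10, 9, 9, 2, 7, 2⟩, ⟨10, 10, 9, 2, 7, 2⟩, ⟨10, 11, 9, 2, 7, 2⟩,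
   ⟨10, 12, 9, 2, 7, 2⟩, ⟨10, 13, 9, 2, 7, 2⟩, ⟨10, 14, 9, 2, 7, 2⟩, ⟨10, 15, 9, 2, 7, 2⟩,
   ⟨10, 16, 9, 2, 7, 2⟩, ⟨10, 17, 9, 2, 7, 2⟩, ⟨10, 18, 11, 4, 7, 2⟩, ⟨10, 19, 10, 3, 7, 2⟩,
   ⟨0, 20, 9, 2, 7, 2⟩, ⟨1, 20, 9, 2, 7, 2⟩, ⟨2, 20, 9, 2, 7, 2⟩, ⟨3, 20, 9, 2, 7, 2⟩,
   ⟨4, 20, 9, 2, 7, 2⟩, ⟨5, 20, 9, 2, 7, 2⟩, ⟨6, 20, 9, 2, 7, 2⟩, ⟨7, 20, 9, 2, 7, 2⟩,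
   ⟨8, 20, 9, 2, 7, 2⟩, ⟨9, 20, 9, 2, 7, 2⟩, ⟨10, 20, 9, 2, 7, 2⟩, ⟨11, 20, 9, 2, 6, 3⟩,
   ⟨12, 20, 9, 2, 7, 2⟩, ⟨13, 20, 9, 2, 7, 2⟩, ⟨14, 20, 9, 2, 7, 2⟩, ⟨15, 20, 9, 2, 7, 2⟩,
   ⟨16, 20, 9, 2, 7, 2⟩, ⟨17, 20, 9, 2, 7, 2⟩, ⟨18, 20, 9, 2, 7, 2⟩, ⟨19, 20, 9, 2, 7, 2⟩,
   ⟨20, 20, 9, 2, 7, 2⟩, ⟨0, 21, 9, 2, 7, 2⟩, ⟨1, 21, 9, 2, 7, 2⟩, ⟨2, 21, 9, 2, 7, 2⟩,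
   ⟨3, 21, 9, 2, 7, 2⟩, ⟨4, 21, 9, 2, 7, 2⟩, ⟨5, 21, 9, 2, 7, 2⟩, ⟨6, 21, 9, 2, 7, 2⟩,
   ⟨7, 21, 9, 2, 7, 2⟩, ⟨8, 21, 9, 2, 7, 2⟩, ⟨9, 21, 9, 2, 7, 2⟩, ⟨10, 21, 9, 2, 7, 2⟩,
   ⟨11, 21, 9, 2, 6, 3⟩, ⟨12, 21, 9, 2, 5, 4⟩, ⟨13, 21, 9, 2, 7, 2⟩, ⟨14, 21, 9, 2, 7, 2⟩,
   ⟨15, 21, 9, 2, 7, 2⟩, ⟨16, 21, 9, 2, 7, 2⟩, ⟨17, 21, 9, 2, 7, 2⟩, ⟨18, 21, 9, 2, 7, 2⟩,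
   ⟨19, 21, 9, 2, 7, 2⟩, ⟨20, 21, 9, 2, 7, 2⟩]

/-- family of the tile of type 7 in state 0 -/
def fam70 : List Ent :=
  [⟨4, 12, 9, 2, 7, 2⟩, ⟨4, 13, 9, 2, 7, 2⟩, ⟨0, 14, 9, 2, 9, 2⟩, ⟨3, 14, 10, 3, 7, 2⟩,
   ⟨4, 14, 9, 2, 7, 2⟩, ⟨4, 15, 9, 2, 7, 2⟩, ⟨4, 16, 9, 2, 6, 3⟩, ⟨0, 17, 9, 2, 11, 2⟩,
   ⟨4, 17, 9, 2, 7, 2⟩, ⟨4, 18, 11, 4, 7, 2⟩, ⟨4, 19, 10, 3, 7, 2⟩, ⟨4, 20, 9, 2, 7, 2⟩,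
   ⟨5, 20, 9, 2, 6, 3⟩, ⟨6, 20, 9, 2, 7, 2⟩, ⟨7, 20, 9, 2, 7, 2⟩, ⟨8, 20, 9, 2, 7, 2⟩,
   ⟨9, 20, 9, 2, 7, 2⟩, ⟨10, 20, 9, 2, 7, 2⟩, ⟨11, 20, 9, 2, 7, 2⟩, ⟨12, 20, 9, 2, 7, 2⟩,
   ⟨13, 20, 9, 2, 7, 2⟩, ⟨14, 20, 9, 2, 7, 2⟩, ⟨15, 20, 9, 2, 7, 2⟩, ⟨16, 20, 9, 2, 7, 2⟩,
   ⟨17, 20, 9, 2, 7, 2⟩, ⟨18, 20, 9, 2, 7, 2⟩, ⟨19, 20, 9, 2, 7, 2⟩, ⟨20, 20, 9, 2, 7, 2⟩,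
   ⟨4, 21, 9, 2, 7, 2⟩, ⟨5, 21, 9, 2, 6, 3⟩, ⟨6, 21, 9, 2, 5, 4⟩, ⟨7, 21, 9, 2, 7, 2⟩,
   ⟨8, 21, 9, 2, 7, 2⟩, ⟨9, 21, 9, 2, 7, 2⟩, ⟨10, 21, 9, 2, 7, 2⟩, ⟨11, 21, 9, 2, 7, 2⟩,
   ⟨12, 21, 9, 2, 7, 2⟩, ⟨13, 21, 9, 2, 7, 2⟩, ⟨14, 21, 9, 2, 7, 2⟩, ⟨15, 21, 9, 2, 7, 2⟩,
   ⟨16, 21, 9, 2, 7, 2⟩, ⟨17, 21, 9, 2, 7, 2⟩, ⟨18, 21, 9, 2, 7, 2⟩, ⟨19, 21, 9, 2, 7, 2⟩,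
   ⟨20, 21, 9, 2, 7, 2⟩, ⟨4, 22, 9, 2, 7, 2⟩, ⟨4, 23, 7, 2, 7, 2⟩]

/-- the families -/
def fam (t s : ℕ) : List Ent :=
  if t = 0 then (if s = 0 then fam00 else if s = 1 then fam01 else if s = 2 then fam02 else fam03)
  else if t = 1 then (if s = 0 then fam10 else if s = 1 then fam11 else if s = 2 then fam12 else fam13)
  else if t = 2 then (if s = 0 then fam20 else fam21)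
  else if t = 3 then (if s = 0 then fam30 else fam31)
  else if t = 4 then fam40 else if t = 5 then fam50 else if t = 6 then fam60 else fam70

/-- claim rb of the tile of type 0 -/
def cl0_rb : Claim :=
  ⟨false, [((20, 20), true), ((15, 14), false)],
   [((15, 14), true), ((15, 15), true), ((15, 16), true), ((15, 16), false), ((15, 17), true),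
    ((15, 17), false), ((15, 18), true), ((15, 18), false), ((15, 19), true), ((15, 19), false),
    ((15, 20), false), ((15, 21), false), ((16, 21), false), ((17, 21), false), ((18, 21), false),
    ((19, 21), false), ((20, 20), true), ((20, 21), false)],
   .run
     [⟨3, 0, 0, [30]⟩, ⟨17, 16, 30, [0]⟩, ⟨1, 3, 0, [30]⟩, ⟨15, 17, 30, [0]⟩, ⟨5, 1, 0, [30]⟩,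
      ⟨14, 15, 30, [0]⟩, ⟨2, 5, 0, [30]⟩, ⟨13, 14, 30, [0]⟩, ⟨7, 2, 0, [30]⟩, ⟨12, 13, 30, [0]⟩,
      ⟨4, 7, 0, [30]⟩, ⟨11, 12, 30, [0]⟩, ⟨9, 4, 0, [30]⟩, ⟨8, 11, 30, [0]⟩, ⟨6, 9, 0, [30]⟩,
      ⟨10, 8, 30, [0]⟩, ⟨10, 6, 0, [30]⟩]
      (.stop 10)⟩

/-- claim al of the tile of type 0 -/
def cl0_al : Claim :=
  ⟨false, [((5, 14), true), ((-1, 20), false)],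
   [((-1, 20), true), ((-1, 21), false), ((0, 21), false), ((1, 21), false), ((2, 21), false),
    ((3, 21), false), ((4, 21), false), ((5, 14), true), ((5, 15), true), ((5, 16), true),
    ((5, 16), false), ((5, 17), true), ((5, 17), false), ((5, 18), true), ((5, 18), false),
    ((5, 19), true), ((5, 19), false), ((5, 20), false), ((5, 21), false)],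
   .run
     [⟨1, 0, 0, [30]⟩, ⟨10, 7, 30, [0]⟩, ⟨2, 1, 0, [30]⟩, ⟨3, 2, 0, [30]⟩, ⟨4, 3, 0, [30]⟩,
      ⟨5, 4, 0, [30]⟩, ⟨6, 5, 0, [30]⟩, ⟨18, 6, 0, [30]⟩, ⟨8, 10, 30, [0]⟩, ⟨15, 18, 0, [30]⟩,
      ⟨12, 8, 30, [0]⟩, ⟨17, 15, 0, [30]⟩, ⟨13, 17, 0, [30]⟩, ⟨9, 12, 30, [0]⟩, ⟨14, 9, 30, [0]⟩,
      ⟨16, 13, 0, [30]⟩, ⟨11, 14, 30, [0]⟩, ⟨11, 16, 0, [30]⟩]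
      (.stop 11)⟩

/-- claim P1 of the tile of type 0 -/
def cl0_P1 : Claim :=
  ⟨false, [((5, 14), false), ((15, 14), true), ((10, 14), true)],
   [((2, 20), true), ((3, 20), true), ((3, 21), false), ((4, 20), true), ((4, 20), false),
    ((4, 21), true), ((5, 12), true), ((5, 13), true), ((5, 13), false), ((5, 14), true),
    ((5, 14), false), ((5, 15), true), ((5, 15), false), ((5, 16), true), ((5, 16), false),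
    ((5, 17), true), ((5, 17), false), ((5, 18), true), ((5, 18), false), ((5, 19), true),
    ((5, 19), false), ((5, 20), true), ((5, 20), false), ((5, 21), true), ((5, 21), false),
    ((5, 22), true), ((5, 22), false), ((5, 23), false), ((6, 13), false), ((6, 22), false),
    ((7, 12), false), ((7, 16), true), ((7, 18), true), ((7, 18), false), ((7, 19), false),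
    ((7, 21), true), ((7, 21), false), ((8, 12), false), ((8, 17), true), ((8, 17), false),
    ((9, 18), true), ((9, 18), false), ((10, 11), true), ((10, 12), true), ((10, 13), true),
    ((10, 13), false), ((10, 14), true), ((10, 14), false), ((10, 15), true), ((10, 15), false),
    ((10, 16), true), ((10, 16), false), ((10, 17), true), ((10, 17), false), ((10, 18), true),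
    ((10, 18), false), ((10, 21), false), ((11, 11), true), ((11, 12), false), ((11, 21), false),
    ((14, 20), false), ((15, 14), true), ((15, 15), true), ((15, 16), true), ((15, 16), false),
    ((15, 17), true), ((15, 17), false), ((15, 18), true), ((15, 18), false), ((15, 19), true),
    ((15, 19), false), ((15, 20), false)],
   .run
     [⟨49, 46, 30, [0]⟩, ⟨51, 46, 30, [0]⟩, ⟨64, 61, 30, [0]⟩, ⟨12, 9, 0, [30]⟩, ⟨14, 9, 0, [30]⟩,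
      ⟨48, 51, 30, [0]⟩, ⟨7, 12, 0, [30]⟩, ⟨10, 7, 0, [30]⟩, ⟨62, 64, 30, [0]⟩, ⟨66, 62, 30, [0]⟩,
      ⟨44, 49, 30, [0]⟩, ⟨11, 14, 0, [30]⟩, ⟨39, 14, 18, [30]⟩, ⟨53, 48, 30, [0]⟩,
      ⟨33, 53, 48, [0]⟩, ⟨41, 53, 31, [0]⟩, ⟨50, 53, 30, [0]⟩, ⟨16, 11, 0, [30]⟩,
      ⟨39, 11, 25, [30]⟩, ⟨47, 44, 30, [0]⟩, ⟨6, 10, 0, [30]⟩, ⟨31, 39, 17, [1, 30]⟩,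
      ⟨63, 66, 30, [0]⟩, ⟨43, 47, 30, [0]⟩, ⟨13, 16, 0, [30]⟩, ⟨33, 50, 55, [0]⟩,
      ⟨41, 50, 47, [0]⟩, ⟨55, 50, 30, [0]⟩, ⟨8, 6, 0, [30]⟩, ⟨34, 55, 48, [0]⟩, ⟨52, 55, 30, [0]⟩,
      ⟨18, 13, 0, [30]⟩, ⟨41, 31, 17, [1, 30]⟩, ⟨68, 63, 30, [0]⟩, ⟨28, 8, 0, [30]⟩,
      ⟨45, 8, 25, [30]⟩, ⟨45, 43, 30, [0]⟩, ⟨57, 43, 31, [0]⟩, ⟨38, 41, 17, [1]⟩,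
      ⟨39, 41, 30, [1]⟩, ⟨15, 18, 0, [30]⟩, ⟨38, 33, 47, [0, 31]⟩, ⟨65, 68, 30, [0]⟩,
      ⟨34, 52, 55, [0]⟩, ⟨28, 45, 55, [0]⟩, ⟨37, 45, 47, [1, 18]⟩, ⟨42, 45, 30, [0]⟩,
      ⟨57, 45, 47, [0]⟩, ⟨20, 15, 0, [30]⟩, ⟨32, 38, 25, [1, 31]⟩, ⟨40, 38, 55, [1, 31]⟩,
      ⟨60, 38, 28, [1, 31]⟩, ⟨33, 39, 31, [0]⟩, ⟨58, 57, 30, [0]⟩, ⟨70, 65, 30, [0]⟩,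
      ⟨17, 20, 0, [30]⟩, ⟨22, 34, 48, [0, 31]⟩, ⟨28, 37, 48, [0, 31]⟩, ⟨22, 17, 0, [30]⟩,
      ⟨60, 32, 29, [1, 18, 30]⟩, ⟨22, 40, 55, [0, 31, 48]⟩, ⟨71, 60, 27, [1, 18, 26, 30]⟩,
      ⟨40, 71, 27, [1, 18, 26, 30]⟩, ⟨31, 33, 30, [0]⟩, ⟨60, 70, 31, [0]⟩, ⟨67, 70, 30, [0]⟩,
      ⟨30, 28, 0, [31]⟩, ⟨37, 30, 0, [30]⟩, ⟨4, 22, 47, [31]⟩, ⟨19, 22, 0, [30]⟩,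
      ⟨19, 4, 47, [0, 31]⟩, ⟨60, 67, 47, [0]⟩, ⟨71, 67, 30, [0]⟩, ⟨34, 31, 31, [1]⟩,
      ⟨38, 31, 30, [1]⟩, ⟨36, 60, 58, [0]⟩, ⟨59, 60, 48, [0]⟩, ⟨58, 37, 17, [30]⟩,
      ⟨0, 19, 25, [31]⟩, ⟨1, 19, 17, [31]⟩, ⟨2, 19, 47, [31]⟩, ⟨3, 19, 0, [31]⟩,
      ⟨21, 19, 47, [31]⟩, ⟨24, 19, 0, [30]⟩, ⟨26, 19, 1, [31]⟩, ⟨29, 19, 18, [31]⟩,
      ⟨42, 58, 17, [1]⟩, ⟨3, 2, 47, [0, 31]⟩, ⟨69, 71, 30, [0]⟩, ⟨36, 69, 59, [0]⟩,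
      ⟨59, 69, 55, [0]⟩, ⟨21, 24, 0, [30]⟩, ⟨29, 24, 1, [30]⟩, ⟨32, 34, 30, [0]⟩,
      ⟨40, 38, 30, [1]⟩, ⟨29, 0, 25, [1, 18, 30]⟩, ⟨26, 1, 17, [1, 30]⟩, ⟨5, 3, 47, [31]⟩,
      ⟨5, 21, 0, [31]⟩, ⟨23, 21, 47, [31]⟩, ⟨27, 21, 1, [31]⟩, ⟨43, 42, 17, [1]⟩,
      ⟨36, 40, 56, [1, 18, 26]⟩, ⟨54, 40, 30, [0]⟩, ⟨56, 59, 47, [0, 31]⟩, ⟨23, 26, 0, [30]⟩,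
      ⟨27, 5, 17, [30]⟩, ⟨35, 5, 55, [31]⟩, ⟨25, 23, 47, [31]⟩, ⟨25, 27, 0, [30]⟩,
      ⟨44, 43, 17, [1]⟩, ⟨35, 25, 48, [31]⟩, ⟨46, 44, 17, [1]⟩, ⟨29, 35, 47, [0, 31]⟩,
      ⟨48, 46, 17, [1]⟩, ⟨36, 29, 0, [31]⟩, ⟨50, 48, 17, [1]⟩, ⟨56, 36, 17, [30]⟩,
      ⟨52, 50, 17, [1]⟩, ⟨54, 52, 17, [1]⟩, ⟨40, 54, 17, [1]⟩, ⟨56, 54, 31, [1]⟩,
      ⟨36, 40, 48, [1]⟩, ⟨32, 56, 18, [1]⟩, ⟨32, 36, 1, [31]⟩]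
      (.stop 32)⟩

/-- claim Q1 of the tile of type 0 -/
def cl0_Q1 : Claim :=
  ⟨false, [((5, 14), false), ((15, 14), true), ((10, 14), false)],
   [((5, 7), true), ((5, 8), true), ((5, 8), false), ((5, 9), true), ((5, 9), false),
    ((5, 10), true), ((5, 10), false), ((5, 11), true), ((5, 11), false), ((5, 12), true),
    ((5, 12), false), ((5, 13), true), ((5, 13), false), ((5, 14), true), ((5, 14), false),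
    ((5, 15), false), ((6, 13), false), ((7, 12), false), ((8, 7), true), ((8, 12), false),
    ((9, 6), true), ((10, 6), true), ((10, 7), true), ((10, 8), true), ((10, 8), false),
    ((10, 11), true), ((10, 11), false), ((10, 12), true), ((10, 12), false), ((10, 13), true),
    ((10, 13), false), ((10, 14), true), ((10, 14), false), ((10, 15), false), ((11, 8), true),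
    ((11, 8), false), ((11, 11), false), ((11, 12), false), ((12, 7), true), ((12, 7), false),
    ((13, 6), true), ((13, 8), true), ((13, 8), false), ((13, 9), true), ((13, 9), false),
    ((13, 11), false), ((14, 12), false), ((15, 6), true), ((15, 7), false), ((15, 8), true),
    ((15, 9), true), ((15, 9), false), ((15, 10), true), ((15, 10), false), ((15, 11), true),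
    ((15, 11), false), ((15, 12), true), ((15, 12), false), ((15, 13), true), ((15, 13), false),
    ((15, 14), true), ((15, 14), false), ((15, 15), false)],
   .run
     [⟨62, 60, 30, [0]⟩, ⟨33, 31, 0, [30]⟩, ⟨15, 13, 0, [30]⟩, ⟨11, 15, 0, [30]⟩,
      ⟨29, 33, 0, [30]⟩, ⟨58, 62, 30, [0]⟩, ⟨61, 58, 30, [0]⟩, ⟨14, 11, 0, [30]⟩,
      ⟨32, 29, 0, [30]⟩, ⟨56, 61, 30, [0]⟩, ⟨27, 32, 0, [30]⟩, ⟨59, 56, 30, [0]⟩, ⟨9, 14, 0, [30]⟩,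
      ⟨12, 9, 0, [30]⟩, ⟨30, 27, 0, [30]⟩, ⟨30, 59, 55, [0]⟩, ⟨54, 59, 30, [0]⟩, ⟨7, 12, 0, [30]⟩,
      ⟨16, 12, 0, [30]⟩, ⟨10, 7, 0, [30]⟩, ⟨16, 30, 59, [31, 48]⟩, ⟨25, 30, 0, [30]⟩,
      ⟨28, 30, 57, [31, 48]⟩, ⟨16, 28, 58, [0, 31, 48, 56]⟩, ⟨46, 54, 47, [0]⟩, ⟨57, 54, 30, [0]⟩,
      ⟨5, 10, 0, [30]⟩, ⟨8, 5, 0, [30]⟩, ⟨28, 25, 0, [30]⟩, ⟨37, 46, 55, [0, 31]⟩,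
      ⟨19, 57, 57, [0]⟩, ⟨28, 57, 55, [0]⟩, ⟨46, 57, 30, [0]⟩, ⟨52, 57, 30, [0]⟩,
      ⟨37, 28, 0, [30]⟩, ⟨45, 37, 17, [31, 48]⟩, ⟨46, 37, 17, [30]⟩, ⟨55, 52, 30, [0]⟩,
      ⟨3, 8, 0, [30]⟩, ⟨45, 46, 30, [1]⟩, ⟨57, 46, 17, [1]⟩, ⟨6, 3, 0, [30]⟩, ⟨19, 45, 56, [0]⟩,
      ⟨26, 45, 47, [0]⟩, ⟨28, 45, 48, [0]⟩, ⟨36, 45, 47, [0]⟩, ⟨41, 45, 31, [1]⟩,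
      ⟨43, 45, 30, [0]⟩, ⟨50, 55, 30, [0]⟩, ⟨55, 57, 17, [1]⟩, ⟨16, 28, 56, [31]⟩,
      ⟨36, 28, 0, [31]⟩, ⟨1, 6, 0, [30]⟩, ⟨19, 26, 48, [0, 31]⟩, ⟨53, 50, 30, [0]⟩,
      ⟨49, 53, 30, [0]⟩, ⟨43, 55, 17, [1]⟩, ⟨53, 55, 17, [1]⟩, ⟨34, 36, 1, [31]⟩, ⟨4, 1, 0, [30]⟩,
      ⟨16, 19, 48, [0, 31]⟩, ⟨51, 49, 30, [0]⟩, ⟨34, 43, 18, [1]⟩, ⟨34, 53, 25, [1]⟩,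
      ⟨38, 53, 18, [1]⟩, ⟨51, 53, 17, [1]⟩, ⟨0, 4, 0, [30]⟩, ⟨12, 16, 47, [31]⟩, ⟨17, 16, 0, [31]⟩,
      ⟨19, 17, 0, [30]⟩, ⟨38, 51, 25, [1]⟩, ⟨42, 51, 47, [1]⟩, ⟨47, 51, 31, [1]⟩,
      ⟨22, 34, 1, [30]⟩, ⟨23, 34, 0, [30]⟩, ⟨44, 34, 25, [30]⟩, ⟨21, 38, 18, [1, 30]⟩,
      ⟨42, 38, 17, [1, 30]⟩, ⟨2, 0, 0, [30]⟩, ⟨10, 12, 47, [31]⟩, ⟨8, 10, 47, [31]⟩,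
      ⟨26, 19, 17, [31]⟩, ⟨21, 42, 25, [1, 30]⟩, ⟨47, 42, 47, [0, 31]⟩, ⟨6, 8, 47, [31]⟩,
      ⟨48, 47, 30, [0]⟩, ⟨20, 21, 17, [1, 30]⟩, ⟨39, 48, 47, [0]⟩, ⟨4, 6, 47, [31]⟩,
      ⟨18, 6, 48, [31]⟩, ⟨2, 4, 47, [31]⟩, ⟨18, 4, 55, [31]⟩, ⟨21, 4, 56, [31]⟩,
      ⟨35, 20, 17, [1, 30]⟩, ⟨22, 35, 17, [1, 30]⟩, ⟨44, 35, 18, [1, 30]⟩, ⟨40, 39, 47, [0, 31]⟩,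
      ⟨21, 18, 48, [0, 31]⟩, ⟨35, 40, 47, [0, 31]⟩, ⟨21, 2, 57, [31]⟩, ⟨24, 22, 0, [30]⟩,
      ⟨21, 24, 0, [30]⟩, ⟨35, 24, 0, [30]⟩, ⟨38, 35, 47, [31]⟩, ⟨39, 35, 0, [31]⟩,
      ⟨42, 39, 1, [30]⟩, ⟨40, 42, 0, [30]⟩, ⟨22, 21, 47, [31]⟩, ⟨41, 38, 55, [1, 31]⟩,
      ⟨44, 40, 1, [31]⟩, ⟨23, 22, 47, [31]⟩, ⟨41, 44, 0, [30]⟩, ⟨26, 23, 1, [31]⟩,
      ⟨26, 41, 31, [48]⟩]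
      (.stop 26)⟩

/-- claim P2 of the tile of type 0 -/
def cl0_P2 : Claim :=
  ⟨false, [((10, 40), true), ((10, 14), false)],
   [((2, 20), true), ((2, 21), false), ((3, 20), true), ((3, 20), false), ((3, 21), false),
    ((4, 20), true), ((4, 20), false), ((4, 21), false), ((5, 16), true), ((5, 17), true),
    ((5, 18), true), ((5, 18), false), ((5, 19), true), ((5, 19), false), ((5, 20), true),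
    ((5, 20), false), ((5, 21), false), ((5, 22), false), ((6, 22), false), ((7, 16), true),
    ((7, 19), true), ((7, 19), false), ((7, 21), false), ((8, 17), true), ((8, 17), false),
    ((9, 18), true), ((9, 18), false), ((9, 21), false), ((10, 14), true), ((10, 15), true),
    ((10, 16), true), ((10, 16), false), ((10, 17), true), ((10, 17), false), ((10, 18), false),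
    ((10, 21), true), ((10, 22), true), ((10, 22), false), ((10, 23), true), ((10, 23), false),
    ((10, 24), true), ((10, 24), false), ((10, 25), true), ((10, 25), false), ((10, 26), true),
    ((10, 26), false), ((10, 27), true), ((10, 27), false), ((10, 28), true), ((10, 28), false),
    ((10, 29), true), ((10, 29), false), ((10, 30), true), ((10, 30), false), ((10, 31), true),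
    ((10, 31), false), ((10, 32), true), ((10, 32), false), ((10, 33), true), ((10, 33), false),
    ((10, 34), true), ((10, 34), false), ((10, 35), true), ((10, 35), false), ((10, 36), true),
    ((10, 36), false), ((10, 37), true), ((10, 37), false), ((10, 38), true), ((10, 38), false),
    ((10, 39), true), ((10, 39), false), ((10, 40), true), ((10, 40), false), ((10, 41), false)],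
   .run
     [⟨31, 28, 0, [30]⟩, ⟨74, 72, 30, [0]⟩, ⟨29, 31, 0, [30]⟩, ⟨70, 74, 30, [0]⟩,
      ⟨33, 29, 0, [30]⟩, ⟨73, 70, 30, [0]⟩, ⟨30, 33, 0, [30]⟩, ⟨68, 73, 30, [0]⟩,
      ⟨19, 30, 17, [30]⟩, ⟨34, 30, 0, [30]⟩, ⟨71, 68, 30, [0]⟩, ⟨32, 34, 0, [30]⟩,
      ⟨66, 71, 30, [0]⟩, ⟨69, 66, 30, [0]⟩, ⟨64, 69, 30, [0]⟩, ⟨67, 64, 30, [0]⟩,
      ⟨62, 67, 30, [0]⟩, ⟨65, 62, 30, [0]⟩, ⟨60, 65, 30, [0]⟩, ⟨63, 60, 30, [0]⟩,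
      ⟨58, 63, 30, [0]⟩, ⟨61, 58, 30, [0]⟩, ⟨56, 61, 30, [0]⟩, ⟨59, 56, 30, [0]⟩,
      ⟨54, 59, 30, [0]⟩, ⟨57, 54, 30, [0]⟩, ⟨52, 57, 30, [0]⟩, ⟨55, 52, 30, [0]⟩,
      ⟨50, 55, 30, [0]⟩, ⟨53, 50, 30, [0]⟩, ⟨48, 53, 30, [0]⟩, ⟨51, 48, 30, [0]⟩,
      ⟨46, 51, 30, [0]⟩, ⟨49, 46, 30, [0]⟩, ⟨44, 49, 30, [0]⟩, ⟨47, 44, 30, [0]⟩,
      ⟨42, 47, 30, [0]⟩, ⟨45, 42, 30, [0]⟩, ⟨40, 45, 30, [0]⟩, ⟨43, 40, 30, [0]⟩,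
      ⟨38, 43, 30, [0]⟩, ⟨41, 38, 30, [0]⟩, ⟨36, 41, 30, [0]⟩, ⟨39, 36, 30, [0]⟩,
      ⟨35, 39, 30, [0]⟩, ⟨37, 35, 30, [0]⟩, ⟨18, 37, 55, [0]⟩]
      (.br 32 1073217536 (.run
     [⟨21, 32, 55, [31]⟩, ⟨25, 32, 0, [31]⟩, ⟨26, 32, 47, [31]⟩, ⟨25, 21, 55, [0, 31, 48]⟩,
      ⟨10, 25, 25, [30]⟩, ⟨15, 25, 55, [31, 48]⟩, ⟨20, 25, 17, [31, 48]⟩, ⟨21, 26, 48, [0, 31]⟩,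
      ⟨20, 15, 55, [0, 31, 48]⟩, ⟨4, 20, 55, [0, 31, 48]⟩, ⟨10, 20, 18, [1, 30]⟩,
      ⟨14, 20, 27, [1, 31, 48]⟩, ⟨27, 20, 17, [1, 30]⟩, ⟨15, 21, 48, [0, 31]⟩,
      ⟨5, 14, 27, [1, 18, 26, 30]⟩, ⟨4, 15, 48, [0, 31]⟩, ⟨6, 15, 47, [0, 31]⟩,
      ⟨22, 5, 27, [1, 18, 26, 30]⟩, ⟨37, 5, 27, [1, 18, 26, 30]⟩, ⟨5, 4, 47, [0, 31]⟩,
      ⟨3, 6, 47, [0, 31]⟩, ⟨14, 5, 47, [0, 31]⟩, ⟨10, 3, 47, [0, 31]⟩, ⟨20, 14, 48, [0, 31]⟩,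
      ⟨25, 20, 48, [0, 31]⟩, ⟨27, 25, 1, [31]⟩, ⟨37, 27, 1, [30]⟩, ⟨22, 37, 30, [18, 26]⟩,
      ⟨20, 22, 30, [0]⟩, ⟨37, 20, 18, [1]⟩, ⟨12, 37, 1, [26]⟩, ⟨16, 37, 30, [26]⟩,
      ⟨22, 37, 1, [26]⟩, ⟨22, 37, 18, [26]⟩, ⟨12, 16, 30, [0]⟩, ⟨10, 22, 31, [26]⟩,
      ⟨12, 10, 17, [1]⟩]
      (.stop 12))
      (.run
     [⟨23, 32, 0, [47]⟩, ⟨30, 32, 31, [47]⟩, ⟨19, 23, 1, [30]⟩, ⟨29, 30, 31, [47]⟩,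
      ⟨24, 29, 0, [47]⟩, ⟨24, 29, 31, [47]⟩]
      (.br 24 33285996544 (.run
     [⟨11, 24, 56, [48]⟩, ⟨30, 24, 55, [48]⟩, ⟨11, 30, 57, [48]⟩, ⟨23, 30, 31, [48]⟩,
      ⟨23, 11, 57, [0, 31, 48]⟩, ⟨10, 23, 0, [48, 56]⟩, ⟨15, 10, 0, [30]⟩, ⟨12, 15, 0, [30]⟩,
      ⟨16, 12, 0, [30]⟩, ⟨0, 16, 27, [30]⟩, ⟨5, 16, 17, [30]⟩, ⟨14, 16, 0, [30]⟩,
      ⟨18, 16, 1, [30]⟩, ⟨37, 16, 26, [30]⟩, ⟨37, 16, 28, [30]⟩, ⟨37, 0, 29, [1, 18, 26, 30]⟩,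
      ⟨18, 5, 17, [1, 30]⟩, ⟨5, 14, 0, [30]⟩, ⟨17, 14, 0, [30]⟩, ⟨2, 5, 0, [30]⟩, ⟨7, 5, 0, [30]⟩,
      ⟨0, 2, 0, [30]⟩, ⟨4, 2, 0, [30]⟩, ⟨1, 0, 0, [30]⟩]
      (.br 37 2047 (.run
     [⟨27, 37, 30, [1]⟩, ⟨7, 27, 55, [0]⟩, ⟨18, 27, 48, [0]⟩, ⟨4, 7, 55, [31, 48]⟩,
      ⟨17, 18, 47, [31]⟩, ⟨1, 4, 55, [31, 48]⟩, ⟨16, 17, 47, [31]⟩, ⟨6, 1, 17, [31, 48]⟩,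
      ⟨15, 16, 47, [31]⟩, ⟨6, 15, 47, [31]⟩, ⟨23, 15, 48, [31]⟩, ⟨23, 6, 56, [1, 31]⟩]
      (.stop 23))
      (.run
     [⟨18, 37, 47, [17]⟩, ⟨22, 37, 30, [18]⟩, ⟨22, 18, 0, [31]⟩]
      (.stop 22))))
      (.run
     [⟨30, 24, 48, [55]⟩, ⟨8, 30, 0, [55]⟩, ⟨19, 30, 31, [55]⟩, ⟨11, 8, 0, [30]⟩,
      ⟨11, 19, 31, [47]⟩, ⟨9, 11, 0, [30]⟩, ⟨13, 11, 31, [47]⟩, ⟨13, 9, 0, [30]⟩,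
      ⟨10, 13, 0, [30]⟩, ⟨15, 13, 31, [47]⟩, ⟨15, 10, 0, [30]⟩, ⟨12, 15, 0, [30]⟩,
      ⟨16, 15, 31, [47]⟩, ⟨22, 15, 1, [47]⟩, ⟨16, 12, 0, [30]⟩, ⟨22, 12, 17, [30]⟩,
      ⟨14, 16, 0, [30]⟩, ⟨17, 16, 31, [47]⟩, ⟨18, 16, 1, [30]⟩, ⟨37, 16, 26, [30]⟩,
      ⟨37, 22, 18, [30]⟩, ⟨17, 14, 0, [30]⟩, ⟨18, 14, 17, [30]⟩, ⟨37, 14, 27, [30]⟩,
      ⟨27, 37, 30, [1]⟩, ⟨18, 17, 31, [47]⟩, ⟨27, 18, 0, [48]⟩]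
      (.stop 27)))))⟩

/-- claim Q2 of the tile of type 0 -/
def cl0_Q2 : Claim :=
  ⟨false, [((10, 14), true), ((10, 1), false)],
   [((3, 21), false), ((4, 20), true), ((5, 7), true), ((5, 8), true), ((5, 8), false),
    ((5, 9), true), ((5, 9), false), ((5, 10), true), ((5, 10), false), ((5, 11), true),
    ((5, 11), false), ((5, 12), true), ((5, 12), false), ((5, 13), true), ((5, 13), false),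
    ((5, 14), true), ((5, 14), false), ((5, 15), true), ((5, 15), false), ((5, 16), false),
    ((5, 17), false), ((5, 20), true), ((5, 20), false), ((7, 12), false), ((7, 16), true),
    ((7, 18), true), ((7, 18), false), ((7, 19), true), ((7, 19), false), ((8, 7), true),
    ((8, 7), false), ((8, 12), false), ((8, 17), false), ((9, 6), true), ((9, 18), true),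
    ((9, 18), false), ((10, 1), true), ((10, 2), true), ((10, 3), true), ((10, 3), false),
    ((10, 4), true), ((10, 4), false), ((10, 5), true), ((10, 5), false), ((10, 6), true),
    ((10, 6), false), ((10, 7), true), ((10, 7), false), ((10, 8), true), ((10, 8), false),
    ((10, 11), true), ((10, 11), false), ((10, 12), true), ((10, 12), false), ((10, 13), true),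
    ((10, 13), false), ((10, 14), true), ((10, 14), false), ((10, 15), true), ((10, 15), false),
    ((10, 16), true), ((10, 16), false), ((10, 17), true), ((10, 17), false), ((10, 18), true),
    ((10, 18), false), ((11, 8), true), ((11, 8), false), ((11, 11), true), ((11, 11), false),
    ((11, 12), true), ((11, 12), false), ((12, 7), true), ((12, 7), false), ((13, 6), true),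
    ((13, 6), false), ((13, 8), true), ((13, 8), false), ((13, 9), true), ((13, 11), true),
    ((14, 12), true), ((14, 20), true), ((14, 20), false), ((15, 4), true), ((15, 5), true),
    ((15, 5), false), ((15, 6), true), ((15, 6), false), ((15, 7), true), ((15, 7), false),
    ((15, 8), true), ((15, 8), false), ((15, 9), false), ((15, 10), true), ((15, 10), false),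
    ((15, 11), true), ((15, 11), false), ((15, 12), true), ((15, 12), false), ((15, 13), true),
    ((15, 13), false), ((15, 14), true), ((15, 14), false), ((15, 15), true), ((15, 15), false),
    ((15, 16), true), ((15, 16), false), ((15, 17), true), ((15, 17), false), ((15, 18), true),
    ((15, 18), false), ((15, 19), true), ((15, 19), false), ((15, 20), true), ((15, 20), false),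
    ((15, 21), false), ((16, 20), true), ((16, 20), false), ((16, 21), false), ((17, 20), true),
    ((17, 21), false)],
   .run
     [⟨39, 36, 0, [30]⟩, ⟨59, 56, 30, [0]⟩, ⟨61, 56, 30, [0]⟩, ⟨37, 39, 0, [30]⟩,
      ⟨54, 59, 30, [0]⟩, ⟨41, 37, 0, [30]⟩, ⟨58, 61, 30, [0]⟩, ⟨32, 58, 47, [0]⟩,
      ⟨63, 58, 30, [0]⟩, ⟨57, 54, 30, [0]⟩, ⟨70, 54, 31, [0]⟩, ⟨38, 41, 0, [30]⟩,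
      ⟨35, 63, 31, [0]⟩, ⟨60, 63, 30, [0]⟩, ⟨35, 60, 47, [0]⟩, ⟨65, 60, 30, [0]⟩,
      ⟨52, 57, 30, [0]⟩, ⟨70, 57, 47, [0]⟩, ⟨43, 38, 0, [30]⟩, ⟨28, 35, 48, [0]⟩,
      ⟨62, 65, 30, [0]⟩, ⟨55, 52, 30, [0]⟩, ⟨68, 52, 31, [0]⟩, ⟨79, 52, 48, [0]⟩,
      ⟨80, 70, 47, [0]⟩, ⟨97, 80, 47, [0, 31]⟩, ⟨40, 43, 0, [30]⟩, ⟨28, 62, 55, [0]⟩,
      ⟨22, 28, 48, [0, 31]⟩, ⟨34, 28, 55, [0, 31]⟩, ⟨50, 55, 30, [0]⟩, ⟨68, 55, 47, [0]⟩,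
      ⟨79, 55, 55, [0]⟩, ⟨71, 68, 30, [0]⟩, ⟨93, 68, 56, [0]⟩, ⟨93, 68, 58, [0]⟩,
      ⟨45, 40, 0, [30]⟩, ⟨22, 34, 55, [0, 31, 48]⟩, ⟨0, 22, 48, [0, 31]⟩, ⟨27, 22, 55, [0, 31]⟩,
      ⟨23, 50, 57, [0]⟩, ⟨53, 50, 30, [0]⟩, ⟨93, 79, 48, [0, 31]⟩, ⟨93, 23, 59, [0, 31, 48, 56]⟩,
      ⟨42, 45, 0, [30]⟩, ⟨0, 27, 55, [0, 31, 48]⟩, ⟨1, 0, 47, [0, 31]⟩, ⟨47, 42, 0, [30]⟩,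
      ⟨21, 1, 47, [0, 31]⟩, ⟨27, 21, 48, [0, 31]⟩, ⟨33, 47, 17, [30]⟩, ⟨44, 47, 0, [30]⟩,
      ⟨67, 47, 1, [30]⟩, ⟨77, 47, 18, [30]⟩, ⟨34, 27, 48, [0, 31]⟩, ⟨67, 33, 17, [1, 30]⟩,
      ⟨77, 33, 25, [1, 30]⟩, ⟨33, 44, 0, [30]⟩, ⟨49, 44, 0, [30]⟩, ⟨64, 34, 47, [0, 31]⟩,
      ⟨46, 49, 0, [30]⟩]
      (.br 55 2047 (.run
     [⟨53, 55, 17, [1]⟩, ⟨10, 53, 59, [1]⟩, ⟨51, 53, 17, [1]⟩, ⟨71, 53, 17, [1]⟩,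
      ⟨78, 53, 56, [1]⟩, ⟨78, 53, 58, [1]⟩, ⟨50, 71, 17, [1]⟩, ⟨51, 71, 30, [1]⟩,
      ⟨69, 71, 17, [1]⟩, ⟨78, 71, 48, [1]⟩, ⟨78, 10, 59, [0, 31, 48, 56, 58]⟩, ⟨8, 51, 59, [1]⟩,
      ⟨48, 51, 31, [1]⟩, ⟨76, 51, 56, [1]⟩, ⟨76, 51, 58, [1]⟩, ⟨69, 78, 47, [0, 31]⟩,
      ⟨90, 78, 48, [0, 31]⟩, ⟨52, 50, 17, [1]⟩, ⟨76, 8, 59, [0, 31, 48, 56, 58]⟩,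
      ⟨90, 69, 56, [1, 31]⟩, ⟨54, 52, 17, [1]⟩, ⟨104, 52, 26, [1]⟩, ⟨90, 76, 57, [0, 31, 48]⟩,
      ⟨56, 54, 17, [1]⟩, ⟨104, 54, 27, [1]⟩, ⟨58, 56, 17, [1]⟩, ⟨60, 58, 17, [1]⟩,
      ⟨62, 60, 17, [1]⟩, ⟨25, 62, 29, [1]⟩, ⟨34, 62, 25, [1]⟩, ⟨64, 62, 17, [1]⟩,
      ⟨82, 62, 26, [1]⟩, ⟨114, 62, 26, [1]⟩, ⟨114, 62, 28, [1]⟩,
      ⟨114, 25, 29, [1, 18, 26, 28, 30]⟩, ⟨82, 34, 27, [1, 18, 30]⟩, ⟨27, 64, 29, [1, 31]⟩,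
      ⟨115, 64, 28, [1, 31]⟩, ⟨117, 114, 25, [1, 18, 30]⟩, ⟨120, 82, 26, [1, 18, 30]⟩,
      ⟨115, 27, 29, [1, 18, 26, 28, 30]⟩, ⟨118, 115, 27, [1, 18, 26, 30]⟩,
      ⟨120, 118, 27, [1, 18, 26, 30]⟩, ⟨113, 120, 25, [1, 18, 30]⟩, ⟨81, 113, 25, [1, 18, 30]⟩,
      ⟨118, 81, 25, [1, 18, 30]⟩]
      (.br 77 524287 (.run
     [⟨67, 77, 47, [0]⟩, ⟨73, 77, 30, [1]⟩, ⟨73, 67, 0, [31]⟩]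
      (.stop 73))
      (.run
     [⟨74, 77, 0, [30]⟩]
      (.br 74 1073217536 (.run
     [⟨67, 74, 47, [31]⟩, ⟨72, 74, 0, [31]⟩, ⟨49, 67, 47, [31]⟩, ⟨72, 67, 47, [31]⟩,
      ⟨66, 72, 0, [31]⟩, ⟨47, 49, 47, [31]⟩, ⟨48, 66, 0, [30]⟩, ⟨30, 47, 55, [31]⟩,
      ⟨45, 47, 47, [31]⟩, ⟨46, 48, 31, [47]⟩, ⟨30, 45, 48, [31]⟩, ⟨44, 46, 31, [47]⟩,
      ⟨33, 30, 47, [0, 31]⟩, ⟨44, 33, 47, [31]⟩]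
      (.stop 44))
      (.run
     [⟨73, 74, 0, [47]⟩, ⟨73, 74, 31, [47]⟩, ⟨89, 73, 0, [47]⟩, ⟨84, 89, 0, [30]⟩,
      ⟨86, 89, 0, [30]⟩, ⟨87, 84, 0, [30]⟩, ⟨91, 86, 0, [30]⟩, ⟨83, 87, 0, [30]⟩,
      ⟨88, 91, 0, [30]⟩, ⟨92, 88, 0, [30]⟩, ⟨85, 83, 0, [30]⟩, ⟨90, 92, 0, [30]⟩,
      ⟨78, 90, 17, [31]⟩, ⟨94, 90, 0, [30]⟩, ⟨96, 90, 1, [31]⟩, ⟨96, 78, 17, [1, 30]⟩,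
      ⟨93, 96, 0, [30]⟩, ⟨79, 93, 17, [31]⟩, ⟨95, 93, 47, [31]⟩, ⟨98, 93, 0, [30]⟩,
      ⟨100, 93, 1, [31]⟩, ⟨95, 98, 0, [30]⟩, ⟨100, 79, 17, [1, 30]⟩, ⟨80, 95, 0, [31]⟩,
      ⟨102, 95, 1, [31]⟩, ⟨97, 100, 0, [30]⟩, ⟨102, 80, 17, [30]⟩, ⟨104, 80, 18, [31]⟩,
      ⟨99, 102, 0, [30]⟩, ⟨99, 97, 47, [31]⟩, ⟨104, 97, 1, [31]⟩, ⟨101, 99, 47, [31]⟩,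
      ⟨101, 104, 0, [30]⟩, ⟨103, 101, 47, [31]⟩, ⟨106, 101, 0, [30]⟩, ⟨103, 106, 0, [30]⟩,
      ⟨105, 103, 47, [31]⟩, ⟨108, 103, 0, [30]⟩, ⟨105, 108, 0, [30]⟩, ⟨107, 105, 47, [31]⟩,
      ⟨110, 105, 0, [30]⟩, ⟨107, 110, 0, [30]⟩, ⟨109, 107, 47, [31]⟩, ⟨112, 107, 0, [30]⟩,
      ⟨117, 107, 18, [31]⟩, ⟨111, 117, 17, [1, 30]⟩, ⟨109, 112, 0, [30]⟩, ⟨117, 112, 1, [30]⟩,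
      ⟨120, 111, 17, [1, 30]⟩, ⟨111, 109, 47, [31]⟩, ⟨114, 109, 0, [30]⟩, ⟨115, 109, 1, [31]⟩,
      ⟨118, 109, 18, [31]⟩, ⟨120, 117, 1, [30]⟩, ⟨119, 120, 0, [30]⟩, ⟨111, 114, 0, [30]⟩,
      ⟨118, 114, 1, [30]⟩, ⟨116, 118, 0, [30]⟩, ⟨81, 119, 17, [30]⟩, ⟨115, 81, 17, [1, 30]⟩,
      ⟨113, 116, 0, [30]⟩, ⟨113, 111, 47, [31]⟩, ⟨116, 113, 47, [31]⟩, ⟨115, 116, 47, [31]⟩,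
      ⟨114, 115, 47, [31]⟩, ⟨112, 114, 47, [31]⟩, ⟨110, 112, 47, [31]⟩, ⟨108, 110, 47, [31]⟩,
      ⟨106, 108, 47, [31]⟩, ⟨104, 106, 47, [31]⟩, ⟨102, 104, 47, [31]⟩, ⟨100, 102, 47, [31]⟩,
      ⟨98, 100, 47, [31]⟩, ⟨96, 98, 47, [31]⟩, ⟨94, 96, 47, [31]⟩, ⟨92, 94, 47, [31]⟩,
      ⟨91, 92, 47, [31]⟩, ⟨89, 91, 47, [31]⟩, ⟨73, 89, 55, [31]⟩, ⟨87, 89, 47, [31]⟩,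
      ⟨75, 73, 55, [48]⟩, ⟨83, 73, 31, [48]⟩, ⟨85, 87, 47, [31]⟩, ⟨75, 83, 0, [47]⟩,
      ⟨75, 83, 31, [47]⟩, ⟨85, 75, 31, [48]⟩]
      (.stop 85))))))
      (.run
     [⟨57, 55, 1, [17]⟩, ⟨59, 57, 1, [17]⟩, ⟨61, 59, 1, [17]⟩, ⟨32, 61, 31, [17]⟩,
      ⟨63, 61, 1, [17]⟩, ⟨65, 63, 1, [17]⟩, ⟨26, 65, 30, [17]⟩, ⟨35, 65, 1, [17]⟩,
      ⟨24, 26, 30, [0]⟩, ⟨24, 35, 1, [17]⟩, ⟨32, 24, 1, [17]⟩, ⟨20, 32, 30, [17]⟩,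
      ⟨17, 20, 30, [0]⟩, ⟨19, 17, 30, [0]⟩, ⟨15, 19, 30, [0]⟩, ⟨18, 15, 30, [0]⟩,
      ⟨13, 18, 30, [0]⟩, ⟨16, 13, 30, [0]⟩, ⟨11, 16, 30, [0]⟩, ⟨14, 11, 30, [0]⟩, ⟨9, 14, 30, [0]⟩,
      ⟨12, 9, 30, [0]⟩, ⟨7, 12, 30, [0]⟩, ⟨10, 7, 30, [0]⟩, ⟨5, 10, 30, [0]⟩, ⟨8, 5, 30, [0]⟩,
      ⟨3, 8, 30, [0]⟩, ⟨6, 3, 30, [0]⟩, ⟨29, 3, 48, [0]⟩, ⟨2, 6, 30, [0]⟩, ⟨29, 6, 55, [0]⟩,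
      ⟨44, 29, 48, [0, 31]⟩, ⟨4, 2, 30, [0]⟩, ⟨44, 2, 56, [0]⟩, ⟨44, 4, 57, [0]⟩,
      ⟨30, 44, 55, [31]⟩, ⟨46, 44, 47, [31]⟩, ⟨48, 46, 47, [31]⟩, ⟨72, 46, 55, [31]⟩,
      ⟨72, 48, 48, [0, 31]⟩, ⟨67, 72, 47, [0, 31]⟩, ⟨49, 67, 47, [31]⟩, ⟨47, 49, 47, [31]⟩,
      ⟨45, 47, 47, [31]⟩, ⟨30, 45, 48, [31]⟩, ⟨33, 30, 47, [0, 31]⟩, ⟨29, 33, 0, [31]⟩,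
      ⟨2, 29, 17, [30]⟩, ⟨3, 2, 17, [1]⟩, ⟨5, 3, 17, [1]⟩, ⟨7, 5, 17, [1]⟩, ⟨31, 5, 18, [1]⟩,
      ⟨9, 7, 17, [1]⟩, ⟨31, 7, 25, [1]⟩, ⟨55, 7, 26, [1]⟩, ⟨55, 9, 27, [1]⟩, ⟨55, 31, 18, [1, 30]⟩]
      (.stop 55)))⟩

/-- claim rb of the tile of type 1 -/
def cl1_rb : Claim :=
  ⟨false, [((20, 20), true), ((15, 14), false)],
   [((15, 14), true), ((15, 15), true), ((15, 16), true), ((15, 16), false), ((15, 17), true),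
    ((15, 17), false), ((15, 18), true), ((15, 18), false), ((15, 19), true), ((15, 19), false),
    ((15, 20), false), ((15, 21), false), ((16, 21), false), ((17, 21), false), ((18, 21), false),
    ((19, 21), false), ((20, 20), true), ((20, 21), false)],
   .run
     [⟨3, 0, 0, [30]⟩, ⟨17, 16, 30, [0]⟩, ⟨1, 3, 0, [30]⟩, ⟨15, 17, 30, [0]⟩, ⟨5, 1, 0, [30]⟩,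
      ⟨14, 15, 30, [0]⟩, ⟨2, 5, 0, [30]⟩, ⟨13, 14, 30, [0]⟩, ⟨7, 2, 0, [30]⟩, ⟨12, 13, 30, [0]⟩,
      ⟨4, 7, 0, [30]⟩, ⟨11, 12, 30, [0]⟩, ⟨9, 4, 0, [30]⟩, ⟨8, 11, 30, [0]⟩, ⟨6, 9, 0, [30]⟩,
      ⟨10, 8, 30, [0]⟩, ⟨10, 6, 0, [30]⟩]
      (.stop 10)⟩

/-- claim al of the tile of type 1 -/
def cl1_al : Claim :=
  ⟨false, [((5, 14), true), ((-1, 20), false)],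
   [((-1, 20), true), ((-1, 21), false), ((0, 21), false), ((1, 21), false), ((2, 21), false),
    ((3, 21), false), ((4, 21), false), ((5, 14), true), ((5, 15), true), ((5, 16), true),
    ((5, 16), false), ((5, 17), true), ((5, 17), false), ((5, 18), true), ((5, 18), false),
    ((5, 19), true), ((5, 19), false), ((5, 20), false), ((5, 21), false)],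
   .run
     [⟨1, 0, 0, [30]⟩, ⟨10, 7, 30, [0]⟩, ⟨2, 1, 0, [30]⟩, ⟨3, 2, 0, [30]⟩, ⟨4, 3, 0, [30]⟩,
      ⟨5, 4, 0, [30]⟩, ⟨6, 5, 0, [30]⟩, ⟨18, 6, 0, [30]⟩, ⟨8, 10, 30, [0]⟩, ⟨15, 18, 0, [30]⟩,
      ⟨12, 8, 30, [0]⟩, ⟨17, 15, 0, [30]⟩, ⟨13, 17, 0, [30]⟩, ⟨9, 12, 30, [0]⟩, ⟨14, 9, 30, [0]⟩,
      ⟨16, 13, 0, [30]⟩, ⟨11, 14, 30, [0]⟩, ⟨11, 16, 0, [30]⟩]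
      (.stop 11)⟩

/-- claim P1 of the tile of type 1 -/
def cl1_P1 : Claim :=
  ⟨false, [((5, 14), false), ((15, 14), true), ((10, 14), true)],
   [((2, 20), true), ((3, 21), false), ((4, 20), true), ((4, 20), false), ((4, 21), true),
    ((5, 12), true), ((5, 13), true), ((5, 13), false), ((5, 14), true), ((5, 14), false),
    ((5, 15), true), ((5, 15), false), ((5, 16), true), ((5, 16), false), ((5, 17), true),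
    ((5, 17), false), ((5, 18), true), ((5, 18), false), ((5, 19), true), ((5, 19), false),
    ((5, 20), true), ((5, 20), false), ((5, 21), true), ((5, 21), false), ((5, 22), true),
    ((5, 23), false), ((6, 13), false), ((6, 22), false), ((7, 12), false), ((7, 16), true),
    ((7, 18), true), ((7, 18), false), ((7, 19), true), ((7, 19), false), ((7, 21), true),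
    ((7, 21), false), ((8, 12), false), ((8, 17), true), ((8, 17), false), ((9, 18), true),
    ((9, 18), false), ((10, 11), true), ((10, 12), true), ((10, 13), true), ((10, 13), false),
    ((10, 14), true), ((10, 14), false), ((10, 15), true), ((10, 15), false), ((10, 16), true),
    ((10, 16), false), ((10, 17), true), ((10, 17), false), ((10, 18), true), ((10, 18), false),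
    ((10, 21), false), ((11, 11), true), ((11, 12), false), ((11, 21), false), ((14, 20), false),
    ((15, 14), true), ((15, 15), true), ((15, 16), true), ((15, 16), false), ((15, 17), true),
    ((15, 17), false), ((15, 18), true), ((15, 18), false), ((15, 19), true), ((15, 19), false),
    ((15, 20), false)],
   .run
     [⟨48, 45, 30, [0]⟩, ⟨50, 45, 30, [0]⟩, ⟨63, 60, 30, [0]⟩, ⟨11, 8, 0, [30]⟩, ⟨13, 8, 0, [30]⟩,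
      ⟨47, 50, 30, [0]⟩, ⟨52, 47, 30, [0]⟩, ⟨6, 11, 0, [30]⟩, ⟨43, 48, 30, [0]⟩, ⟨46, 43, 30, [0]⟩,
      ⟨61, 63, 30, [0]⟩, ⟨31, 52, 48, [0]⟩, ⟨40, 52, 31, [0]⟩, ⟨49, 52, 30, [0]⟩,
      ⟨10, 13, 0, [30]⟩, ⟨38, 13, 18, [30]⟩, ⟨9, 6, 0, [30]⟩, ⟨42, 46, 30, [0]⟩, ⟨65, 61, 30, [0]⟩,
      ⟨15, 10, 0, [30]⟩, ⟨38, 10, 25, [30]⟩, ⟨31, 49, 55, [0]⟩, ⟨40, 49, 47, [0]⟩,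
      ⟨54, 49, 30, [0]⟩, ⟨5, 9, 0, [30]⟩, ⟨44, 42, 30, [0]⟩, ⟨56, 42, 31, [0]⟩, ⟨62, 65, 30, [0]⟩,
      ⟨12, 15, 0, [30]⟩, ⟨37, 31, 47, [0, 31]⟩, ⟨29, 38, 17, [1, 30]⟩, ⟨33, 40, 48, [0]⟩,
      ⟨51, 54, 30, [0]⟩, ⟨67, 62, 30, [0]⟩, ⟨40, 29, 17, [1, 30]⟩, ⟨7, 5, 0, [30]⟩,
      ⟨26, 44, 55, [0]⟩, ⟨41, 44, 30, [0]⟩, ⟨56, 44, 47, [0]⟩, ⟨57, 56, 30, [0]⟩,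
      ⟨36, 57, 47, [0]⟩, ⟨17, 12, 0, [30]⟩, ⟨33, 51, 55, [0]⟩, ⟨21, 33, 48, [0, 31]⟩,
      ⟨39, 33, 55, [0, 31]⟩, ⟨64, 67, 30, [0]⟩, ⟨37, 40, 17, [1]⟩, ⟨38, 40, 30, [1]⟩,
      ⟨26, 7, 0, [30]⟩, ⟨26, 36, 48, [0, 31]⟩, ⟨14, 17, 0, [30]⟩, ⟨69, 64, 30, [0]⟩,
      ⟨21, 39, 55, [0, 31, 48]⟩, ⟨30, 37, 25, [1, 31]⟩, ⟨31, 38, 31, [0]⟩, ⟨59, 69, 31, [0]⟩,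
      ⟨66, 69, 30, [0]⟩, ⟨28, 26, 0, [31]⟩, ⟨36, 28, 0, [30]⟩, ⟨57, 36, 17, [30]⟩,
      ⟨19, 14, 0, [30]⟩, ⟨1, 21, 48, [0, 31]⟩, ⟨3, 21, 47, [0, 31]⟩, ⟨32, 21, 55, [0, 31]⟩,
      ⟨59, 66, 47, [0]⟩, ⟨70, 66, 30, [0]⟩, ⟨58, 59, 48, [0]⟩, ⟨16, 19, 0, [30]⟩,
      ⟨29, 31, 30, [0]⟩, ⟨41, 57, 17, [1]⟩, ⟨33, 29, 31, [1]⟩, ⟨37, 29, 30, [1]⟩,
      ⟨1, 32, 55, [0, 31, 48]⟩, ⟨18, 3, 47, [0, 31]⟩, ⟨68, 70, 30, [0]⟩, ⟨58, 68, 55, [0]⟩,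
      ⟨21, 16, 0, [30]⟩, ⟨2, 1, 47, [0, 31]⟩, ⟨18, 21, 0, [30]⟩, ⟨42, 41, 17, [1]⟩,
      ⟨20, 2, 47, [0, 31]⟩, ⟨30, 33, 30, [0]⟩, ⟨39, 37, 30, [1]⟩, ⟨0, 18, 25, [31]⟩,
      ⟨2, 18, 0, [31]⟩, ⟨23, 18, 0, [30]⟩, ⟨27, 18, 18, [31]⟩, ⟨53, 39, 30, [0]⟩,
      ⟨55, 58, 47, [0, 31]⟩, ⟨43, 42, 17, [1]⟩, ⟨20, 23, 0, [30]⟩, ⟨27, 23, 1, [30]⟩,
      ⟨27, 0, 25, [1, 18, 30]⟩, ⟨4, 2, 47, [31]⟩, ⟨4, 20, 0, [31]⟩, ⟨22, 20, 47, [31]⟩,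
      ⟨25, 20, 1, [31]⟩, ⟨45, 43, 17, [1]⟩, ⟨25, 4, 17, [30]⟩, ⟨34, 4, 55, [31]⟩,
      ⟨22, 25, 0, [30]⟩, ⟨24, 25, 0, [30]⟩, ⟨24, 22, 47, [31]⟩, ⟨47, 45, 17, [1]⟩,
      ⟨34, 24, 48, [31]⟩, ⟨49, 47, 17, [1]⟩, ⟨27, 34, 47, [0, 31]⟩, ⟨51, 49, 17, [1]⟩,
      ⟨35, 27, 0, [31]⟩, ⟨53, 51, 17, [1]⟩, ⟨55, 35, 17, [30]⟩, ⟨55, 53, 31, [1]⟩,
      ⟨30, 55, 18, [1]⟩, ⟨35, 55, 47, [0]⟩, ⟨35, 30, 31, [1]⟩]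
      (.stop 35)⟩

/-- claim Q1 of the tile of type 1 -/
def cl1_Q1 : Claim :=
  ⟨false, [((5, 14), false), ((15, 14), true), ((10, 14), false)],
   [((5, 7), true), ((5, 8), true), ((5, 8), false), ((5, 9), true), ((5, 9), false),
    ((5, 10), true), ((5, 10), false), ((5, 11), true), ((5, 11), false), ((5, 12), true),
    ((5, 12), false), ((5, 13), true), ((5, 13), false), ((5, 14), true), ((5, 14), false),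
    ((5, 15), false), ((6, 13), false), ((7, 12), false), ((8, 7), true), ((8, 12), false),
    ((9, 6), true), ((10, 6), true), ((10, 7), true), ((10, 8), true), ((10, 8), false),
    ((10, 11), true), ((10, 11), false), ((10, 12), true), ((10, 12), false), ((10, 13), true),
    ((10, 13), false), ((10, 14), true), ((10, 14), false), ((10, 15), false), ((11, 8), true),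
    ((11, 8), false), ((11, 11), false), ((11, 12), false), ((12, 7), true), ((12, 7), false),
    ((13, 6), true), ((13, 8), true), ((13, 8), false), ((13, 9), true), ((13, 9), false),
    ((13, 11), false), ((14, 12), false), ((15, 6), true), ((15, 7), false), ((15, 8), true),
    ((15, 9), true), ((15, 9), false), ((15, 10), true), ((15, 10), false), ((15, 11), true),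
    ((15, 11), false), ((15, 12), true), ((15, 12), false), ((15, 13), true), ((15, 13), false),
    ((15, 14), true), ((15, 14), false), ((15, 15), false)],
   .run
     [⟨62, 60, 30, [0]⟩, ⟨15, 13, 0, [30]⟩, ⟨33, 31, 0, [30]⟩, ⟨11, 15, 0, [30]⟩,
      ⟨58, 62, 30, [0]⟩, ⟨29, 33, 0, [30]⟩, ⟨14, 11, 0, [30]⟩, ⟨61, 58, 30, [0]⟩,
      ⟨32, 29, 0, [30]⟩, ⟨56, 61, 30, [0]⟩, ⟨9, 14, 0, [30]⟩, ⟨12, 9, 0, [30]⟩, ⟨27, 32, 0, [30]⟩,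
      ⟨59, 56, 30, [0]⟩, ⟨7, 12, 0, [30]⟩, ⟨16, 12, 0, [30]⟩, ⟨10, 7, 0, [30]⟩, ⟨30, 27, 0, [30]⟩,
      ⟨30, 59, 55, [0]⟩, ⟨54, 59, 30, [0]⟩, ⟨16, 30, 59, [31, 48]⟩, ⟨25, 30, 0, [30]⟩,
      ⟨28, 30, 57, [31, 48]⟩, ⟨5, 10, 0, [30]⟩, ⟨16, 28, 58, [0, 31, 48, 56]⟩, ⟨46, 54, 47, [0]⟩,
      ⟨57, 54, 30, [0]⟩, ⟨8, 5, 0, [30]⟩, ⟨28, 25, 0, [30]⟩, ⟨37, 46, 55, [0, 31]⟩,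
      ⟨19, 57, 57, [0]⟩, ⟨28, 57, 55, [0]⟩, ⟨46, 57, 30, [0]⟩, ⟨52, 57, 30, [0]⟩, ⟨3, 8, 0, [30]⟩,
      ⟨37, 28, 0, [30]⟩, ⟨45, 37, 17, [31, 48]⟩, ⟨46, 37, 17, [30]⟩, ⟨45, 46, 30, [1]⟩,
      ⟨57, 46, 17, [1]⟩, ⟨55, 52, 30, [0]⟩, ⟨6, 3, 0, [30]⟩, ⟨19, 45, 56, [0]⟩, ⟨26, 45, 47, [0]⟩,
      ⟨28, 45, 48, [0]⟩, ⟨36, 45, 47, [0]⟩, ⟨41, 45, 31, [1]⟩, ⟨43, 45, 30, [0]⟩,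
      ⟨50, 55, 30, [0]⟩, ⟨55, 57, 17, [1]⟩, ⟨16, 28, 56, [31]⟩, ⟨36, 28, 0, [31]⟩, ⟨1, 6, 0, [30]⟩,
      ⟨19, 26, 48, [0, 31]⟩, ⟨53, 50, 30, [0]⟩, ⟨49, 53, 30, [0]⟩, ⟨43, 55, 17, [1]⟩,
      ⟨53, 55, 17, [1]⟩, ⟨34, 36, 1, [31]⟩, ⟨4, 1, 0, [30]⟩, ⟨16, 19, 48, [0, 31]⟩,
      ⟨51, 49, 30, [0]⟩, ⟨34, 43, 18, [1]⟩, ⟨34, 53, 25, [1]⟩, ⟨38, 53, 18, [1]⟩,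
      ⟨51, 53, 17, [1]⟩, ⟨0, 4, 0, [30]⟩, ⟨12, 16, 47, [31]⟩, ⟨17, 16, 0, [31]⟩, ⟨19, 17, 0, [30]⟩,
      ⟨38, 51, 25, [1]⟩, ⟨42, 51, 47, [1]⟩, ⟨47, 51, 31, [1]⟩, ⟨22, 34, 1, [30]⟩,
      ⟨23, 34, 0, [30]⟩, ⟨44, 34, 25, [30]⟩, ⟨21, 38, 18, [1, 30]⟩, ⟨42, 38, 17, [1, 30]⟩,
      ⟨2, 0, 0, [30]⟩, ⟨10, 12, 47, [31]⟩, ⟨8, 10, 47, [31]⟩, ⟨26, 19, 17, [31]⟩,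
      ⟨21, 42, 25, [1, 30]⟩, ⟨47, 42, 47, [0, 31]⟩, ⟨6, 8, 47, [31]⟩, ⟨48, 47, 30, [0]⟩,
      ⟨20, 21, 17, [1, 30]⟩, ⟨39, 48, 47, [0]⟩, ⟨4, 6, 47, [31]⟩, ⟨18, 6, 48, [31]⟩,
      ⟨2, 4, 47, [31]⟩, ⟨18, 4, 55, [31]⟩, ⟨21, 4, 56, [31]⟩, ⟨35, 20, 17, [1, 30]⟩,
      ⟨22, 35, 17, [1, 30]⟩, ⟨44, 35, 18, [1, 30]⟩, ⟨40, 39, 47, [0, 31]⟩, ⟨21, 18, 48, [0, 31]⟩,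
      ⟨35, 40, 47, [0, 31]⟩, ⟨21, 2, 57, [31]⟩, ⟨24, 22, 0, [30]⟩, ⟨21, 24, 0, [30]⟩,
      ⟨35, 24, 0, [30]⟩, ⟨38, 35, 47, [31]⟩, ⟨39, 35, 0, [31]⟩, ⟨42, 39, 1, [30]⟩,
      ⟨40, 42, 0, [30]⟩, ⟨22, 21, 47, [31]⟩, ⟨41, 38, 55, [1, 31]⟩, ⟨44, 40, 1, [31]⟩,
      ⟨23, 22, 47, [31]⟩, ⟨41, 44, 0, [30]⟩, ⟨26, 23, 1, [31]⟩, ⟨26, 41, 31, [48]⟩]
      (.stop 26)⟩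

/-- claim P2 of the tile of type 1 -/
def cl1_P2 : Claim :=
  ⟨false, [((10, 23), true), ((10, 14), false)],
   [((2, 20), true), ((2, 21), false), ((3, 20), true), ((3, 20), false), ((3, 21), false),
    ((4, 20), true), ((4, 20), false), ((4, 21), false), ((5, 16), true), ((5, 17), true),
    ((5, 18), true), ((5, 18), false), ((5, 19), true), ((5, 19), false), ((5, 20), true),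
    ((5, 20), false), ((5, 21), false), ((5, 22), false), ((6, 22), false), ((7, 16), true),
    ((7, 19), true), ((7, 19), false), ((7, 21), false), ((8, 17), true), ((8, 17), false),
    ((9, 18), true), ((9, 18), false), ((9, 21), false), ((10, 14), true), ((10, 15), true),
    ((10, 16), true), ((10, 16), false), ((10, 17), true), ((10, 17), false), ((10, 18), false),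
    ((10, 21), true), ((10, 22), true), ((10, 22), false), ((10, 23), true), ((10, 23), false),
    ((10, 24), false)],
   .run
     [⟨31, 28, 0, [30]⟩, ⟨40, 38, 30, [0]⟩, ⟨29, 31, 0, [30]⟩, ⟨36, 40, 30, [0]⟩,
      ⟨33, 29, 0, [30]⟩, ⟨39, 36, 30, [0]⟩, ⟨30, 33, 0, [30]⟩, ⟨35, 39, 30, [0]⟩,
      ⟨19, 30, 17, [30]⟩, ⟨34, 30, 0, [30]⟩, ⟨37, 35, 30, [0]⟩, ⟨18, 37, 55, [0]⟩, ⟨32, 34, 0, [30]⟩]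
      (.br 32 1073217536 (.run
     [⟨21, 32, 55, [31]⟩, ⟨25, 32, 0, [31]⟩, ⟨26, 32, 47, [31]⟩, ⟨25, 21, 55, [0, 31, 48]⟩,
      ⟨10, 25, 25, [30]⟩, ⟨15, 25, 55, [31, 48]⟩, ⟨20, 25, 17, [31, 48]⟩, ⟨21, 26, 48, [0, 31]⟩,
      ⟨20, 15, 55, [0, 31, 48]⟩, ⟨4, 20, 55, [0, 31, 48]⟩, ⟨10, 20, 18, [1, 30]⟩,
      ⟨14, 20, 27, [1, 31, 48]⟩, ⟨27, 20, 17, [1, 30]⟩, ⟨15, 21, 48, [0, 31]⟩,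
      ⟨5, 14, 27, [1, 18, 26, 30]⟩, ⟨4, 15, 48, [0, 31]⟩, ⟨6, 15, 47, [0, 31]⟩,
      ⟨22, 5, 27, [1, 18, 26, 30]⟩, ⟨37, 5, 27, [1, 18, 26, 30]⟩, ⟨5, 4, 47, [0, 31]⟩,
      ⟨3, 6, 47, [0, 31]⟩, ⟨14, 5, 47, [0, 31]⟩, ⟨10, 3, 47, [0, 31]⟩, ⟨20, 14, 48, [0, 31]⟩,
      ⟨25, 20, 48, [0, 31]⟩, ⟨27, 25, 1, [31]⟩, ⟨37, 27, 1, [30]⟩, ⟨22, 37, 30, [18, 26]⟩,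
      ⟨20, 22, 30, [0]⟩, ⟨37, 20, 18, [1]⟩, ⟨12, 37, 1, [26]⟩, ⟨16, 37, 30, [26]⟩,
      ⟨22, 37, 1, [26]⟩, ⟨22, 37, 18, [26]⟩, ⟨12, 16, 30, [0]⟩, ⟨10, 22, 31, [26]⟩,
      ⟨12, 10, 17, [1]⟩]
      (.stop 12))
      (.run
     [⟨23, 32, 0, [47]⟩, ⟨30, 32, 31, [47]⟩, ⟨19, 23, 1, [30]⟩, ⟨29, 30, 31, [47]⟩,
      ⟨24, 29, 0, [47]⟩, ⟨24, 29, 31, [47]⟩]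
      (.br 24 33285996544 (.run
     [⟨11, 24, 56, [48]⟩, ⟨30, 24, 55, [48]⟩, ⟨11, 30, 57, [48]⟩, ⟨23, 30, 31, [48]⟩,
      ⟨23, 11, 57, [0, 31, 48]⟩, ⟨10, 23, 0, [48, 56]⟩, ⟨15, 10, 0, [30]⟩, ⟨12, 15, 0, [30]⟩,
      ⟨16, 12, 0, [30]⟩, ⟨0, 16, 27, [30]⟩, ⟨5, 16, 17, [30]⟩, ⟨14, 16, 0, [30]⟩,
      ⟨18, 16, 1, [30]⟩, ⟨37, 16, 26, [30]⟩, ⟨37, 16, 28, [30]⟩, ⟨37, 0, 29, [1, 18, 26, 30]⟩,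
      ⟨18, 5, 17, [1, 30]⟩, ⟨5, 14, 0, [30]⟩, ⟨17, 14, 0, [30]⟩, ⟨2, 5, 0, [30]⟩, ⟨7, 5, 0, [30]⟩,
      ⟨0, 2, 0, [30]⟩, ⟨4, 2, 0, [30]⟩, ⟨1, 0, 0, [30]⟩]
      (.br 37 2047 (.run
     [⟨27, 37, 30, [1]⟩, ⟨7, 27, 55, [0]⟩, ⟨18, 27, 48, [0]⟩, ⟨4, 7, 55, [31, 48]⟩,
      ⟨17, 18, 47, [31]⟩, ⟨1, 4, 55, [31, 48]⟩, ⟨16, 17, 47, [31]⟩, ⟨6, 1, 17, [31, 48]⟩,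
      ⟨15, 16, 47, [31]⟩, ⟨6, 15, 47, [31]⟩, ⟨23, 15, 48, [31]⟩, ⟨23, 6, 56, [1, 31]⟩]
      (.stop 23))
      (.run
     [⟨18, 37, 47, [17]⟩, ⟨22, 37, 30, [18]⟩, ⟨22, 18, 0, [31]⟩]
      (.stop 22))))
      (.run
     [⟨30, 24, 48, [55]⟩, ⟨8, 30, 0, [55]⟩, ⟨19, 30, 31, [55]⟩, ⟨11, 8, 0, [30]⟩,
      ⟨11, 19, 31, [47]⟩, ⟨9, 11, 0, [30]⟩, ⟨13, 11, 31, [47]⟩, ⟨13, 9, 0, [30]⟩,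
      ⟨10, 13, 0, [30]⟩, ⟨15, 13, 31, [47]⟩, ⟨15, 10, 0, [30]⟩, ⟨12, 15, 0, [30]⟩,
      ⟨16, 15, 31, [47]⟩, ⟨22, 15, 1, [47]⟩, ⟨16, 12, 0, [30]⟩, ⟨22, 12, 17, [30]⟩,
      ⟨14, 16, 0, [30]⟩, ⟨17, 16, 31, [47]⟩, ⟨18, 16, 1, [30]⟩, ⟨37, 16, 26, [30]⟩,
      ⟨37, 22, 18, [30]⟩, ⟨17, 14, 0, [30]⟩, ⟨18, 14, 17, [30]⟩, ⟨37, 14, 27, [30]⟩,
      ⟨27, 37, 30, [1]⟩, ⟨18, 17, 31, [47]⟩, ⟨27, 18, 0, [48]⟩]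
      (.stop 27)))))⟩

/-- claim Q2 of the tile of type 1 -/
def cl1_Q2 : Claim :=
  ⟨false, [((10, 14), true), ((10, 1), false)],
   [((3, 21), false), ((4, 20), true), ((5, 7), true), ((5, 8), true), ((5, 8), false),
    ((5, 9), true), ((5, 9), false), ((5, 10), true), ((5, 10), false), ((5, 11), true),
    ((5, 11), false), ((5, 12), true), ((5, 12), false), ((5, 13), true), ((5, 13), false),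
    ((5, 14), true), ((5, 14), false), ((5, 15), true), ((5, 15), false), ((5, 16), false),
    ((5, 17), false), ((5, 20), true), ((5, 20), false), ((7, 12), false), ((7, 16), true),
    ((7, 18), true), ((7, 18), false), ((7, 19), true), ((7, 19), false), ((8, 7), true),
    ((8, 7), false), ((8, 12), false), ((8, 17), false), ((9, 6), true), ((9, 18), true),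
    ((9, 18), false), ((10, 1), true), ((10, 2), true), ((10, 3), true), ((10, 3), false),
    ((10, 4), true), ((10, 4), false), ((10, 5), true), ((10, 5), false), ((10, 6), true),
    ((10, 6), false), ((10, 7), true), ((10, 7), false), ((10, 8), true), ((10, 8), false),
    ((10, 11), true), ((10, 11), false), ((10, 12), true), ((10, 12), false), ((10, 13), true),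
    ((10, 13), false), ((10, 14), true), ((10, 14), false), ((10, 15), true), ((10, 15), false),
    ((10, 16), true), ((10, 16), false), ((10, 17), true), ((10, 17), false), ((10, 18), true),
    ((10, 18), false), ((11, 8), true), ((11, 8), false), ((11, 11), true), ((11, 11), false),
    ((11, 12), true), ((11, 12), false), ((12, 7), true), ((12, 7), false), ((13, 6), true),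
    ((13, 6), false), ((13, 8), true), ((13, 8), false), ((13, 9), true), ((13, 11), true),
    ((14, 12), true), ((14, 20), true), ((14, 20), false), ((15, 4), true), ((15, 5), true),
    ((15, 5), false), ((15, 6), true), ((15, 6), false), ((15, 7), true), ((15, 7), false),
    ((15, 8), true), ((15, 8), false), ((15, 9), false), ((15, 10), true), ((15, 10), false),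
    ((15, 11), true), ((15, 11), false), ((15, 12), true), ((15, 12), false), ((15, 13), true),
    ((15, 13), false), ((15, 14), true), ((15, 14), false), ((15, 15), true), ((15, 15), false),
    ((15, 16), true), ((15, 16), false), ((15, 17), true), ((15, 17), false), ((15, 18), true),
    ((15, 18), false), ((15, 19), true), ((15, 19), false), ((15, 20), true), ((15, 20), false),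
    ((15, 21), false), ((16, 20), true), ((16, 20), false), ((16, 21), false), ((17, 20), true),
    ((17, 21), false)],
   .run
     [⟨59, 56, 30, [0]⟩, ⟨61, 56, 30, [0]⟩, ⟨39, 36, 0, [30]⟩, ⟨37, 39, 0, [30]⟩,
      ⟨58, 61, 30, [0]⟩, ⟨41, 37, 0, [30]⟩, ⟨32, 58, 47, [0]⟩, ⟨63, 58, 30, [0]⟩,
      ⟨35, 63, 31, [0]⟩, ⟨60, 63, 30, [0]⟩, ⟨54, 59, 30, [0]⟩, ⟨38, 41, 0, [30]⟩,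
      ⟨35, 60, 47, [0]⟩, ⟨65, 60, 30, [0]⟩, ⟨57, 54, 30, [0]⟩, ⟨70, 54, 31, [0]⟩,
      ⟨43, 38, 0, [30]⟩, ⟨28, 35, 48, [0]⟩, ⟨62, 65, 30, [0]⟩, ⟨52, 57, 30, [0]⟩,
      ⟨70, 57, 47, [0]⟩, ⟨40, 43, 0, [30]⟩, ⟨28, 62, 55, [0]⟩, ⟨22, 28, 48, [0, 31]⟩,
      ⟨34, 28, 55, [0, 31]⟩, ⟨55, 52, 30, [0]⟩, ⟨68, 52, 31, [0]⟩, ⟨79, 52, 48, [0]⟩,
      ⟨80, 70, 47, [0]⟩, ⟨50, 55, 30, [0]⟩, ⟨68, 55, 47, [0]⟩, ⟨79, 55, 55, [0]⟩,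
      ⟨45, 40, 0, [30]⟩, ⟨22, 34, 55, [0, 31, 48]⟩, ⟨0, 22, 48, [0, 31]⟩, ⟨27, 22, 55, [0, 31]⟩,
      ⟨71, 68, 30, [0]⟩, ⟨93, 68, 56, [0]⟩, ⟨93, 68, 58, [0]⟩, ⟨97, 80, 47, [0, 31]⟩,
      ⟨23, 50, 57, [0]⟩, ⟨53, 50, 30, [0]⟩, ⟨93, 79, 48, [0, 31]⟩, ⟨42, 45, 0, [30]⟩,
      ⟨47, 42, 0, [30]⟩, ⟨0, 27, 55, [0, 31, 48]⟩, ⟨1, 0, 47, [0, 31]⟩,
      ⟨93, 23, 59, [0, 31, 48, 56]⟩, ⟨33, 47, 17, [30]⟩, ⟨44, 47, 0, [30]⟩, ⟨67, 47, 1, [30]⟩,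
      ⟨77, 47, 18, [30]⟩, ⟨21, 1, 47, [0, 31]⟩, ⟨27, 21, 48, [0, 31]⟩, ⟨67, 33, 17, [1, 30]⟩,
      ⟨77, 33, 25, [1, 30]⟩, ⟨33, 44, 0, [30]⟩, ⟨49, 44, 0, [30]⟩, ⟨34, 27, 48, [0, 31]⟩,
      ⟨46, 49, 0, [30]⟩, ⟨64, 34, 47, [0, 31]⟩]
      (.br 55 2047 (.run
     [⟨53, 55, 17, [1]⟩, ⟨10, 53, 59, [1]⟩, ⟨51, 53, 17, [1]⟩, ⟨71, 53, 17, [1]⟩,
      ⟨78, 53, 56, [1]⟩, ⟨78, 53, 58, [1]⟩, ⟨50, 71, 17, [1]⟩, ⟨51, 71, 30, [1]⟩,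
      ⟨69, 71, 17, [1]⟩, ⟨78, 71, 48, [1]⟩, ⟨78, 10, 59, [0, 31, 48, 56, 58]⟩, ⟨8, 51, 59, [1]⟩,
      ⟨48, 51, 31, [1]⟩, ⟨76, 51, 56, [1]⟩, ⟨76, 51, 58, [1]⟩, ⟨69, 78, 47, [0, 31]⟩,
      ⟨90, 78, 48, [0, 31]⟩, ⟨52, 50, 17, [1]⟩, ⟨76, 8, 59, [0, 31, 48, 56, 58]⟩,
      ⟨90, 69, 56, [1, 31]⟩, ⟨54, 52, 17, [1]⟩, ⟨104, 52, 26, [1]⟩, ⟨90, 76, 57, [0, 31, 48]⟩,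
      ⟨56, 54, 17, [1]⟩, ⟨104, 54, 27, [1]⟩, ⟨58, 56, 17, [1]⟩, ⟨60, 58, 17, [1]⟩,
      ⟨62, 60, 17, [1]⟩, ⟨25, 62, 29, [1]⟩, ⟨34, 62, 25, [1]⟩, ⟨64, 62, 17, [1]⟩,
      ⟨82, 62, 26, [1]⟩, ⟨114, 62, 26, [1]⟩, ⟨114, 62, 28, [1]⟩,
      ⟨114, 25, 29, [1, 18, 26, 28, 30]⟩, ⟨82, 34, 27, [1, 18, 30]⟩, ⟨27, 64, 29, [1, 31]⟩,
      ⟨115, 64, 28, [1, 31]⟩, ⟨117, 114, 25, [1, 18, 30]⟩, ⟨120, 82, 26, [1, 18, 30]⟩,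
      ⟨115, 27, 29, [1, 18, 26, 28, 30]⟩, ⟨118, 115, 27, [1, 18, 26, 30]⟩,
      ⟨120, 118, 27, [1, 18, 26, 30]⟩, ⟨113, 120, 25, [1, 18, 30]⟩, ⟨81, 113, 25, [1, 18, 30]⟩,
      ⟨118, 81, 25, [1, 18, 30]⟩]
      (.br 77 524287 (.run
     [⟨67, 77, 47, [0]⟩, ⟨73, 77, 30, [1]⟩, ⟨73, 67, 0, [31]⟩]
      (.stop 73))
      (.run
     [⟨74, 77, 0, [30]⟩]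
      (.br 74 1073217536 (.run
     [⟨67, 74, 47, [31]⟩, ⟨72, 74, 0, [31]⟩, ⟨49, 67, 47, [31]⟩, ⟨72, 67, 47, [31]⟩,
      ⟨66, 72, 0, [31]⟩, ⟨47, 49, 47, [31]⟩, ⟨48, 66, 0, [30]⟩, ⟨30, 47, 55, [31]⟩,
      ⟨45, 47, 47, [31]⟩, ⟨46, 48, 31, [47]⟩, ⟨30, 45, 48, [31]⟩, ⟨44, 46, 31, [47]⟩,
      ⟨33, 30, 47, [0, 31]⟩, ⟨44, 33, 47, [31]⟩]
      (.stop 44))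
      (.run
     [⟨73, 74, 0, [47]⟩, ⟨73, 74, 31, [47]⟩, ⟨89, 73, 0, [47]⟩, ⟨84, 89, 0, [30]⟩,
      ⟨86, 89, 0, [30]⟩, ⟨87, 84, 0, [30]⟩, ⟨91, 86, 0, [30]⟩, ⟨83, 87, 0, [30]⟩,
      ⟨88, 91, 0, [30]⟩, ⟨92, 88, 0, [30]⟩, ⟨85, 83, 0, [30]⟩, ⟨90, 92, 0, [30]⟩,
      ⟨78, 90, 17, [31]⟩, ⟨94, 90, 0, [30]⟩, ⟨96, 90, 1, [31]⟩, ⟨96, 78, 17, [1, 30]⟩,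
      ⟨93, 96, 0, [30]⟩, ⟨79, 93, 17, [31]⟩, ⟨95, 93, 47, [31]⟩, ⟨98, 93, 0, [30]⟩,
      ⟨100, 93, 1, [31]⟩, ⟨95, 98, 0, [30]⟩, ⟨100, 79, 17, [1, 30]⟩, ⟨80, 95, 0, [31]⟩,
      ⟨102, 95, 1, [31]⟩, ⟨97, 100, 0, [30]⟩, ⟨102, 80, 17, [30]⟩, ⟨104, 80, 18, [31]⟩,
      ⟨99, 102, 0, [30]⟩, ⟨99, 97, 47, [31]⟩, ⟨104, 97, 1, [31]⟩, ⟨101, 99, 47, [31]⟩,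
      ⟨101, 104, 0, [30]⟩, ⟨103, 101, 47, [31]⟩, ⟨106, 101, 0, [30]⟩, ⟨103, 106, 0, [30]⟩,
      ⟨105, 103, 47, [31]⟩, ⟨108, 103, 0, [30]⟩, ⟨105, 108, 0, [30]⟩, ⟨107, 105, 47, [31]⟩,
      ⟨110, 105, 0, [30]⟩, ⟨107, 110, 0, [30]⟩, ⟨109, 107, 47, [31]⟩, ⟨112, 107, 0, [30]⟩,
      ⟨117, 107, 18, [31]⟩, ⟨111, 117, 17, [1, 30]⟩, ⟨109, 112, 0, [30]⟩, ⟨117, 112, 1, [30]⟩,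
      ⟨120, 111, 17, [1, 30]⟩, ⟨111, 109, 47, [31]⟩, ⟨114, 109, 0, [30]⟩, ⟨115, 109, 1, [31]⟩,
      ⟨118, 109, 18, [31]⟩, ⟨120, 117, 1, [30]⟩, ⟨119, 120, 0, [30]⟩, ⟨111, 114, 0, [30]⟩,
      ⟨118, 114, 1, [30]⟩, ⟨116, 118, 0, [30]⟩, ⟨81, 119, 17, [30]⟩, ⟨115, 81, 17, [1, 30]⟩,
      ⟨113, 116, 0, [30]⟩, ⟨113, 111, 47, [31]⟩, ⟨116, 113, 47, [31]⟩, ⟨115, 116, 47, [31]⟩,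
      ⟨114, 115, 47, [31]⟩, ⟨112, 114, 47, [31]⟩, ⟨110, 112, 47, [31]⟩, ⟨108, 110, 47, [31]⟩,
      ⟨106, 108, 47, [31]⟩, ⟨104, 106, 47, [31]⟩, ⟨102, 104, 47, [31]⟩, ⟨100, 102, 47, [31]⟩,
      ⟨98, 100, 47, [31]⟩, ⟨96, 98, 47, [31]⟩, ⟨94, 96, 47, [31]⟩, ⟨92, 94, 47, [31]⟩,
      ⟨91, 92, 47, [31]⟩, ⟨89, 91, 47, [31]⟩, ⟨73, 89, 55, [31]⟩, ⟨87, 89, 47, [31]⟩,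
      ⟨75, 73, 55, [48]⟩, ⟨83, 73, 31, [48]⟩, ⟨85, 87, 47, [31]⟩, ⟨75, 83, 0, [47]⟩,
      ⟨75, 83, 31, [47]⟩, ⟨85, 75, 31, [48]⟩]
      (.stop 85))))))
      (.run
     [⟨57, 55, 1, [17]⟩, ⟨59, 57, 1, [17]⟩, ⟨61, 59, 1, [17]⟩, ⟨32, 61, 31, [17]⟩,
      ⟨63, 61, 1, [17]⟩, ⟨65, 63, 1, [17]⟩, ⟨26, 65, 30, [17]⟩, ⟨35, 65, 1, [17]⟩,
      ⟨24, 26, 30, [0]⟩, ⟨24, 35, 1, [17]⟩, ⟨32, 24, 1, [17]⟩, ⟨20, 32, 30, [17]⟩,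
      ⟨17, 20, 30, [0]⟩, ⟨19, 17, 30, [0]⟩, ⟨15, 19, 30, [0]⟩, ⟨18, 15, 30, [0]⟩,
      ⟨13, 18, 30, [0]⟩, ⟨16, 13, 30, [0]⟩, ⟨11, 16, 30, [0]⟩, ⟨14, 11, 30, [0]⟩, ⟨9, 14, 30, [0]⟩,
      ⟨12, 9, 30, [0]⟩, ⟨7, 12, 30, [0]⟩, ⟨10, 7, 30, [0]⟩, ⟨5, 10, 30, [0]⟩, ⟨8, 5, 30, [0]⟩,
      ⟨3, 8, 30, [0]⟩, ⟨6, 3, 30, [0]⟩, ⟨29, 3, 48, [0]⟩, ⟨2, 6, 30, [0]⟩, ⟨29, 6, 55, [0]⟩,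
      ⟨44, 29, 48, [0, 31]⟩, ⟨4, 2, 30, [0]⟩, ⟨44, 2, 56, [0]⟩, ⟨44, 4, 57, [0]⟩,
      ⟨30, 44, 55, [31]⟩, ⟨46, 44, 47, [31]⟩, ⟨48, 46, 47, [31]⟩, ⟨72, 46, 55, [31]⟩,
      ⟨72, 48, 48, [0, 31]⟩, ⟨67, 72, 47, [0, 31]⟩, ⟨49, 67, 47, [31]⟩, ⟨47, 49, 47, [31]⟩,
      ⟨45, 47, 47, [31]⟩, ⟨30, 45, 48, [31]⟩, ⟨33, 30, 47, [0, 31]⟩, ⟨29, 33, 0, [31]⟩,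
      ⟨2, 29, 17, [30]⟩, ⟨3, 2, 17, [1]⟩, ⟨5, 3, 17, [1]⟩, ⟨7, 5, 17, [1]⟩, ⟨31, 5, 18, [1]⟩,
      ⟨9, 7, 17, [1]⟩, ⟨31, 7, 25, [1]⟩, ⟨55, 7, 26, [1]⟩, ⟨55, 9, 27, [1]⟩, ⟨55, 31, 18, [1, 30]⟩]
      (.stop 55)))⟩

/-- claim O of the tile of type 1 -/
def cl1_O : Claim :=
  ⟨false, [((10, 40), true), ((5, 14), false), ((10, 23), false)],
   [((5, 14), true), ((5, 15), true), ((5, 16), true), ((5, 16), false), ((5, 17), true),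
    ((5, 17), false), ((5, 18), true), ((5, 18), false), ((5, 19), true), ((5, 19), false),
    ((5, 20), true), ((5, 20), false), ((5, 21), true), ((5, 21), false), ((5, 22), true),
    ((5, 22), false), ((5, 23), true), ((5, 23), false), ((5, 24), true), ((5, 24), false),
    ((5, 25), true), ((5, 25), false), ((5, 26), true), ((5, 26), false), ((5, 27), true),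
    ((5, 27), false), ((5, 28), true), ((5, 28), false), ((5, 29), true), ((5, 29), false),
    ((5, 30), false), ((5, 31), false), ((6, 29), false), ((7, 30), false), ((9, 26), true),
    ((9, 26), false), ((9, 29), false), ((10, 23), true), ((10, 24), true), ((10, 25), true),
    ((10, 25), false), ((10, 26), false), ((10, 29), true), ((10, 30), true), ((10, 30), false),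
    ((10, 31), true), ((10, 31), false), ((10, 32), true), ((10, 32), false), ((10, 33), true),
    ((10, 33), false), ((10, 34), true), ((10, 34), false), ((10, 35), true), ((10, 35), false),
    ((10, 36), true), ((10, 36), false), ((10, 37), true), ((10, 37), false), ((10, 38), true),
    ((10, 38), false), ((10, 39), true), ((10, 39), false), ((10, 40), true), ((10, 40), false),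
    ((10, 41), false), ((11, 25), true)],
   .run
     [⟨3, 0, 0, [30]⟩, ⟨40, 37, 0, [30]⟩, ⟨65, 63, 30, [0]⟩, ⟨1, 3, 0, [30]⟩, ⟨38, 40, 0, [30]⟩,
      ⟨61, 65, 30, [0]⟩, ⟨5, 1, 0, [30]⟩, ⟨41, 38, 0, [30]⟩, ⟨64, 61, 30, [0]⟩, ⟨2, 5, 0, [30]⟩,
      ⟨7, 2, 0, [30]⟩, ⟨39, 41, 0, [30]⟩, ⟨59, 64, 30, [0]⟩, ⟨4, 7, 0, [30]⟩, ⟨9, 4, 0, [30]⟩,
      ⟨62, 59, 30, [0]⟩, ⟨6, 9, 0, [30]⟩, ⟨57, 62, 30, [0]⟩, ⟨11, 6, 0, [30]⟩, ⟨60, 57, 30, [0]⟩,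
      ⟨8, 11, 0, [30]⟩, ⟨13, 8, 0, [30]⟩, ⟨55, 60, 30, [0]⟩, ⟨10, 13, 0, [30]⟩, ⟨58, 55, 30, [0]⟩,
      ⟨15, 10, 0, [30]⟩, ⟨53, 58, 30, [0]⟩, ⟨12, 15, 0, [30]⟩, ⟨56, 53, 30, [0]⟩,
      ⟨17, 12, 0, [30]⟩, ⟨51, 56, 30, [0]⟩, ⟨14, 17, 0, [30]⟩, ⟨54, 51, 30, [0]⟩,
      ⟨19, 14, 0, [30]⟩, ⟨49, 54, 30, [0]⟩, ⟨16, 19, 0, [30]⟩, ⟨52, 49, 30, [0]⟩,
      ⟨21, 16, 0, [30]⟩, ⟨47, 52, 30, [0]⟩, ⟨18, 21, 0, [30]⟩, ⟨50, 47, 30, [0]⟩,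
      ⟨23, 18, 0, [30]⟩, ⟨45, 50, 30, [0]⟩, ⟨20, 23, 0, [30]⟩, ⟨48, 45, 30, [0]⟩,
      ⟨25, 20, 0, [30]⟩, ⟨43, 48, 30, [0]⟩, ⟨22, 25, 0, [30]⟩, ⟨46, 43, 30, [0]⟩,
      ⟨27, 22, 0, [30]⟩, ⟨31, 46, 55, [0]⟩, ⟨42, 46, 30, [0]⟩, ⟨24, 27, 0, [30]⟩,
      ⟨32, 27, 1, [30]⟩, ⟨44, 42, 30, [0]⟩, ⟨29, 24, 0, [30]⟩, ⟨32, 24, 17, [30]⟩,
      ⟨33, 32, 1, [30]⟩, ⟨36, 32, 17, [30]⟩, ⟨33, 44, 47, [0]⟩, ⟨31, 33, 48, [0, 31]⟩,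
      ⟨26, 29, 0, [30]⟩, ⟨30, 26, 0, [30]⟩, ⟨33, 26, 17, [30]⟩, ⟨44, 33, 17, [30]⟩,
      ⟨28, 30, 0, [30]⟩, ⟨36, 44, 30, [1]⟩, ⟨31, 28, 0, [30]⟩, ⟨32, 36, 47, [0]⟩,
      ⟨34, 36, 31, [1]⟩, ⟨30, 31, 47, [31]⟩, ⟨29, 30, 47, [31]⟩, ⟨34, 32, 48, [31]⟩,
      ⟨27, 29, 47, [31]⟩, ⟨25, 27, 47, [31]⟩, ⟨34, 27, 55, [31]⟩, ⟨39, 27, 56, [31]⟩,
      ⟨39, 34, 31, [0]⟩, ⟨66, 34, 48, [0]⟩, ⟨39, 25, 57, [31]⟩, ⟨35, 39, 0, [47]⟩,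
      ⟨35, 39, 31, [47]⟩, ⟨66, 39, 55, [48]⟩, ⟨41, 66, 47, [0, 31]⟩, ⟨41, 35, 31, [47]⟩]
      (.stop 41)⟩

/-- claim c of the tile of type 2 -/
def cl2_c : Claim :=
  ⟨true, [((20, 20), true), ((9, 40), false)],
   [((9, 21), true), ((9, 22), true), ((9, 22), false), ((9, 23), true), ((9, 23), false),
    ((9, 24), true), ((9, 24), false), ((9, 25), true), ((9, 25), false), ((9, 26), true),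
    ((9, 26), false), ((9, 27), true), ((9, 27), false), ((9, 28), true), ((9, 28), false),
    ((9, 29), true), ((9, 29), false), ((9, 30), true), ((9, 30), false), ((9, 31), true),
    ((9, 31), false), ((9, 32), true), ((9, 32), false), ((9, 33), true), ((9, 33), false),
    ((9, 34), true), ((9, 34), false), ((9, 35), true), ((9, 35), false), ((9, 36), true),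
    ((9, 36), false), ((9, 37), true), ((9, 37), false), ((9, 38), true), ((9, 38), false),
    ((9, 39), true), ((9, 39), false), ((9, 40), true), ((9, 40), false), ((9, 41), false),
    ((10, 21), false), ((11, 21), false), ((12, 21), false), ((13, 21), false), ((14, 21), false),
    ((15, 21), false), ((16, 20), true), ((16, 21), false), ((17, 21), false), ((18, 21), false),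
    ((19, 21), false), ((20, 20), true), ((20, 21), false)],
   .run
     [⟨52, 51, 30, [0]⟩, ⟨39, 37, 0, [30]⟩, ⟨35, 39, 0, [30]⟩, ⟨50, 52, 30, [0]⟩,
      ⟨44, 50, 55, [0]⟩, ⟨49, 50, 30, [0]⟩, ⟨2, 44, 58, [0, 31, 48]⟩, ⟨43, 44, 55, [0, 31, 48]⟩,
      ⟨46, 44, 55, [0, 31, 48]⟩, ⟨42, 43, 55, [0, 31, 48]⟩, ⟨38, 35, 0, [30]⟩,
      ⟨2, 42, 56, [0, 31, 48]⟩, ⟨45, 49, 47, [0]⟩, ⟨48, 49, 30, [0]⟩, ⟨2, 46, 59, [0, 31, 48]⟩,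
      ⟨33, 38, 0, [30]⟩, ⟨44, 45, 47, [0, 31]⟩, ⟨47, 48, 30, [0]⟩, ⟨36, 33, 0, [30]⟩,
      ⟨43, 44, 47, [0, 31]⟩, ⟨45, 47, 30, [0]⟩, ⟨31, 36, 0, [30]⟩, ⟨42, 43, 47, [0, 31]⟩,
      ⟨44, 45, 30, [0]⟩, ⟨34, 31, 0, [30]⟩, ⟨41, 42, 47, [0, 31]⟩, ⟨43, 44, 30, [0]⟩,
      ⟨29, 34, 0, [30]⟩, ⟨2, 41, 48, [0, 31]⟩, ⟨42, 43, 30, [0]⟩, ⟨32, 29, 0, [30]⟩,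
      ⟨41, 42, 30, [0]⟩, ⟨27, 32, 0, [30]⟩, ⟨40, 41, 30, [0]⟩, ⟨30, 27, 0, [30]⟩, ⟨2, 40, 31, [0]⟩,
      ⟨25, 30, 0, [30]⟩, ⟨0, 2, 30, [0]⟩, ⟨28, 25, 0, [30]⟩, ⟨4, 0, 30, [0]⟩, ⟨23, 28, 0, [30]⟩,
      ⟨1, 4, 30, [0]⟩, ⟨26, 23, 0, [30]⟩, ⟨6, 1, 30, [0]⟩, ⟨21, 26, 0, [30]⟩, ⟨3, 6, 30, [0]⟩,
      ⟨24, 21, 0, [30]⟩, ⟨8, 3, 30, [0]⟩, ⟨19, 24, 0, [30]⟩, ⟨5, 8, 30, [0]⟩, ⟨22, 19, 0, [30]⟩,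
      ⟨10, 5, 30, [0]⟩, ⟨17, 22, 0, [30]⟩, ⟨7, 10, 30, [0]⟩, ⟨20, 17, 0, [30]⟩, ⟨12, 7, 30, [0]⟩,
      ⟨15, 20, 0, [30]⟩, ⟨9, 12, 30, [0]⟩, ⟨14, 9, 30, [0]⟩, ⟨18, 15, 0, [30]⟩, ⟨11, 14, 30, [0]⟩,
      ⟨13, 18, 0, [30]⟩, ⟨16, 11, 30, [0]⟩, ⟨16, 13, 0, [30]⟩]
      (.stop 16)⟩

/-- claim n of the tile of type 3 -/
def cl3_n : Claim :=
  ⟨true, [((20, 20), true), ((9, 1), true)],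
   [((0, 15), true), ((0, 18), false), ((3, 18), false), ((4, 14), true), ((4, 15), true),
    ((4, 15), false), ((4, 16), true), ((4, 16), false), ((4, 17), false), ((5, 14), false),
    ((6, 9), true), ((6, 10), true), ((6, 10), false), ((6, 11), true), ((6, 11), false),
    ((6, 13), true), ((6, 13), false), ((7, 9), false), ((8, 9), false), ((9, 1), true),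
    ((9, 2), true), ((9, 3), true), ((9, 3), false), ((9, 4), true), ((9, 4), false),
    ((9, 5), true), ((9, 5), false), ((9, 6), true), ((9, 6), false), ((9, 7), true),
    ((9, 7), false), ((9, 8), true), ((9, 8), false), ((9, 12), true), ((9, 12), false),
    ((9, 13), true), ((9, 13), false), ((9, 14), true), ((9, 14), false), ((9, 15), true),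
    ((9, 15), false), ((9, 16), true), ((9, 16), false), ((9, 17), true), ((9, 17), false),
    ((9, 18), true), ((9, 18), false), ((9, 19), true), ((9, 19), false), ((9, 20), false),
    ((9, 21), false), ((10, 21), false), ((11, 21), false), ((12, 21), false), ((13, 21), false),
    ((14, 21), false), ((15, 21), false), ((16, 21), false), ((17, 21), false), ((18, 21), false),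
    ((19, 21), false), ((20, 20), true), ((20, 21), false)],
   .run
     [⟨2, 1, 17, [30]⟩, ⟨62, 61, 30, [0]⟩, ⟨22, 19, 30, [0]⟩, ⟨60, 62, 30, [0]⟩, ⟨20, 22, 30, [0]⟩,
      ⟨59, 60, 30, [0]⟩, ⟨24, 20, 30, [0]⟩, ⟨58, 59, 30, [0]⟩, ⟨21, 24, 30, [0]⟩,
      ⟨57, 58, 30, [0]⟩, ⟨26, 21, 30, [0]⟩, ⟨56, 57, 30, [0]⟩, ⟨23, 26, 30, [0]⟩,
      ⟨55, 56, 30, [0]⟩, ⟨28, 23, 30, [0]⟩, ⟨54, 55, 30, [0]⟩, ⟨25, 28, 30, [0]⟩,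
      ⟨53, 54, 30, [0]⟩, ⟨30, 25, 30, [0]⟩, ⟨52, 53, 30, [0]⟩, ⟨27, 30, 30, [0]⟩,
      ⟨51, 52, 30, [0]⟩, ⟨32, 27, 30, [0]⟩, ⟨50, 51, 30, [0]⟩, ⟨18, 32, 31, [0]⟩,
      ⟨29, 32, 30, [0]⟩, ⟨47, 50, 30, [0]⟩, ⟨18, 29, 47, [0]⟩, ⟨49, 47, 30, [0]⟩,
      ⟨12, 18, 48, [0]⟩, ⟨17, 18, 30, [0]⟩, ⟨31, 18, 47, [0]⟩, ⟨45, 49, 30, [0]⟩,
      ⟨12, 31, 55, [0, 31]⟩, ⟨12, 17, 31, [0]⟩, ⟨48, 45, 30, [0]⟩, ⟨10, 12, 30, [0]⟩,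
      ⟨43, 48, 30, [0]⟩, ⟨14, 10, 30, [0]⟩, ⟨46, 43, 30, [0]⟩, ⟨11, 14, 30, [0]⟩,
      ⟨41, 46, 30, [0]⟩, ⟨44, 41, 30, [0]⟩, ⟨39, 44, 30, [0]⟩, ⟨42, 39, 30, [0]⟩,
      ⟨37, 42, 30, [0]⟩, ⟨40, 37, 30, [0]⟩, ⟨35, 40, 30, [0]⟩, ⟨38, 35, 30, [0]⟩, ⟨9, 38, 55, [0]⟩,
      ⟨33, 38, 30, [0]⟩, ⟨36, 33, 30, [0]⟩, ⟨16, 36, 47, [0]⟩]
      (.br 11 2047 (.run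
     [⟨13, 11, 17, [1]⟩, ⟨16, 11, 31, [1]⟩, ⟨9, 16, 31, [0]⟩, ⟨13, 16, 30, [0]⟩, ⟨9, 13, 48, [1]⟩,
      ⟨5, 9, 31, [0]⟩, ⟨15, 9, 47, [0]⟩, ⟨5, 15, 47, [0, 31]⟩, ⟨3, 5, 30, [0]⟩, ⟨7, 3, 30, [0]⟩,
      ⟨4, 7, 30, [0]⟩, ⟨8, 4, 30, [0]⟩, ⟨2, 8, 31, [0]⟩, ⟨6, 8, 30, [0]⟩, ⟨2, 6, 47, [0]⟩,
      ⟨0, 2, 18, [1]⟩, ⟨1, 2, 47, [0]⟩, ⟨8, 2, 25, [1]⟩, ⟨0, 1, 1, [31]⟩, ⟨0, 8, 25, [1, 18]⟩]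
      (.stop 0))
      (.br 11 63488 (.run
     [⟨36, 11, 1, [18]⟩, ⟨9, 36, 48, [17]⟩, ⟨16, 36, 30, [17]⟩, ⟨38, 36, 1, [17]⟩,
      ⟨40, 38, 1, [17]⟩, ⟨5, 40, 47, [17]⟩, ⟨9, 16, 31, [0]⟩, ⟨5, 9, 31, [0]⟩, ⟨3, 5, 30, [0]⟩,
      ⟨7, 3, 30, [0]⟩, ⟨4, 7, 30, [0]⟩, ⟨8, 4, 30, [0]⟩, ⟨2, 8, 31, [0]⟩, ⟨6, 8, 30, [0]⟩,
      ⟨2, 6, 47, [0]⟩, ⟨0, 2, 18, [1]⟩, ⟨1, 2, 47, [0]⟩, ⟨8, 2, 25, [1]⟩, ⟨0, 1, 1, [31]⟩,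
      ⟨0, 8, 25, [1, 18]⟩]
      (.stop 0))
      (.run
     [⟨34, 11, 1, [25]⟩, ⟨34, 11, 30, [25]⟩, ⟨36, 34, 1, [17]⟩, ⟨9, 36, 48, [17]⟩,
      ⟨16, 36, 30, [17]⟩, ⟨38, 36, 1, [17]⟩, ⟨40, 38, 1, [17]⟩, ⟨5, 40, 47, [17]⟩,
      ⟨9, 16, 31, [0]⟩, ⟨5, 9, 31, [0]⟩, ⟨3, 5, 30, [0]⟩, ⟨7, 3, 30, [0]⟩, ⟨4, 7, 30, [0]⟩,
      ⟨8, 4, 30, [0]⟩, ⟨2, 8, 31, [0]⟩, ⟨6, 8, 30, [0]⟩, ⟨2, 6, 47, [0]⟩, ⟨0, 2, 18, [1]⟩,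
      ⟨1, 2, 47, [0]⟩, ⟨8, 2, 25, [1]⟩, ⟨0, 1, 1, [31]⟩, ⟨0, 8, 25, [1, 18]⟩]
      (.stop 0))))⟩

/-- claim r of the tile of type 4 -/
def cl4_r : Claim :=
  ⟨false, [((-1, 20), false), ((20, 20), true)],
   [((-1, 20), true), ((-1, 21), false), ((0, 21), false), ((1, 21), false), ((2, 21), false),
    ((3, 21), false), ((4, 21), false), ((5, 21), false), ((6, 21), false), ((7, 21), false),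
    ((8, 21), false), ((9, 21), false), ((10, 21), false), ((11, 21), false), ((12, 21), false),
    ((13, 21), false), ((14, 21), false), ((15, 21), false), ((16, 21), false), ((17, 21), false),
    ((18, 21), false), ((19, 21), false), ((20, 20), true), ((20, 21), false)],
   .run
     [⟨1, 0, 0, [30]⟩, ⟨23, 22, 30, [0]⟩, ⟨2, 1, 0, [30]⟩, ⟨3, 2, 0, [30]⟩, ⟨4, 3, 0, [30]⟩,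
      ⟨5, 4, 0, [30]⟩, ⟨6, 5, 0, [30]⟩, ⟨7, 6, 0, [30]⟩, ⟨8, 7, 0, [30]⟩, ⟨9, 8, 0, [30]⟩,
      ⟨10, 9, 0, [30]⟩, ⟨11, 10, 0, [30]⟩, ⟨12, 11, 0, [30]⟩, ⟨13, 12, 0, [30]⟩, ⟨14, 13, 0, [30]⟩,
      ⟨15, 14, 0, [30]⟩, ⟨16, 15, 0, [30]⟩, ⟨17, 16, 0, [30]⟩, ⟨18, 17, 0, [30]⟩,
      ⟨19, 18, 0, [30]⟩, ⟨20, 19, 0, [30]⟩, ⟨21, 20, 0, [30]⟩, ⟨23, 21, 0, [30]⟩]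
      (.stop 23)⟩

/-- claim v of the tile of type 4 -/
def cl4_v : Claim :=
  ⟨false, [((-1, 20), false), ((10, 40), true)],
   [((-1, 20), true), ((-1, 21), false), ((0, 21), false), ((1, 21), false), ((2, 20), true),
    ((2, 21), false), ((3, 21), false), ((4, 21), false), ((5, 21), false), ((6, 21), false),
    ((7, 21), false), ((8, 21), false), ((9, 21), false), ((10, 21), true), ((10, 22), true),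
    ((10, 22), false), ((10, 23), true), ((10, 23), false), ((10, 24), true), ((10, 24), false),
    ((10, 25), true), ((10, 25), false), ((10, 26), true), ((10, 26), false), ((10, 27), true),
    ((10, 27), false), ((10, 28), true), ((10, 28), false), ((10, 29), true), ((10, 29), false),
    ((10, 30), true), ((10, 30), false), ((10, 31), true), ((10, 31), false), ((10, 32), true),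
    ((10, 32), false), ((10, 33), true), ((10, 33), false), ((10, 34), true), ((10, 34), false),
    ((10, 35), true), ((10, 35), false), ((10, 36), true), ((10, 36), false), ((10, 37), true),
    ((10, 37), false), ((10, 38), true), ((10, 38), false), ((10, 39), true), ((10, 39), false),
    ((10, 40), true), ((10, 40), false), ((10, 41), false)],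
   .run
     [⟨1, 0, 0, [30]⟩, ⟨52, 50, 30, [0]⟩, ⟨2, 1, 0, [30]⟩, ⟨3, 2, 0, [30]⟩, ⟨5, 3, 0, [30]⟩,
      ⟨4, 5, 0, [30]⟩, ⟨6, 5, 0, [30]⟩, ⟨7, 6, 0, [30]⟩, ⟨15, 6, 28, [30]⟩, ⟨8, 7, 0, [30]⟩,
      ⟨9, 8, 0, [30]⟩, ⟨15, 8, 26, [30]⟩, ⟨10, 9, 0, [30]⟩, ⟨11, 10, 0, [30]⟩, ⟨15, 10, 18, [30]⟩,
      ⟨12, 11, 0, [30]⟩, ⟨15, 12, 1, [30]⟩, ⟨48, 52, 30, [0]⟩, ⟨15, 4, 29, [30]⟩,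
      ⟨51, 48, 30, [0]⟩, ⟨13, 15, 0, [30]⟩, ⟨46, 51, 30, [0]⟩, ⟨17, 13, 0, [30]⟩,
      ⟨49, 46, 30, [0]⟩, ⟨14, 17, 0, [30]⟩, ⟨44, 49, 30, [0]⟩, ⟨19, 14, 0, [30]⟩,
      ⟨47, 44, 30, [0]⟩, ⟨16, 19, 0, [30]⟩, ⟨42, 47, 30, [0]⟩, ⟨21, 16, 0, [30]⟩,
      ⟨45, 42, 30, [0]⟩, ⟨18, 21, 0, [30]⟩, ⟨40, 45, 30, [0]⟩, ⟨23, 18, 0, [30]⟩,
      ⟨43, 40, 30, [0]⟩, ⟨20, 23, 0, [30]⟩, ⟨38, 43, 30, [0]⟩, ⟨25, 20, 0, [30]⟩,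
      ⟨41, 38, 30, [0]⟩, ⟨22, 25, 0, [30]⟩, ⟨36, 41, 30, [0]⟩, ⟨27, 22, 0, [30]⟩,
      ⟨39, 36, 30, [0]⟩, ⟨24, 27, 0, [30]⟩, ⟨34, 39, 30, [0]⟩, ⟨29, 24, 0, [30]⟩,
      ⟨37, 34, 30, [0]⟩, ⟨26, 29, 0, [30]⟩, ⟨32, 37, 30, [0]⟩, ⟨31, 26, 0, [30]⟩,
      ⟨35, 32, 30, [0]⟩, ⟨28, 31, 0, [30]⟩, ⟨30, 35, 30, [0]⟩, ⟨33, 28, 0, [30]⟩, ⟨33, 30, 30, [0]⟩]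
      (.stop 33)⟩

/-- claim g of the tile of type 5 -/
def cl5_g : Claim :=
  ⟨true, [((20, 20), true)],
   [((0, 24), true), ((0, 27), false), ((3, 27), false), ((4, 21), true), ((4, 22), true),
    ((4, 22), false), ((4, 23), true), ((4, 23), false), ((4, 24), true), ((4, 24), false),
    ((4, 25), true), ((4, 25), false), ((4, 26), false), ((5, 21), false), ((6, 21), false),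
    ((7, 21), false), ((8, 21), false), ((9, 21), false), ((10, 21), false), ((11, 21), false),
    ((12, 20), true), ((12, 21), false), ((13, 21), false), ((14, 21), false), ((15, 21), false),
    ((16, 21), false), ((17, 21), false), ((18, 21), false), ((19, 21), false), ((20, 20), true),
    ((20, 21), false)],
   .run
     [⟨30, 29, 30, [0]⟩, ⟨2, 1, 17, [30]⟩, ⟨26, 30, 47, [0]⟩, ⟨28, 30, 30, [0]⟩,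
      ⟨23, 26, 55, [0, 31]⟩, ⟨22, 23, 55, [0, 31, 48]⟩, ⟨27, 28, 30, [0]⟩,
      ⟨18, 22, 57, [0, 31, 48]⟩, ⟨17, 18, 57, [0, 31, 48, 56]⟩, ⟨26, 27, 30, [0]⟩,
      ⟨25, 26, 30, [0]⟩, ⟨16, 17, 57, [0, 31, 48, 56]⟩, ⟨20, 17, 57, [0, 31, 48, 56]⟩,
      ⟨24, 25, 30, [0]⟩, ⟨5, 20, 59, [0, 31, 48, 56]⟩, ⟨23, 24, 30, [0]⟩,
      ⟨5, 16, 58, [0, 31, 48, 56]⟩, ⟨22, 23, 30, [0]⟩, ⟨21, 22, 30, [0]⟩, ⟨15, 21, 55, [0]⟩,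
      ⟨17, 21, 47, [0]⟩, ⟨19, 21, 30, [0]⟩, ⟨5, 15, 56, [0, 31, 48]⟩, ⟨16, 17, 47, [0, 31]⟩,
      ⟨18, 19, 30, [0]⟩, ⟨15, 16, 47, [0, 31]⟩, ⟨17, 18, 30, [0]⟩, ⟨14, 15, 47, [0, 31]⟩,
      ⟨16, 17, 30, [0]⟩, ⟨5, 14, 48, [0, 31]⟩, ⟨15, 16, 30, [0]⟩, ⟨14, 15, 30, [0]⟩,
      ⟨13, 14, 30, [0]⟩, ⟨5, 13, 31, [0]⟩, ⟨3, 5, 30, [0]⟩, ⟨7, 3, 30, [0]⟩, ⟨4, 7, 30, [0]⟩,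
      ⟨9, 4, 30, [0]⟩, ⟨6, 9, 30, [0]⟩, ⟨11, 6, 30, [0]⟩, ⟨8, 11, 30, [0]⟩, ⟨12, 8, 30, [0]⟩,
      ⟨2, 12, 31, [0]⟩, ⟨10, 12, 30, [0]⟩, ⟨2, 10, 47, [0]⟩, ⟨0, 2, 18, [1]⟩, ⟨1, 2, 47, [0]⟩,
      ⟨12, 2, 25, [1]⟩, ⟨0, 12, 25, [1, 18]⟩, ⟨1, 0, 31, [1]⟩]
      (.stop 1)⟩

/-- claim r of the tile of type 6 -/
def cl6_r : Claim :=
  ⟨false, [((-1, 20), true), ((20, 20), false)],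
   [((-1, 20), true), ((0, 20), true), ((1, 20), true), ((2, 20), true), ((3, 20), true),
    ((4, 20), true), ((5, 20), true), ((6, 20), true), ((7, 20), true), ((8, 20), true),
    ((9, 20), true), ((10, 20), true), ((11, 20), true), ((12, 20), true), ((13, 20), true),
    ((14, 20), true), ((15, 20), true), ((16, 20), true), ((17, 20), true), ((18, 20), true),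
    ((19, 20), true), ((20, 20), true)],
   .run
     [⟨1, 0, 30, [0]⟩, ⟨20, 21, 0, [30]⟩, ⟨2, 1, 30, [0]⟩, ⟨3, 2, 30, [0]⟩, ⟨4, 3, 30, [0]⟩,
      ⟨5, 4, 30, [0]⟩, ⟨6, 5, 30, [0]⟩, ⟨7, 6, 30, [0]⟩, ⟨8, 7, 30, [0]⟩, ⟨9, 8, 30, [0]⟩,
      ⟨10, 9, 30, [0]⟩, ⟨11, 10, 30, [0]⟩, ⟨12, 11, 30, [0]⟩, ⟨13, 12, 30, [0]⟩, ⟨14, 13, 30, [0]⟩,
      ⟨15, 14, 30, [0]⟩, ⟨16, 15, 30, [0]⟩, ⟨17, 16, 30, [0]⟩, ⟨18, 17, 30, [0]⟩,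
      ⟨19, 18, 30, [0]⟩, ⟨20, 19, 30, [0]⟩]
      (.stop 20)⟩

/-- claim v of the tile of type 6 -/
def cl6_v : Claim :=
  ⟨false, [((-1, 20), true), ((10, 1), false)],
   [((-1, 20), true), ((0, 20), true), ((1, 20), true), ((2, 20), true), ((2, 21), false),
    ((3, 20), true), ((4, 20), true), ((5, 20), true), ((6, 20), true), ((7, 20), true),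
    ((8, 20), true), ((9, 20), true), ((10, 1), true), ((10, 2), true), ((10, 3), true),
    ((10, 3), false), ((10, 4), true), ((10, 4), false), ((10, 5), true), ((10, 5), false),
    ((10, 6), true), ((10, 6), false), ((10, 7), true), ((10, 7), false), ((10, 8), true),
    ((10, 8), false), ((10, 9), true), ((10, 9), false), ((10, 10), true), ((10, 10), false),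
    ((10, 11), true), ((10, 11), false), ((10, 12), true), ((10, 12), false), ((10, 13), true),
    ((10, 13), false), ((10, 14), true), ((10, 14), false), ((10, 15), true), ((10, 15), false),
    ((10, 16), true), ((10, 16), false), ((10, 17), true), ((10, 17), false), ((10, 18), true),
    ((10, 18), false), ((10, 19), true), ((10, 19), false), ((10, 20), false)],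
   .run
     [⟨1, 0, 30, [0]⟩, ⟨15, 12, 0, [30]⟩, ⟨2, 1, 30, [0]⟩, ⟨3, 2, 30, [0]⟩, ⟨4, 3, 30, [0]⟩,
      ⟨5, 3, 30, [0]⟩, ⟨46, 4, 59, [0]⟩, ⟨6, 5, 30, [0]⟩, ⟨46, 5, 58, [0]⟩, ⟨7, 6, 30, [0]⟩,
      ⟨8, 7, 30, [0]⟩, ⟨46, 7, 56, [0]⟩, ⟨9, 8, 30, [0]⟩, ⟨10, 9, 30, [0]⟩, ⟨46, 9, 48, [0]⟩,
      ⟨11, 10, 30, [0]⟩, ⟨46, 11, 31, [0]⟩, ⟨13, 15, 0, [30]⟩, ⟨48, 46, 30, [0]⟩,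
      ⟨44, 48, 30, [0]⟩, ⟨17, 13, 0, [30]⟩, ⟨47, 44, 30, [0]⟩, ⟨14, 17, 0, [30]⟩,
      ⟨42, 47, 30, [0]⟩, ⟨19, 14, 0, [30]⟩, ⟨45, 42, 30, [0]⟩, ⟨16, 19, 0, [30]⟩,
      ⟨40, 45, 30, [0]⟩, ⟨21, 16, 0, [30]⟩, ⟨43, 40, 30, [0]⟩, ⟨18, 21, 0, [30]⟩,
      ⟨38, 43, 30, [0]⟩, ⟨23, 18, 0, [30]⟩, ⟨41, 38, 30, [0]⟩, ⟨20, 23, 0, [30]⟩,
      ⟨36, 41, 30, [0]⟩, ⟨25, 20, 0, [30]⟩, ⟨39, 36, 30, [0]⟩, ⟨22, 25, 0, [30]⟩,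
      ⟨34, 39, 30, [0]⟩, ⟨27, 22, 0, [30]⟩, ⟨37, 34, 30, [0]⟩, ⟨24, 27, 0, [30]⟩,
      ⟨32, 37, 30, [0]⟩, ⟨29, 24, 0, [30]⟩, ⟨35, 32, 30, [0]⟩, ⟨26, 29, 0, [30]⟩,
      ⟨30, 35, 30, [0]⟩, ⟨31, 26, 0, [30]⟩, ⟨33, 30, 30, [0]⟩, ⟨28, 31, 0, [30]⟩, ⟨28, 33, 30, [0]⟩]
      (.stop 28)⟩

/-- claim g of the tile of type 7 -/
def cl7_g : Claim :=
  ⟨true, [((20, 20), false)],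
   [((0, 14), true), ((0, 17), false), ((3, 14), true), ((4, 14), true), ((4, 15), true),
    ((4, 16), true), ((4, 16), false), ((4, 17), true), ((4, 17), false), ((4, 18), true),
    ((4, 18), false), ((4, 19), true), ((4, 19), false), ((4, 20), false), ((5, 20), true),
    ((6, 20), true), ((7, 20), true), ((8, 20), true), ((9, 20), true), ((10, 20), true),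
    ((11, 20), true), ((12, 20), true), ((12, 21), false), ((13, 20), true), ((14, 20), true),
    ((15, 20), true), ((16, 20), true), ((17, 20), true), ((18, 20), true), ((19, 20), true),
    ((20, 20), true)],
   .run
     [⟨27, 30, 17, [30]⟩, ⟨29, 30, 0, [30]⟩, ⟨2, 0, 47, [0]⟩, ⟨3, 2, 47, [0, 31]⟩,
      ⟨26, 27, 17, [1, 30]⟩, ⟨28, 29, 0, [30]⟩, ⟨25, 26, 17, [1, 30]⟩, ⟨24, 25, 17, [1, 30]⟩,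
      ⟨27, 28, 0, [30]⟩, ⟨18, 24, 27, [1, 30]⟩, ⟨20, 24, 25, [1, 30]⟩, ⟨23, 24, 17, [1, 30]⟩,
      ⟨26, 27, 0, [30]⟩, ⟨17, 18, 27, [1, 18, 26, 30]⟩, ⟨22, 18, 27, [1, 18, 26, 30]⟩,
      ⟨19, 20, 25, [1, 18, 30]⟩, ⟨21, 23, 17, [1, 30]⟩, ⟨11, 22, 29, [1, 18, 26, 30]⟩,
      ⟨25, 26, 0, [30]⟩, ⟨11, 17, 28, [1, 18, 26, 30]⟩, ⟨18, 19, 25, [1, 18, 30]⟩,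
      ⟨20, 21, 17, [1, 30]⟩, ⟨24, 25, 0, [30]⟩, ⟨17, 18, 25, [1, 18, 30]⟩, ⟨19, 20, 17, [1, 30]⟩,
      ⟨23, 24, 0, [30]⟩, ⟨16, 17, 25, [1, 18, 30]⟩, ⟨18, 19, 17, [1, 30]⟩, ⟨21, 23, 0, [30]⟩,
      ⟨11, 16, 26, [1, 18, 30]⟩, ⟨17, 18, 17, [1, 30]⟩, ⟨20, 21, 0, [30]⟩, ⟨16, 17, 17, [1, 30]⟩,
      ⟨19, 20, 0, [30]⟩, ⟨15, 16, 17, [1, 30]⟩, ⟨18, 19, 0, [30]⟩, ⟨11, 15, 18, [1, 30]⟩,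
      ⟨17, 18, 0, [30]⟩, ⟨16, 17, 0, [30]⟩, ⟨15, 16, 0, [30]⟩, ⟨14, 15, 0, [30]⟩,
      ⟨11, 14, 1, [30]⟩, ⟨13, 11, 0, [30]⟩, ⟨9, 13, 0, [30]⟩, ⟨12, 9, 0, [30]⟩, ⟨7, 12, 0, [30]⟩,
      ⟨10, 7, 0, [30]⟩, ⟨5, 10, 0, [30]⟩, ⟨8, 5, 0, [30]⟩, ⟨4, 8, 0, [30]⟩, ⟨2, 4, 1, [30]⟩,
      ⟨6, 4, 0, [30]⟩, ⟨2, 6, 17, [30]⟩, ⟨3, 6, 0, [30]⟩, ⟨0, 2, 17, [30]⟩, ⟨1, 2, 48, [31]⟩,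
      ⟨4, 3, 47, [31]⟩, ⟨1, 4, 55, [31]⟩, ⟨1, 0, 31, [1]⟩]
      (.stop 1)⟩

/-- claims of the tile of type 0 -/
def claims0 : List Claim := [cl0_rb, cl0_al, cl0_P1, cl0_Q1, cl0_P2, cl0_Q2]

/-- claims of the tile of type 1 -/
def claims1 : List Claim := [cl1_rb, cl1_al, cl1_P1, cl1_Q1, cl1_P2, cl1_Q2, cl1_O]

/-- claims of the tile of type 2 -/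
def claims2 : List Claim := [cl2_c]

/-- claims of the tile of type 3 -/
def claims3 : List Claim := [cl3_n]

/-- claims of the tile of type 4 -/
def claims4 : List Claim := [cl4_r, cl4_v]

/-- claims of the tile of type 5 -/
def claims5 : List Claim := [cl5_g]

/-- claims of the tile of type 6 -/
def claims6 : List Claim := [cl6_r, cl6_v]

/-- claims of the tile of type 7 -/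
def claims7 : List Claim := [cl7_g]

end Pool.Agent.H691.MM
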