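import Pool.Agent.H691.Geo.P1a
import Pool.Agent.H691.Geo.P1b
import Pool.Agent.H691.Geo.P1c
import Pool.Agent.H691.Geo.P2a
import Pool.Agent.H691.Geo.P2b
import Pool.Agent.H691.Geo.P2c
import Pool.Agent.H37.MMGA
import Pool.Graph.R_seed8.W999.TA_G1
import Pool.Graph.R_seed8.W804.TA_G2
import Pool.Graph.R_seed8.W120.TA_G3
import Pool.Graph.R_seed8.W366.TA_G4
import Pool.Graph.R_seed8.W584.TA_G5
import Pool.Graph.R_seed8.W585.TA_G6
import Pool.Graph.R_seed8.W284.TA_G7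
import Pool.Graph.R_seed8.W403.TA_G8
import Pool.Graph.R_seed8.W347.TA_G9

/-!
# Max-min area triangulations: the two geometric theorems
-/

set_option autoImplicit false

namespace Pool.Agent.H691.MM

open Pool.Agent.W982.TA Pool.Agent.H691.Geo

theorem g9all : TaskG9 := g9 g1 g6 g7 g8

theorem gP1a : TaskP1a := P1a.P1a g1 g9all

/-- **soundness** -/
theorem gP1 : TaskP1 := Pool.Agent.H37.MMGA.taskP1 gP1a (P1b.p1b gP1a g4 g9all) (P1c.p1c g3)

/-- **completeness** -/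
theorem gP2 : TaskP2 :=
  Pool.Agent.H37.MMGA.taskP2 P2a.p2a (P2b.p2b g3) (P2c.p2c g3 g4 g9all) g3 g4 g5

end Pool.Agent.H691.MM
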