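import Pool.Agent.H691.MM.Grid
import Pool.Agent.H691.MM.GA
import Pool.Agent.H671.MMGQ
import Pool.Graph.R_seed8.W724.TA_J4

/-!
# Max-min area triangulations: assembly
-/

set_option autoImplicit false

namespace Pool.Agent.H691.MM

open Pool.Agent.W982.TA Pool.Agent.H691.Geo Pool.Agent.NPC

/-- the list of rational points of the instance -/
def Qlist (φ : List Cl) : List (ℚ × ℚ) := (Plist φ).map Pool.Agent.W982.TA.Q.qt

theorem qt_inj : Function.Injective Pool.Agent.W982.TA.Q.qt := by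
  intro p q h
  unfold Pool.Agent.W982.TA.Q.qt at h
  rw [Prod.mk.injEq] at h
  exact Prod.ext (by exact_mod_cast h.1) (by exact_mod_cast h.2)

theorem bY_pos (φ : List Cl) : 78 ≤ bY φ := by unfold bY nR; omega

theorem bX_pos (φ : List Cl) : 23 ≤ bX φ := by unfold bX nC; omega

theorem bN_eq (φ : List Cl) : bN φ = 4 * bY φ + 8 := by unfold bN bY; omega

/-- the areas are multiples of `N / 2`: a triangulation with areas larger than `N / 2` has areas at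
least `N` -/
theorem gap (X Y N : ℤ) (W : Finset Pt) (hN : 0 < N) (B : ℚ) (hB : (N : ℚ) / 2 < B)
    (h : MaxMinArea (SS X Y N W) B) : MaxMinArea (SS X Y N W) N := by
  obtain ⟨T, hT, hA⟩ := h
  refine ⟨T, hT, ?_⟩
  intro a b c ht
  have hk : ∀ p ∈ SS X Y N W, ∃ k : ℤ, p.2 = N * k := by
    intro p hp
    unfold SS at hp
    rw [Finset.mem_union, Finset.mem_image, Finset.mem_image] at hp
    rcases hp with ⟨q, _, rfl⟩ | ⟨q, _, rfl⟩
    · exact ⟨q.2, rfl⟩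
    · exact ⟨q.2, rfl⟩
  obtain ⟨ka, ha⟩ := hk a (hT.seg _ _ ht.1).1
  obtain ⟨kb, hb⟩ := hk b (hT.seg _ _ ht.1).2.1
  obtain ⟨kc, hc⟩ := hk c (hT.seg _ _ ht.2.1).2.1
  have hd : dt a b c = N * ((b.1 - a.1) * (kc - ka) - (kb - ka) * (c.1 - a.1)) := by
    unfold dt
    rw [ha, hb, hc]
    ring
  have h1 := hA a b c ht
  have h2 : (N : ℚ) < ((|dt a b c| : ℤ) : ℚ) := by linarith
  have h3 : N < |dt a b c| := by exact_mod_cast h2
  rw [hd, abs_mul, abs_of_pos hN] at h3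
  have h4 : 2 ≤ |(b.1 - a.1) * (kc - ka) - (kb - ka) * (c.1 - a.1)| := by
    by_contra h5
    have : |(b.1 - a.1) * (kc - ka) - (kb - ka) * (c.1 - a.1)| ≤ 1 := by omega
    nlinarith
  have h6 : 2 * N ≤ |dt a b c| := by
    rw [hd, abs_mul, abs_of_pos hN]
    nlinarith
  have h7 : (2 * N : ℚ) ≤ ((|dt a b c| : ℤ) : ℚ) := by exact_mod_cast h6
  linarith

/-- correctness of the instance -/
theorem inst_iff (i2 : TaskI2) (i3 : TaskI3) (b2 : TaskB2) (v3 : TaskV3) (hF : FamsOK)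
    (hC : ClaimsOK) (φ : List Cl) (h0 : φ ≠ []) (hb : Bounded3 φ) (B : ℚ)
    (hB1 : (bN φ : ℚ) / 2 < B) (hB2 : B ≤ (bN φ : ℚ)) :
    SAT3 φ ↔ Q.MaxMinArea (Qlist φ).toFinset B := by
  have hX : (0 : ℤ) < bX φ := by have := bX_pos φ; omega
  have hY : (0 : ℤ) < bY φ := by have := bY_pos φ; omega
  have hN : 4 * (bY φ : ℤ) + 8 ≤ (bN φ : ℤ) := by rw [bN_eq]; push_cast; omega
  have hW := i2 φ h0
  have e1 : (Qlist φ).toFinset =
      (SS (bX φ) (bY φ) (bN φ) (Wset φ)).image Pool.Agent.W982.TA.Q.qt := by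
    rw [← (i3 φ h0).2]
    ext p
    simp [Qlist]
  have e2 : (bN φ : ℚ) = (((bN φ : ℕ) : ℤ) : ℚ) := by push_cast; rfl
  rw [e2] at hB1 hB2
  rw [e1, ← Q.q2]
  constructor
  · intro h
    obtain ⟨f, hs, hn⟩ := b2 hF φ h0 hb h
    obtain ⟨T, hT, hA⟩ := gP2 _ _ _ _ f hX hY hN hW hs hn
    exact ⟨T, hT, fun a b c ht => hB2.trans (hA a b c ht)⟩
  · intro h
    obtain ⟨f, hs⟩ := gP1 _ _ _ _ hX hY hN hW (gap _ _ _ _ (by omega) B hB1 h)
    obtain ⟨a, b, hs⟩ := v3 hC φ f h0 hs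
    exact j4 φ a b hb hs

theorem mem_Qlist (i3 : TaskI3) (φ : List Cl) (h0 : φ ≠ []) (x y : ℕ) (hx : x ≤ bX φ)
    (hy : y ≤ bY φ) : (((bN φ * x : ℕ) : ℚ), ((bN φ * y : ℕ) : ℚ)) ∈ Qlist φ := by
  unfold Qlist
  rw [List.mem_map]
  refine ⟨(((bN φ * x : ℕ) : ℤ), ((bN φ * y : ℕ) : ℤ)), ?_, ?_⟩
  · rw [← List.mem_toFinset, (i3 φ h0).2]
    unfold SS
    refine Finset.mem_union_left _ (Finset.mem_image.2 ⟨((x : ℤ), (y : ℤ)), ?_, ?_⟩)
    · simp [box, hx, hy]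
    · unfold sp
      push_cast
      simp
  · unfold Pool.Agent.W982.TA.Q.qt
    push_cast
    rfl

theorem Qlist_nodup (i3 : TaskI3) (φ : List Cl) (h0 : φ ≠ []) : (Qlist φ).Nodup :=
  (i3 φ h0).1.map qt_inj

theorem Qlist_not_collinear (i3 : TaskI3) (φ : List Cl) (h0 : φ ≠ []) :
    ¬ Collinear ℝ {x | ∃ p ∈ Qlist φ, x = Pool.Agent.W982.TA.Q.pt p} := by
  intro h
  have m0 := mem_Qlist i3 φ h0 0 0 (by omega) (by omega)
  have m1 := mem_Qlist i3 φ h0 1 0 (by have := bX_pos φ; omega) (by omega)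
  have m2 := mem_Qlist i3 φ h0 0 1 (by omega) (by have := bY_pos φ; omega)
  have hN : (bN φ : ℝ) ≠ 0 := by
    have : bN φ ≠ 0 := by rw [bN_eq]; omega
    exact_mod_cast this
  have hm : Pool.Agent.W982.TA.Q.pt (((bN φ * 0 : ℕ) : ℚ), ((bN φ * 0 : ℕ) : ℚ)) ∈
      {x | ∃ p ∈ Qlist φ, x = Pool.Agent.W982.TA.Q.pt p} := ⟨_, m0, rfl⟩
  rw [collinear_iff_of_mem hm] at h
  obtain ⟨v, hv⟩ := h
  obtain ⟨r, hr⟩ := hv _ ⟨_, m1, rfl⟩
  obtain ⟨s, hs⟩ := hv _ ⟨_, m2, rfl⟩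
  simp only [Pool.Agent.W982.TA.Q.pt, vadd_eq_add, Prod.ext_iff, Prod.fst_add, Prod.snd_add,
    Prod.smul_fst, Prod.smul_snd, smul_eq_mul] at hr hs
  push_cast at hr hs
  obtain ⟨r1, r2⟩ := hr
  obtain ⟨s1, s2⟩ := hs
  have hr1 : r * v.1 = bN φ := by linarith
  have hr0 : r ≠ 0 := by
    rintro rfl
    rw [zero_mul] at hr1
    exact hN hr1.symm
  have hv2 : v.2 = 0 := by
    rcases mul_eq_zero.1 (show r * v.2 = 0 by linarith) with h | h
    · exact absurd h hr0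
    · exact h
  rw [hv2] at s2
  exact hN (by linarith)

theorem Qlist_grid (i2 : TaskI2) (i3 : TaskI3) (φ : List Cl) (h0 : φ ≠ []) :
    (∀ p ∈ Qlist φ, ∃ a b : ℕ, a < 100 * (Qlist φ).length ∧ b < 100 * (Qlist φ).length ∧
      p = ((a : ℚ), (b : ℚ))) ∧ bN φ < 100 * (Qlist φ).length := by
  have hlen : (bX φ + 1) * (bY φ + 1) ≤ (Qlist φ).length := by
    have : (Qlist φ).length = (Plist φ).length := by simp [Qlist]
    rw [this]
    unfold Plist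
    rw [List.length_append, List.length_flatMap]
    simp only [List.length_map, List.length_range, List.map_const', List.sum_replicate,
      smul_eq_mul]
    exact Nat.le_add_right _ _
  have hX := bX_pos φ
  have hY := bY_pos φ
  have hYX : bY φ ≤ 12 * (bX φ + 1) := by unfold bY bX nR nC; omega
  have hb1 : bN φ * bX φ + 1 < 100 * (Qlist φ).length := by
    rw [bN_eq]
    nlinarith
  have hb2 : bN φ * bY φ < 100 * (Qlist φ).length := by
    rw [bN_eq]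
    nlinarith
  refine ⟨?_, ?_⟩
  · intro p hp
    unfold Qlist at hp
    rw [List.mem_map] at hp
    obtain ⟨q, hq, rfl⟩ := hp
    rw [← List.mem_toFinset, (i3 φ h0).2] at hq
    have hk : ∃ x y e : ℤ, 0 ≤ x ∧ x ≤ bX φ ∧ 0 ≤ y ∧ y ≤ bY φ ∧ 0 ≤ e ∧ e ≤ 1 ∧
        q = ((bN φ : ℤ) * x + e, (bN φ : ℤ) * y) := by
      unfold SS at hq
      rw [Finset.mem_union, Finset.mem_image, Finset.mem_image] at hq
      rcases hq with ⟨w, hw, rfl⟩ | ⟨w, hw, rfl⟩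
      · simp only [box, Finset.mem_product, Finset.mem_Icc] at hw
        exact ⟨w.1, w.2, 0, hw.1.1, hw.1.2, hw.2.1, hw.2.2, le_rfl, by norm_num, rfl⟩
      · have := i2 φ h0 hw
        simp only [lbox, Finset.mem_product, Finset.mem_Ico, Finset.mem_Ioo] at this
        exact ⟨w.1, w.2, 1, this.1.1, this.1.2.le, this.2.1.le, this.2.2.le, by norm_num, le_rfl,
          rfl⟩
    obtain ⟨x, y, e, hx0, hx1, hy0, hy1, he0, he1, rfl⟩ := hk
    obtain ⟨x, rfl⟩ := Int.eq_ofNat_of_zero_le hx0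
    obtain ⟨y, rfl⟩ := Int.eq_ofNat_of_zero_le hy0
    obtain ⟨e, rfl⟩ := Int.eq_ofNat_of_zero_le he0
    have hx2 : x ≤ bX φ := by exact_mod_cast hx1
    have hy2 : y ≤ bY φ := by exact_mod_cast hy1
    have he2 : e ≤ 1 := by exact_mod_cast he1
    refine ⟨bN φ * x + e, bN φ * y, ?_, ?_, ?_⟩
    · have := Nat.mul_le_mul_left (bN φ) hx2
      omega
    · have := Nat.mul_le_mul_left (bN φ) hy2
      omega
    · unfold Pool.Agent.W982.TA.Q.qt
      push_cast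
      rfl
  · have : bN φ * 1 ≤ bN φ * bX φ := Nat.mul_le_mul_left _ (by omega)
    omega

/-- the hardness theorem -/
theorem hard (i2 : TaskI2) (i3 : TaskI3) (b2 : TaskB2) (v3 : TaskV3) (hF : FamsOK)
    (hC : ClaimsOK) (r : TaskR) (L : Set (List Bool)) (hL : InNP L) :
    ∃ f : List Bool → List (ℚ × ℚ) × ℚ, PolyTime (fun w => bits (f w)) ∧ ∀ w,
      (f w).1.Nodup ∧ ¬ Collinear ℝ {x | ∃ p ∈ (f w).1, x = Pool.Agent.W982.TA.Q.pt p} ∧
      (∀ p ∈ (f w).1, ∃ a b : ℕ, a < 100 * (f w).1.length ∧ b < 100 * (f w).1.length ∧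
        p = ((a : ℚ), (b : ℚ))) ∧
      (∃ A : ℕ, 0 < A ∧ A < 100 * (f w).1.length ∧ (f w).2 = (A : ℚ)) ∧
      ∀ B : ℚ, (f w).2 / 2 < B → B ≤ (f w).2 → (w ∈ L ↔ Q.MaxMinArea (f w).1.toFinset B) := by
  obtain ⟨g, hg, hpr, hgL⟩ := hardPr_SAT3b L hL
  refine ⟨fun w => (Qlist (g w), (bN (g w) : ℚ)), PC.toPolyTime_bits r g hg, fun w =>
    ⟨Qlist_nodup i3 _ (hpr w).2.2, Qlist_not_collinear i3 _ (hpr w).2.2,
      (Qlist_grid i2 i3 _ (hpr w).2.2).1,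
      ⟨_, by unfold bN; omega, (Qlist_grid i2 i3 _ (hpr w).2.2).2, rfl⟩, ?_⟩⟩
  intro B hB1 hB2
  rw [hgL w]
  exact inst_iff i2 i3 b2 v3 hF hC _ (hpr w).2.2 (hpr w).2.1 B hB1 hB2

end Pool.Agent.H691.MM
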