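import Pool.Agent.H691.MM.Dat
import Pool.Graph.R_seed8.W982.TA.Grid
import Pool.Graph.R_seed8.W982.TA.Rat

/-!
# Max-min area triangulations: the grid of tiles

The instance of a formula is a grid of `nR φ` rows and `nC φ` columns of tiles of width 21 and
height 39.  Types of tiles: see `ty` (library); the signals of the wires are given by the states
`st` (library).
-/

set_option autoImplicit false

namespace Pool.Agent.H691.MM

open Pool.Agent.W982.TA Pool.Agent.H691.Geo Pool.Agent.NPC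

/-! ### ports and signals -/

/-- the tile has a horizontal port on the left side (rows 20, 21); the port on the right side is
always present -/
def hasL (t : ℕ) : Bool := t = 0 || t = 1 || t = 4 || t = 6

/-- the column of the port on the top side -/
def topx (t : ℕ) : Option ℕ := if t = 0 ∨ t = 1 ∨ t = 4 then some 10 else if t = 2 then some 9 else none

/-- the column of the port on the bottom side -/
def botx (t : ℕ) : Option ℕ := if t = 0 ∨ t = 1 ∨ t = 6 then some 10 else if t = 3 then some 9 else none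

/-- the signal of the horizontal ports -/
def hsig (t s : ℕ) : Bool :=
  if 6 ≤ t then true else if 4 ≤ t then false
  else if t = 3 then decide (s = 0) else decide (s % 2 = 1)

/-- the signal of the top port -/
def vtop (t s : ℕ) : Bool :=
  if t = 0 then decide (s / 2 = 1) else if t = 1 then decide (s ≠ 0)
  else if t = 2 then decide (s = 1) else false

/-- the signal of the bottom port -/
def vbot (t s : ℕ) : Bool :=
  if t ≤ 1 then decide (s / 2 = 1) else if t = 3 then decide (s = 1) else decide (t = 6)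

/-- the standard vectors of a signal -/
def stdv (b up : Bool) : Pt := (if b = up then 1 else -1, if up then 2 else -2)

/-- the cells of the wires next to the tile, with their signals -/
def ghosts (t s : ℕ) : List (Pt × Bool) :=
  (if hasL t then [(((-3 : ℤ), (20 : ℤ)), hsig t s), (((-3 : ℤ), (21 : ℤ)), hsig t s),
    (((-2 : ℤ), (20 : ℤ)), hsig t s), (((-2 : ℤ), (21 : ℤ)), hsig t s),
    (((-1 : ℤ), (20 : ℤ)), hsig t s), (((-1 : ℤ), (21 : ℤ)), hsig t s)] else []) ++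
  [(((21 : ℤ), (20 : ℤ)), hsig t s), (((21 : ℤ), (21 : ℤ)), hsig t s),
    (((22 : ℤ), (20 : ℤ)), hsig t s), (((22 : ℤ), (21 : ℤ)), hsig t s),
    (((23 : ℤ), (20 : ℤ)), hsig t s), (((23 : ℤ), (21 : ℤ)), hsig t s)] ++
  (match topx t with
    | some x => [(((x : ℤ), (39 : ℤ)), vtop t s), (((x : ℤ), (40 : ℤ)), vtop t s),
        (((x : ℤ), (41 : ℤ)), vtop t s)]
    | none => []) ++
  (match botx t with
    | some x => [(((x : ℤ), (-3 : ℤ)), vbot t s), (((x : ℤ), (-2 : ℤ)), vbot t s),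
        (((x : ℤ), (-1 : ℤ)), vbot t s)]
    | none => [])

/-! ### families -/

/-- the vectors of an entry -/
def Ent.vec (e : Ent) (up : Bool) : Pt :=
  if up then ((e.ux : ℤ) - 8, (e.uy : ℤ)) else ((e.dx : ℤ) - 8, -(e.dy : ℤ))

/-- the vectors of the cell `(x, y)` in a family -/
def look (L : List Ent) (x y : ℕ) (up : Bool) : Pt :=
  match L.find? (fun e => Nat.beq e.x x && Nat.beq e.y y) with
  | some e => e.vec up
  | none => (0, 0)

/-- the cell as a point -/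
def cp (c : ℕ × ℕ) : Pt := ((c.1 : ℤ), (c.2 : ℤ))

/-- the family `g` is correct for the tile of type `t` in state `s` -/
structure LocOK (t s : ℕ) (g : ℕ → ℕ → Bool → Pt) : Prop where
  size : ∀ c ∈ cells t, c.1 < 21 ∧ c.2 < 39
  prim : ∀ c ∈ cells t, ∀ up, Int.gcd (g c.1 c.2 up).1 (g c.1 c.2 up).2 = 1
  up : ∀ c ∈ cells t, 2 ≤ (g c.1 c.2 true).2
  down : ∀ c ∈ cells t, (g c.1 c.2 false).2 ≤ -2
  left0 : hasL t = false → ∀ c ∈ cells t, ∀ up, 0 ≤ (c.1 : ℤ) + (g c.1 c.2 up).1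
  left1 : hasL t = true → ∀ c ∈ cells t, c.1 < 3 →
    (c.2 = 20 ∨ c.2 = 21) ∧ ∀ up, g c.1 c.2 up = stdv (hsig t s) up
  left2 : hasL t = true → ∀ c ∈ cells t, 3 ≤ c.1 → ∀ up, 1 ≤ (c.1 : ℤ) + (g c.1 c.2 up).1
  right1 : ∀ c ∈ cells t, 18 ≤ c.1 →
    (c.2 = 20 ∨ c.2 = 21) ∧ ∀ up, g c.1 c.2 up = stdv (hsig t s) up
  right2 : ∀ c ∈ cells t, c.1 < 18 → ∀ up, (c.1 : ℤ) + (g c.1 c.2 up).1 ≤ 19
  bot1 : ∀ c ∈ cells t, c.2 < 3 → botx t = some c.1 ∧ ∀ up, g c.1 c.2 up = stdv (vbot t s) up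
  bot2 : ∀ c ∈ cells t, 3 ≤ c.2 → ∀ up, 1 ≤ (c.2 : ℤ) + (g c.1 c.2 up).2
  top1 : ∀ c ∈ cells t, 36 ≤ c.2 → topx t = some c.1 ∧ ∀ up, g c.1 c.2 up = stdv (vtop t s) up
  top2 : ∀ c ∈ cells t, c.2 < 36 → ∀ up, (c.2 : ℤ) + (g c.1 c.2 up).2 ≤ 37
  disjO : ∀ c ∈ cells t, ∀ c' ∈ cells t, ∀ up up' : Bool,
    ¬ PCross (cp c) (cp c + g c.1 c.2 up) (cp c') (cp c' + g c'.1 c'.2 up')
  disjG : ∀ c ∈ cells t, ∀ q ∈ ghosts t s, ∀ up up' : Bool,
    ¬ PCross (cp c) (cp c + g c.1 c.2 up) q.1 (q.1 + stdv q.2 up')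
  nspO : ∀ c ∈ cells t, ∀ up, ∀ c' ∈ cells t, cp c + g c.1 c.2 up ≠ cp c'
  nspG : ∀ c ∈ cells t, ∀ up, ∀ q ∈ ghosts t s, cp c + g c.1 c.2 up ≠ q.1

/-! ### fast check of families; coordinates are shifted by 8 -/

/-- positive part of the determinant -/
def dpN (a1 a2 b1 b2 c1 c2 : ℕ) : ℕ :=
  Nat.add (Nat.add (Nat.mul a1 b2) (Nat.mul b1 c2)) (Nat.mul c1 a2)
/-- negative part of the determinant -/
def dnN (a1 a2 b1 b2 c1 c2 : ℕ) : ℕ :=
  Nat.add (Nat.add (Nat.mul a1 c2) (Nat.mul b1 a2)) (Nat.mul c1 b2)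

/-- `c` and `d` are strictly on different sides of the line `a b` -/
def oppN (a1 a2 b1 b2 c1 c2 d1 d2 : ℕ) : Bool :=
  (Nat.blt (dpN a1 a2 b1 b2 c1 c2) (dnN a1 a2 b1 b2 c1 c2) &&
    Nat.blt (dnN a1 a2 b1 b2 d1 d2) (dpN a1 a2 b1 b2 d1 d2)) ||
  (Nat.blt (dnN a1 a2 b1 b2 c1 c2) (dpN a1 a2 b1 b2 c1 c2) &&
    Nat.blt (dpN a1 a2 b1 b2 d1 d2) (dnN a1 a2 b1 b2 d1 d2))

/-- a segment from `(a1, a2)` up to `(b1, b2)` -/
structure SegN where
  a1 : ℕ
  a2 : ℕ
  b1 : ℕ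
  b2 : ℕ

/-- the segments do not cross -/
def nxN (s r : SegN) : Bool :=
  Nat.ble s.b2 r.a2 || Nat.ble r.b2 s.a2 ||
    !(oppN s.a1 s.a2 s.b1 s.b2 r.a1 r.a2 r.b1 r.b2 && oppN r.a1 r.a2 r.b1 r.b2 s.a1 s.a2 s.b1 s.b2)

/-- the segments of an entry -/
def Ent.segs (e : Ent) : List SegN :=
  [⟨e.x + 8, e.y + 8, e.x + e.ux, e.y + 8 + e.uy⟩, ⟨e.x + e.dx, e.y + 8 - e.dy, e.x + 8, e.y + 8⟩]

/-- the point shifted by 8 -/
def sh (p : Pt) : ℕ × ℕ := ((p.1 + 8).toNat, (p.2 + 8).toNat)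

/-- the segments of a ghost cell -/
def gsegs (q : Pt × Bool) : List SegN :=
  let c := sh q.1
  if q.2 then [⟨c.1, c.2, c.1 + 1, c.2 + 2⟩, ⟨c.1 - 1, c.2 - 2, c.1, c.2⟩]
  else [⟨c.1, c.2, c.1 - 1, c.2 + 2⟩, ⟨c.1 + 1, c.2 - 2, c.1, c.2⟩]

/-- all pairs -/
def pairsN : List SegN → Bool
  | [] => true
  | s :: l => l.all (nxN s) && pairsN l

/-- the check of the vectors of an entry -/
def entN (t s : ℕ) (e : Ent) : Bool :=
  decide (e.x < 21) && decide (e.y < 39) &&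
  decide (Int.gcd ((e.ux : ℤ) - 8) (e.uy : ℤ) = 1) && decide (Int.gcd ((e.dx : ℤ) - 8) (e.dy : ℤ) = 1) &&
  decide (2 ≤ e.uy) && decide (2 ≤ e.dy) && decide (e.dy ≤ e.y + 8) &&
  (if hasL t then
    (if e.x < 3 then (decide (e.y = 20) || decide (e.y = 21)) &&
        decide (e.vec true = stdv (hsig t s) true) && decide (e.vec false = stdv (hsig t s) false)
      else decide (9 ≤ e.x + e.ux) && decide (9 ≤ e.x + e.dx))
    else decide (8 ≤ e.x + e.ux) && decide (8 ≤ e.x + e.dx)) &&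
  (if 18 ≤ e.x then (decide (e.y = 20) || decide (e.y = 21)) &&
      decide (e.vec true = stdv (hsig t s) true) && decide (e.vec false = stdv (hsig t s) false)
    else decide (e.x + e.ux ≤ 27) && decide (e.x + e.dx ≤ 27)) &&
  (if e.y < 3 then decide (botx t = some e.x) &&
      decide (e.vec true = stdv (vbot t s) true) && decide (e.vec false = stdv (vbot t s) false)
    else decide (e.dy + 1 ≤ e.y)) &&
  (if 36 ≤ e.y then decide (topx t = some e.x) &&
      decide (e.vec true = stdv (vtop t s) true) && decide (e.vec false = stdv (vtop t s) false)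
    else decide (e.y + e.uy ≤ 37))

/-- the check of a family -/
def famOK (t s : ℕ) : Bool :=
  decide ((fam t s).map (fun e => (e.x, e.y)) = cells t) &&
  (fam t s).all (entN t s) &&
  (fam t s).all (fun e => (fam t s).all (fun e' =>
    !(Nat.beq (e.x + e.ux) (e'.x + 8) && Nat.beq (e.y + e.uy) e'.y) &&
    !(Nat.beq (e.x + e.dx) (e'.x + 8) && Nat.beq e.y (e'.y + e.dy)))) &&
  (fam t s).all (fun e => (ghosts t s).all (fun q =>
    !(Nat.beq (e.x + e.ux) (sh q.1).1 && Nat.beq (e.y + 8 + e.uy) (sh q.1).2) &&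
    !(Nat.beq (e.x + e.dx) (sh q.1).1 && Nat.beq (e.y + 8) ((sh q.1).2 + e.dy)))) &&
  pairsN ((fam t s).flatMap Ent.segs ++ (ghosts t s).flatMap gsegs)

/-- F1: soundness of the check -/
def TaskF1 : Prop := ∀ t s : ℕ, famOK t s = true → LocOK t s (look (fam t s))

/-- the families are correct -/
def FamsOK : Prop := ∀ t < 8, ∀ s < 4, (2 ≤ t → s ≤ 1) → (4 ≤ t → s = 0) → famOK t s = true

/-! ### the instance -/

/-- width and height of the box, and the scale -/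
def bX (φ : List Cl) : ℕ := 21 * nC φ + 2
def bY (φ : List Cl) : ℕ := 39 * nR φ
def bN (φ : List Cl) : ℕ := 156 * nR φ + 8

/-- the special points of the instance -/
def Wlist (φ : List Cl) : List Pt :=
  (List.range (nR φ)).flatMap fun i => (List.range (nC φ)).flatMap fun j =>
    (cells (ty φ i j)).map fun c => (((21 * j + c.1 : ℕ) : ℤ), ((39 * i + c.2 : ℕ) : ℤ))

/-- the special points as a set -/
def Wset (φ : List Cl) : Finset Pt := (Wlist φ).toFinset

/-- the points of the instance -/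
def Plist (φ : List Cl) : List Pt :=
  ((List.range (bX φ + 1)).flatMap fun x => (List.range (bY φ + 1)).map fun y =>
    (((bN φ * x : ℕ) : ℤ), ((bN φ * y : ℕ) : ℤ))) ++
  (Wlist φ).map fun w => ((bN φ : ℤ) * w.1 + 1, (bN φ : ℤ) * w.2)

/-- I1: the special points -/
def TaskI1 : Prop := ∀ (φ : List Cl) (q : Pt), q ∈ Wset φ ↔
  ∃ i < nR φ, ∃ j < nC φ, ∃ c ∈ cells (ty φ i j), q = (21 * (j : ℤ) + c.1, 39 * (i : ℤ) + c.2)

/-- I2: the special points are in the box -/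
def TaskI2 : Prop := ∀ φ : List Cl, φ ≠ [] → Wset φ ⊆ lbox (bX φ) (bY φ)

/-- I3: the points of the instance -/
def TaskI3 : Prop := ∀ φ : List Cl, φ ≠ [] → (Plist φ).Nodup ∧
  (Plist φ).toFinset = SS (bX φ) (bY φ) (bN φ) (Wset φ)

/-- R: the instance is computed in polynomial time -/
def TaskR : Prop := Poly (fun φ : List Cl =>
  ((Plist φ).map Pool.Agent.W982.TA.Q.qt, ((bN φ : ℕ) : ℚ)))

/-- M1: the signals match horizontally -/
def TaskM1 : Prop := ∀ (φ : List Cl) (τ : ℕ → Bool), ∀ i < nR φ, ∀ j, j + 1 < nC φ →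
  hasL (ty φ i (j + 1)) = true ∧
    hsig (ty φ i j) (st φ τ i j) = hsig (ty φ i (j + 1)) (st φ τ i (j + 1))

/-- M2: the signals match vertically -/
def TaskM2 : Prop := ∀ (φ : List Cl) (τ : ℕ → Bool), Bounded3 φ → SatBy φ τ →
  ∀ i, i + 1 < nR φ → ∀ j < nC φ, topx (ty φ i j) = botx (ty φ (i + 1) j) ∧
    (topx (ty φ i j) ≠ none → vtop (ty φ i j) (st φ τ i j) =
      vbot (ty φ (i + 1) j) (st φ τ (i + 1) j))

/-- M3: types and states -/
def TaskM3 : Prop := ∀ (φ : List Cl) (τ : ℕ → Bool), ∀ i < nR φ, ∀ j < nC φ,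
  ty φ i j < 8 ∧ st φ τ i j < 4 ∧ (2 ≤ ty φ i j → st φ τ i j ≤ 1) ∧
    (4 ≤ ty φ i j → st φ τ i j = 0) ∧ (hasL (ty φ i j) = false ↔ j = 0) ∧
    (botx (ty φ i j) ≠ none → 1 ≤ i) ∧ (topx (ty φ i j) ≠ none → i + 1 < nR φ)

/-- the family of the whole instance -/
def fAll (φ : List Cl) (τ : ℕ → Bool) (w : Pt) (up : Bool) : Pt :=
  look (fam (ty φ (w.2 / 39).toNat (w.1 / 21).toNat) (st φ τ (w.2 / 39).toNat (w.1 / 21).toNat))
    (w.1 % 21).toNat (w.2 % 39).toNat up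

/-- a grid of tiles with correct families and matching signals; `i` is the number of the row,
`j` the number of the column -/
structure GridOK (R C : ℕ) (T S : ℕ → ℕ → ℕ) (W : Finset Pt) (f : Pt → Bool → Pt) : Prop where
  pos : 0 < R ∧ 0 < C
  loc : ∀ i < R, ∀ j < C, LocOK (T i j) (S i j)
    (fun x y up => f (21 * (j : ℤ) + x, 39 * (i : ℤ) + y) up)
  mem : ∀ q : Pt, q ∈ W ↔ ∃ i < R, ∃ j < C, ∃ c ∈ cells (T i j),
    q = (21 * (j : ℤ) + c.1, 39 * (i : ℤ) + c.2)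
  hc : ∀ i < R, ∀ j, j + 1 < C → hasL (T i (j + 1)) = true ∧
    hsig (T i j) (S i j) = hsig (T i (j + 1)) (S i (j + 1))
  vc : ∀ i, i + 1 < R → ∀ j < C, topx (T i j) = botx (T (i + 1) j) ∧
    (topx (T i j) ≠ none → vtop (T i j) (S i j) = vbot (T (i + 1) j) (S (i + 1) j))
  l0 : ∀ i < R, hasL (T i 0) = false
  b0 : ∀ j < C, botx (T 0 j) = none
  t0 : ∀ j < C, topx (T (R - 1) j) = none

/-- B1: gluing -/
def TaskB1 : Prop := ∀ (R C : ℕ) (T S : ℕ → ℕ → ℕ) (W : Finset Pt) (f : Pt → Bool → Pt),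
  GridOK R C T S W f → Sel (21 * C + 2) (39 * R) W f ∧ ∀ w ∈ W, ∀ s, w + f w s ∉ W

/-- B2: completeness -/
def TaskB2 : Prop := FamsOK → ∀ φ : List Cl, φ ≠ [] → Bounded3 φ → SAT3 φ →
  ∃ f, Sel (bX φ) (bY φ) (Wset φ) f ∧ ∀ w ∈ Wset φ, ∀ s, w + f w s ∉ Wset φ

/-! ### soundness -/

/-- the local cell `p` of a tile of type `t` (or of the wires next to it) is special -/
def cellIn (t : ℕ) (p : Pt) : Bool :=
  (decide (0 ≤ p.1) && decide (0 ≤ p.2) && (cells t).contains (p.1.toNat, p.2.toNat)) ||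
  (hasL t && decide (-3 ≤ p.1) && decide (p.1 < 0) && (decide (p.2 = 20) || decide (p.2 = 21))) ||
  (decide (topx t = some p.1.toNat) && decide (0 ≤ p.1) && decide (39 ≤ p.2) && decide (p.2 < 42)) ||
  (decide (botx t = some p.1.toNat) && decide (0 ≤ p.1) && decide (-3 ≤ p.2) && decide (p.2 < 0))

/-- all variables of the claim are special points of the tile of type `t` -/
def claimIn (t : ℕ) (c : Claim) : Bool :=
  claimOK c && c.vars.all (fun e => cellIn t e.1) && (!c.bd || !hasL t)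

/-- V1: cells of tiles and of the wires next to them are special -/
def TaskV1 : Prop := ∀ φ : List Cl, ∀ i < nR φ, ∀ j < nC φ, ∀ p : Pt,
  cellIn (ty φ i j) p = true → (21 * (j : ℤ) + p.1, 39 * (i : ℤ) + p.2) ∈ Wset φ

/-- V2: claims hold in all tiles of the type -/
def TaskV2 : Prop := ∀ (φ : List Cl) (f : Pt → Bool → Pt),
  Sel (bX φ) (bY φ) (Wset φ) f → ∀ i < nR φ, ∀ j < nC φ, ∀ c : Claim,
  claimIn (ty φ i j) c = true →
  (∀ a ∈ c.asm, sgU f (21 * (j : ℤ) + a.1.1, 39 * (i : ℤ) + a.1.2) = a.2) → False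

/-- all claims are correct -/
def ClaimsOK : Prop :=
  (∀ c ∈ claims0, claimIn 0 c = true) ∧ (∀ c ∈ claims1, claimIn 1 c = true) ∧
  (∀ c ∈ claims2, claimIn 2 c = true) ∧ (∀ c ∈ claims3, claimIn 3 c = true) ∧
  (∀ c ∈ claims4, claimIn 4 c = true) ∧ (∀ c ∈ claims5, claimIn 5 c = true) ∧
  (∀ c ∈ claims6, claimIn 6 c = true) ∧ (∀ c ∈ claims7, claimIn 7 c = true)

/-- V3: the signals of a selection -/
def TaskV3 : Prop := ClaimsOK → ∀ (φ : List Cl) (f : Pt → Bool → Pt), φ ≠ [] →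
  Sel (bX φ) (bY φ) (Wset φ) f → ∃ h v, Sig φ h v

end Pool.Agent.H691.MM
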